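import Pool.Agent.H83.ZF.Hart

/-! `WF^s_b1` implies the dual Cantor-Bernstein principle and choice for well-ordered families. -/

set_option autoImplicit false

open Set

namespace Pool.Agent.H83.ZF

universe u v

section

variable {V : Type u} [ZFM V]

/-- `WF^s_b1` in the model -/
abbrev WFm (V : Type u) [ZFM V] : Prop := WFs (ZFM.E (V := V))

theorem WFm.min (h : WFm V) {K : V} (hK : ∃ x, x ∈ K) :
    ∃ k ∈ K, ∀ l ∈ K, Ls l k → Eq' l k := h K hK

/-- dual Cantor-Bernstein -/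
theorem dcsb (h : WFm V) {a b : V} (h1 : Ls a b) (h2 : Ls b a) : Eq' a b := by
  obtain ⟨k, hk, hmin⟩ := h.min (K := upair a b) ⟨a, mem_upair.2 (Or.inl rfl)⟩
  rcases mem_upair.1 hk with rfl | rfl
  · exact Eq'.symm (hmin b (mem_upair.2 (Or.inr rfl)) h2)
  · exact hmin a (mem_upair.2 (Or.inl rfl)) h1

/-- the disjoint sum of two sets -/
noncomputable def dsum (a b : V) : V := un (prod (sing emp) a) (prod (sing (sing emp)) b)

theorem emp_ne_sing : (emp : V) ≠ sing emp := by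
  intro h
  have : (emp : V) ∈ (emp : V) := by
    have h1 : (emp : V) ∈ sing (emp : V) := mem_sing.2 rfl
    rwa [← h] at h1
  exact not_mem_emp _ this

theorem mem_dsum {a b p : V} : p ∈ dsum a b ↔ (∃ x ∈ a, p = op emp x) ∨
    ∃ x ∈ b, p = op (sing emp) x := by
  unfold dsum
  rw [mem_un, mem_prod, mem_prod]
  constructor
  · rintro (⟨i, x, h1, h2, rfl⟩ | ⟨i, x, h1, h2, rfl⟩)
    · rw [mem_sing] at h1; subst h1; exact Or.inl ⟨x, h2, rfl⟩
    · rw [mem_sing] at h1; subst h1; exact Or.inr ⟨x, h2, rfl⟩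
  · rintro (⟨x, h2, rfl⟩ | ⟨x, h2, rfl⟩)
    · exact Or.inl ⟨_, x, mem_sing.2 rfl, h2, rfl⟩
    · exact Or.inr ⟨_, x, mem_sing.2 rfl, h2, rfl⟩

@[fun_prop]
theorem DF.dsum {Γ : Type u} [Ctx V Γ] {f g : Γ → V} (hf : DF f) (hg : DF g) :
    DF (fun a => dsum (f a) (g a)) := by
  unfold Pool.Agent.H83.ZF.dsum; fun_prop

/-- `s` is inductive -/
def Ind (s : V) : Prop := emp ∈ s ∧ ∀ x ∈ s, suc x ∈ s

@[fun_prop]
theorem DF.ind {Γ : Type u} [Ctx V Γ] {f : Γ → V} (hf : DF f) : DF (fun a => Ind (f a)) := by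
  unfold Ind; fun_prop

theorem exists_ind : ∃ w : V, Ind w := by
  obtain ⟨w, ⟨e, he, h1⟩, h2⟩ := (ZFM.zf (V := V)).infinity
  refine ⟨w, ?_, fun x hx => ?_⟩
  · have : e = emp := ext' fun z => iff_of_false (h1 z) (not_mem_emp z)
    rw [← this]; exact he
  · obtain ⟨y, hy, h3⟩ := h2 x hx
    have : y = suc x := ext' fun z => (h3 z).trans mem_suc.symm
    rw [← this]; exact hy

/-- the set of natural numbers -/
noncomputable def om : V := SetOf (fun n => ∀ s : V, Ind s → n ∈ s)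

theorem mem_om {n : V} : n ∈ (om : V) ↔ ∀ s : V, Ind s → n ∈ s := by
  obtain ⟨w, hw⟩ := exists_ind (V := V)
  obtain ⟨b, hb⟩ := exists_sep w (P := fun n => ∀ s : V, Ind s → n ∈ s) (by fun_prop)
  exact mem_setOf_of ⟨b, fun x => (hb x).trans ⟨fun h => h.2, fun h => ⟨h w hw, h⟩⟩⟩ n

theorem emp_mem_om : (emp : V) ∈ (om : V) := mem_om.2 fun _ hs => hs.1

theorem suc_mem_om {n : V} (h : n ∈ (om : V)) : suc n ∈ (om : V) :=
  mem_om.2 fun s hs => hs.2 n (mem_om.1 h s hs)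

theorem om_ind {P : V → Prop} (hP : DF P) (h0 : P emp) (hs : ∀ n ∈ (om : V), P n → P (suc n))
    {n : V} (hn : n ∈ (om : V)) : P n := by
  have h1 : Ind (Sep om P) := by
    refine ⟨(mem_sep hP).2 ⟨emp_mem_om, h0⟩, fun x hx => ?_⟩
    obtain ⟨h2, h3⟩ := (mem_sep hP).1 hx
    exact (mem_sep hP).2 ⟨suc_mem_om h2, hs x h2 h3⟩
  exact ((mem_sep hP).1 (mem_om.1 hn _ h1)).2

theorem od_of_mem_om {n : V} (hn : n ∈ (om : V)) : Od n :=
  om_ind (P := fun n => Od n) (by fun_prop) od_emp (fun _ _ h => Od.suc h) hn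

theorem suc_ne_emp (x : V) : suc x ≠ emp := by
  intro h
  exact not_mem_emp x (h ▸ mem_suc.2 (Or.inr rfl))

/-- predecessor -/
noncomputable def prd (x : V) : V := The (fun y => suc y = x)

@[simp] theorem prd_suc (x : V) : prd (suc x) = x := the_eq rfl fun _ h => suc_inj h

@[fun_prop]
theorem DF.prd {Γ : Type u} [Ctx V Γ] {f : Γ → V} (hf : DF f) : DF (fun a => prd (f a)) := by
  unfold Pool.Agent.H83.ZF.prd; fun_prop

/-- If `W ≤* Z` then `W ≤ ω × Z`. -/
theorem le_om_prod (h : WFm V) {W Z : V} (hWZ : Ls W Z) : Le W (prod om Z) := by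
  rcases ls_iff.1 hWZ with h0 | ⟨F, hF, h1, h2⟩
  · exact le_of_subset fun x hx => absurd hx (h0 x)
  have e1 : Ls (prod om Z) (dsum (prod om Z) W) := by
    refine Le.ls (le_iff.2 ⟨fun x => op emp x, by fun_prop, ?_, ?_⟩)
    · intro x hx; exact mem_dsum.2 (Or.inl ⟨x, hx, rfl⟩)
    · intro x hx y hy e; exact (op_inj.1 e).2
  have e2 : Ls (dsum (prod om Z) W) (prod om Z) := by
    refine ls_iff.2 (Or.inr ⟨fun p => Ite (fs p = emp) (op (sing emp) (F (sn p)))
      (op emp (op (prd (fs p)) (sn p))), by fun_prop, ?_, ?_⟩)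
    · intro p hp
      obtain ⟨n, z, hn, hz, rfl⟩ := mem_prod.1 hp
      dsimp only
      rw [fs_op, sn_op]
      by_cases hn0 : n = emp
      · rw [ite_pos hn0]
        exact mem_dsum.2 (Or.inr ⟨_, h1 z hz, rfl⟩)
      · rw [ite_neg hn0]
        refine mem_dsum.2 (Or.inl ⟨_, op_mem_prod.2 ⟨?_, hz⟩, rfl⟩)
        have : n = emp ∨ (prd n ∈ (om : V) ∧ suc (prd n) = n) := by
          refine om_ind (P := fun n => n = emp ∨ (prd n ∈ (om : V) ∧ suc (prd n) = n))
            (by fun_prop) (Or.inl rfl) ?_ hn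
          intro m hm _
          right
          rw [prd_suc]; exact ⟨hm, rfl⟩
        exact (this.resolve_left hn0).1
    · intro q hq
      rcases mem_dsum.1 hq with ⟨p, hp, rfl⟩ | ⟨w, hw, rfl⟩
      · obtain ⟨n, z, hn, hz, rfl⟩ := mem_prod.1 hp
        refine ⟨op (suc n) z, op_mem_prod.2 ⟨suc_mem_om hn, hz⟩, ?_⟩
        dsimp only
        rw [fs_op, sn_op, ite_neg (suc_ne_emp n), prd_suc]
      · obtain ⟨z, hz, rfl⟩ := h2 w hw
        refine ⟨op emp z, op_mem_prod.2 ⟨emp_mem_om, hz⟩, ?_⟩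
        dsimp only
        rw [fs_op, sn_op, ite_pos rfl]
  have e3 : Le W (dsum (prod om Z) W) := by
    refine le_iff.2 ⟨fun x => op (sing emp) x, by fun_prop, ?_, ?_⟩
    · intro x hx; exact mem_dsum.2 (Or.inr ⟨x, hx, rfl⟩)
    · intro x hx y hy e; exact (op_inj.1 e).2
  exact Le.trans e3 (Eq'.le (dcsb h e2 e1))

/-- choice functions on `a` for the family `A` -/
noncomputable def Chs (A : V → V) (a : V) : V :=
  Sep (pow (prod a (sUn (Img a A)))) (fun f => ∀ i ∈ a, app f i ∈ A i)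

theorem chs_of {A : V → V} (hA : DF A) {a : V} {F : V → V} (hF : DF F) (h : ∀ i ∈ a, F i ∈ A i) :
    lam a F ∈ Chs A a := by
  refine (mem_sep (by fun_prop)).2 ⟨mem_pow.2 ?_, ?_⟩
  · intro p hp
    obtain ⟨x, hx, rfl⟩ := (mem_lam hF).1 hp
    exact op_mem_prod.2 ⟨hx, mem_sUn.2 ⟨A x, (mem_img hA).2 ⟨x, hx, rfl⟩, h x hx⟩⟩
  · intro i hi
    rw [app_lam hF hi]; exact h i hi

theorem mem_chs {A : V → V} (hA : DF A) {a f : V} (h : f ∈ Chs A a) : ∀ i ∈ a, app f i ∈ A i :=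
  ((mem_sep (by fun_prop)).1 h).2

theorem df_chs {A : V → V} (hA : DF A) : DF (fun a => Chs A a) := by
  unfold Chs
  have h : DF (fun p : (V × V) => ∀ i ∈ p.1, app p.2 i ∈ A i) := by fun_prop
  fun_prop

/-- Choice for families indexed by ordinals. -/
theorem acwo (h : WFm V) {A : V → V} (hA : DF A) {a : V} (ha : Od a)
    (hne : ∀ i ∈ a, ∃ x, x ∈ A i) : ∃ c : V, ∀ i ∈ a, app c i ∈ A i := by
  have hChs := df_chs hA
  suffices hs : ∃ f, f ∈ Chs A a by
    obtain ⟨f, hf⟩ := hs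
    exact ⟨f, mem_chs hA hf⟩
  -- induction
  refine ord_ind (P := fun a => (∀ i ∈ a, ∃ x, x ∈ A i) → ∃ f, f ∈ Chs A a) (by fun_prop) ?_ ha hne
  intro a ha ih hne
  have hB : ∀ i ∈ a, ∃ f, f ∈ Chs A i := fun i hi => ih i hi fun j hj => hne j (ha.trans hi hj)
  by_cases hlim : ∃ b ∈ a, ∀ c ∈ a, c ∈ b ∨ c = b
  · -- successor
    obtain ⟨b, hb, hb'⟩ := hlim
    obtain ⟨f, hf⟩ := hB b hb
    obtain ⟨x, hx⟩ := hne b hb
    refine ⟨lam a (fun i => Ite (i = b) x (app f i)), chs_of hA (by fun_prop) ?_⟩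
    intro i hi
    by_cases hib : i = b
    · rw [ite_pos hib, hib]; exact hx
    · rw [ite_neg hib]
      exact mem_chs hA hf i ((hb' i hi).resolve_right hib)
  · -- limit
    push Not at hlim
    have hsuc : ∀ i ∈ a, suc i ∈ a := by
      intro i hi
      obtain ⟨c, hc, h1, h2⟩ := hlim i hi
      have h3 : i ∈ c := by
        rcases ha.tri hi hc with h | h | h
        · exact h
        · exact absurd h.symm h2
        · exact absurd h h1
      have h4 : suc i ∈ c ∨ suc i = c := by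
        rcases (Od.suc (ha.mem hi)).lin (ha.mem hc) with h | h | h
        · exact Or.inl h
        · exact Or.inr h
        · rcases mem_suc.1 h with h | h
          · exact absurd h (not_mem_mem h3)
          · exact absurd h h2
      rcases h4 with h4 | h4
      · exact ha.trans hc h4
      · rw [h4]; exact hc
    -- the family `B i = Chs A i`, and the ordinals `L i`
    let T : V := Sig a (fun i => Chs A i)
    obtain ⟨L, hL, hLe⟩ := recursion (V := V)
      (G := fun f => hart (prod (prod om T) (sUn (Img f (fun p => sn p))))) (by fun_prop)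
    have hLord : ∀ i, Od i → Od (L i) := fun i hi => by rw [hLe i hi]; exact od_hart _
    have hU : ∀ i, Od i → ∀ y, y ∈ sUn (Img (lam i L) (fun p => sn p)) ↔ ∃ j ∈ i, y ∈ L j := by
      intro i hi y
      rw [mem_sUn]
      constructor
      · rintro ⟨z, hz, hy⟩
        obtain ⟨p, hp, rfl⟩ := (mem_img (by fun_prop)).1 hz
        obtain ⟨j, hj, rfl⟩ := (mem_lam hL).1 hp
        rw [sn_op] at hy
        exact ⟨j, hj, hy⟩
      · rintro ⟨j, hj, hy⟩
        exact ⟨L j, (mem_img (by fun_prop)).2 ⟨op j (L j), (mem_lam hL).2 ⟨j, hj, rfl⟩,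
          (sn_op _ _).symm⟩, hy⟩
    -- `T' = Σ_i (B i × L i)` surjects onto `W = Σ_i L i`
    let T' : V := Sig a (fun i => prod (Chs A i) (L i))
    let W : V := Sig a (fun i => L i)
    have hW : Ls W T' := by
      refine ls_iff.2 (Or.inr ⟨fun p => op (fs p) (sn (sn p)), by fun_prop, ?_, ?_⟩)
      · intro p hp
        obtain ⟨i, x, hi, hx, rfl⟩ := (mem_sig (by fun_prop)).1 hp
        obtain ⟨b, y, hb, hy, rfl⟩ := mem_prod.1 hx
        simp only [fs_op, sn_op]
        exact (op_mem_sig (by fun_prop)).2 ⟨hi, hy⟩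
      · intro q hq
        obtain ⟨i, y, hi, hy, rfl⟩ := (mem_sig (by fun_prop)).1 hq
        obtain ⟨b, hb⟩ := hB i hi
        refine ⟨op i (op b y), (op_mem_sig (by fun_prop)).2 ⟨hi, op_mem_prod.2 ⟨hb, hy⟩⟩, ?_⟩
        simp only [fs_op, sn_op]
    obtain ⟨g, hg, g1, g2⟩ := le_iff.1 (le_om_prod h hW)
    -- for each `i ∈ a` some `y ∈ L i` is sent into an index `≥ i`
    have key : ∀ i ∈ a, ∃ y ∈ L i, ¬ fs (sn (g (op i y))) ∈ i := by
      intro i hi
      by_contra hcon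
      push Not at hcon
      have hio := ha.mem hi
      apply not_hart_le (prod (prod om T) (sUn (Img (lam i L) (fun p => sn p))))
      rw [← hLe i hio]
      refine le_iff.2 ⟨fun y => op (op (fs (g (op i y))) (op (fs (sn (g (op i y))))
        (fs (sn (sn (g (op i y))))))) (sn (sn (sn (g (op i y))))), by fun_prop, ?_, ?_⟩
      · intro y hy
        have h3 := hcon y hy
        obtain ⟨n, q, hn, hq, e⟩ := mem_prod.1 (g1 (op i y) ((op_mem_sig (by fun_prop)).2 ⟨hi, hy⟩))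
        obtain ⟨j, x, hj, hx, rfl⟩ := (mem_sig (by fun_prop)).1 hq
        obtain ⟨b, z, hb, hz, rfl⟩ := mem_prod.1 hx
        dsimp only
        rw [e] at h3 ⊢
        simp only [fs_op, sn_op] at h3 ⊢
        refine op_mem_prod.2 ⟨op_mem_prod.2 ⟨hn, (op_mem_sig (by fun_prop)).2 ⟨hj, hb⟩⟩, ?_⟩
        exact (hU i hio z).2 ⟨j, h3, hz⟩
      · intro y hy y' hy' e0
        obtain ⟨n, q, hn, hq, e⟩ := mem_prod.1 (g1 (op i y) ((op_mem_sig (by fun_prop)).2 ⟨hi, hy⟩))
        obtain ⟨j, x, hj, hx, rfl⟩ := (mem_sig (by fun_prop)).1 hq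
        obtain ⟨b, z, hb, hz, rfl⟩ := mem_prod.1 hx
        obtain ⟨n', q', hn', hq', e'⟩ := mem_prod.1
          (g1 (op i y') ((op_mem_sig (by fun_prop)).2 ⟨hi, hy'⟩))
        obtain ⟨j', x', hj', hx', rfl⟩ := (mem_sig (by fun_prop)).1 hq'
        obtain ⟨b', z', hb', hz', rfl⟩ := mem_prod.1 hx'
        dsimp only at e0
        rw [e, e'] at e0
        simp only [fs_op, sn_op] at e0
        obtain ⟨e1, e2⟩ := op_inj.1 e0
        obtain ⟨e3, e4⟩ := op_inj.1 e1
        obtain ⟨e5, e6⟩ := op_inj.1 e4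
        have e7 : g (op i y) = g (op i y') := by rw [e, e', e3, e5, e6, e2]
        exact (op_inj.1 (g2 _ ((op_mem_sig (by fun_prop)).2 ⟨hi, hy⟩) _
          ((op_mem_sig (by fun_prop)).2 ⟨hi, hy'⟩) e7)).2
    -- the partial choice function at `i`
    let Y : V → V := fun i => lst (Sep (L i) (fun y => ¬ fs (sn (g (op i y))) ∈ i))
    have hY : DF Y := by simp only [Y]; fun_prop
    have hYs : ∀ i ∈ a, Y i ∈ L i ∧ ¬ fs (sn (g (op i (Y i)))) ∈ i := by
      intro i hi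
      obtain ⟨y, hy, h3⟩ := key i hi
      have := (lst_spec (s := Sep (L i) (fun y => ¬ fs (sn (g (op i y))) ∈ i))
        (fun z hz => (hLord i (ha.mem hi)).mem ((mem_sep (by fun_prop)).1 hz).1)
        ⟨y, (mem_sep (by fun_prop)).2 ⟨hy, h3⟩⟩).1
      exact (mem_sep (P := fun y => ¬ fs (sn (g (op i y))) ∈ i) (by fun_prop)).1 this
    let c : V → V := fun i => app (fs (sn (sn (g (op (suc i) (Y (suc i))))))) i
    have hc : DF c := by simp only [c]; fun_prop
    refine ⟨lam a c, chs_of hA hc ?_⟩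
    intro i hi
    have hi' := hsuc i hi
    obtain ⟨h3, h4⟩ := hYs (suc i) hi'
    obtain ⟨n, q, hn, hq, e⟩ := mem_prod.1 (g1 (op (suc i) (Y (suc i)))
      ((op_mem_sig (by fun_prop)).2 ⟨hi', h3⟩))
    obtain ⟨j, x, hj, hx, rfl⟩ := (mem_sig (by fun_prop)).1 hq
    obtain ⟨b, z, hb, hz, rfl⟩ := mem_prod.1 hx
    show app (fs (sn (sn (g (op (suc i) (Y (suc i))))))) i ∈ A i
    rw [e] at h4 ⊢
    simp only [fs_op, sn_op] at h4 ⊢
    apply mem_chs hA hb
    rcases (ha.mem hj).lin (ha.mem hi') with h5 | h5 | h5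
    · exact absurd h5 h4
    · rw [h5]; exact mem_suc.2 (Or.inr rfl)
    · exact (ha.mem hj).trans h5 (mem_suc.2 (Or.inr rfl))

end

end Pool.Agent.H83.ZF
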