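import Pool.Agent.H83.ZF.Basis

/-! Infinite well-orderable sets absorb countable sums; surjections onto well-orderable sets. -/

set_option autoImplicit false

open Set

namespace Pool.Agent.H83.ZF

universe u v

section

variable {V : Type u} [ZFM V]

/-- If `X + X ≤ X` then `ω × X ≤ X`. -/
theorem om_prod_le {X : V} (h : Le (dsum X X) X) : Le (prod om X) X := by
  obtain ⟨g, hg, g1, g2⟩ := le_iff.1 h
  -- `R n x`: apply the right half `n` times to the left half of `x`
  obtain ⟨F, hF, hFe⟩ := recursion (V := V)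
    (G := fun f => Ite (Img f (fun p => fs p) = emp) (lam X (fun x => g (op emp x)))
      (lam X (fun x => g (op (sing emp) (app (app f (prd (Img f (fun p => fs p)))) x)))))
    (by fun_prop)
  have hdom : ∀ n : V, Img (lam n F) (fun p => fs p) = n := by
    intro n
    apply ext'
    intro z
    rw [mem_img (by fun_prop)]
    constructor
    · rintro ⟨p, hp, rfl⟩
      obtain ⟨x, hx, rfl⟩ := (mem_lam hF).1 hp
      rwa [fs_op]
    · intro hz
      exact ⟨op z (F z), (mem_lam hF).2 ⟨z, hz, rfl⟩, (fs_op _ _).symm⟩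
  have h0 : ∀ x ∈ X, app (F emp) x = g (op emp x) := by
    intro x hx
    rw [hFe emp od_emp, hdom, ite_pos rfl, app_lam (by fun_prop) hx]
  have hs : ∀ n ∈ (om : V), ∀ x ∈ X, app (F (suc n)) x = g (op (sing emp) (app (F n) x)) := by
    intro n hn x hx
    rw [hFe (suc n) (Od.suc (od_of_mem_om hn)), hdom, ite_neg (suc_ne_emp n), prd_suc,
      app_lam (by fun_prop) hx, app_lam hF (mem_suc.2 (Or.inr rfl))]
  have hl : ∀ x ∈ X, op emp x ∈ dsum X X := fun x hx => mem_dsum.2 (Or.inl ⟨x, hx, rfl⟩)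
  have hr : ∀ x ∈ X, op (sing emp) x ∈ dsum X X := fun x hx => mem_dsum.2 (Or.inr ⟨x, hx, rfl⟩)
  have hmem : ∀ n ∈ (om : V), ∀ x ∈ X, app (F n) x ∈ X := by
    intro n hn
    refine om_ind (P := fun n => ∀ x ∈ X, app (F n) x ∈ X) (by fun_prop) ?_ ?_ hn
    · intro x hx; rw [h0 x hx]; exact g1 _ (hl x hx)
    · intro n hn ih x hx
      rw [hs n hn x hx]; exact g1 _ (hr _ (ih x hx))
  have hinj : ∀ n ∈ (om : V), ∀ m ∈ (om : V), ∀ x ∈ X, ∀ y ∈ X, app (F n) x = app (F m) y →
      n = m ∧ x = y := by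
    intro n hn
    refine om_ind (P := fun n => ∀ m ∈ (om : V), ∀ x ∈ X, ∀ y ∈ X, app (F n) x = app (F m) y →
      n = m ∧ x = y) (by fun_prop) ?_ ?_ hn
    · intro m hm x hx y hy e
      rcases om_cases hm with rfl | ⟨k, hk, rfl⟩
      · rw [h0 x hx, h0 y hy] at e
        exact ⟨rfl, (op_inj.1 (g2 _ (hl x hx) _ (hl y hy) e)).2⟩
      · rw [h0 x hx, hs k hk y hy] at e
        exact absurd (op_inj.1 (g2 _ (hl x hx) _ (hr _ (hmem k hk y hy)) e)).1 emp_ne_sing
    · intro n hn ih m hm x hx y hy e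
      rcases om_cases hm with rfl | ⟨k, hk, rfl⟩
      · rw [h0 y hy, hs n hn x hx] at e
        exact absurd (op_inj.1 (g2 _ (hr _ (hmem n hn x hx)) _ (hl y hy) e)).1.symm emp_ne_sing
      · rw [hs n hn x hx, hs k hk y hy] at e
        obtain ⟨e1, e2⟩ := ih k hk x hx y hy
          (op_inj.1 (g2 _ (hr _ (hmem n hn x hx)) _ (hr _ (hmem k hk y hy)) e)).2
        exact ⟨by rw [e1], e2⟩
  refine le_iff.2 ⟨fun p => app (F (fs p)) (sn p), by fun_prop, ?_, ?_⟩
  · intro p hp
    obtain ⟨n, x, hn, hx, rfl⟩ := mem_prod.1 hp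
    simp only [fs_op, sn_op]
    exact hmem n hn x hx
  · intro p hp q hq e
    obtain ⟨n, x, hn, hx, rfl⟩ := mem_prod.1 hp
    obtain ⟨m, y, hm, hy, rfl⟩ := mem_prod.1 hq
    simp only [fs_op, sn_op] at e
    obtain ⟨e1, e2⟩ := hinj n hn m hm x hx y hy e
    rw [e1, e2]

/-- limit or zero -/
def Lim (a : V) : Prop := ¬ ∃ b, a = suc b

@[fun_prop]
theorem DF.lim {Γ : Type u} [Ctx V Γ] {f : Γ → V} (hf : DF f) : DF (fun a => Lim (f a)) := by
  unfold Pool.Agent.H83.ZF.Lim; fun_prop

theorem od_of_suc {b : V} (h : Od (suc b)) : Od b := h.mem (mem_suc.2 (Or.inr rfl))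

/-- A limit ordinal is the sum of two copies of itself, up to injections. -/
theorem dsum_le_of_lim {a : V} (ha : Od a) (hlim : ∀ i ∈ a, suc i ∈ a) : Le (dsum a a) a := by
  -- doubling
  obtain ⟨D, hD, hDe⟩ := recursion (V := V)
    (G := fun f => Ite (Lim (Img f (fun p => fs p))) (Img f (fun p => fs p))
      (suc (suc (app f (prd (Img f (fun p => fs p))))))) (by fun_prop)
  have hdom : ∀ n : V, Img (lam n D) (fun p => fs p) = n := by
    intro n
    apply ext'
    intro z
    rw [mem_img (by fun_prop)]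
    constructor
    · rintro ⟨p, hp, rfl⟩
      obtain ⟨x, hx, rfl⟩ := (mem_lam hD).1 hp
      rwa [fs_op]
    · intro hz
      exact ⟨op z (D z), (mem_lam hD).2 ⟨z, hz, rfl⟩, (fs_op _ _).symm⟩
  have hDl : ∀ b, Od b → Lim b → D b = b := by
    intro b hb hl
    have := hDe b hb
    rw [hdom] at this
    rw [this, ite_pos hl]
  have hDs : ∀ b, Od b → D (suc b) = suc (suc (D b)) := by
    intro b hb
    have := hDe (suc b) (Od.suc hb)
    rw [hdom] at this
    rw [this, ite_neg (fun h => h ⟨b, rfl⟩), prd_suc, app_lam hD (mem_suc.2 (Or.inr rfl))]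
  -- `D b` is in every limit above `b`, and `D` is strictly increasing; parity
  obtain ⟨Q, hQ, hQe⟩ := recursion (V := V)
    (G := fun f => Ite (Lim (Img f (fun p => fs p))) emp
      (Ite (app f (prd (Img f (fun p => fs p))) = emp) (sing emp) emp)) (by fun_prop)
  have hdomQ : ∀ n : V, Img (lam n Q) (fun p => fs p) = n := by
    intro n
    apply ext'
    intro z
    rw [mem_img (by fun_prop)]
    constructor
    · rintro ⟨p, hp, rfl⟩
      obtain ⟨x, hx, rfl⟩ := (mem_lam hQ).1 hp
      rwa [fs_op]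
    · intro hz
      exact ⟨op z (Q z), (mem_lam hQ).2 ⟨z, hz, rfl⟩, (fs_op _ _).symm⟩
  have hQl : ∀ b, Od b → Lim b → Q b = emp := by
    intro b hb hl
    have := hQe b hb
    rw [hdomQ] at this
    rw [this, ite_pos hl]
  have hQs0 : ∀ b, Od b → Q b = emp → Q (suc b) = sing emp := by
    intro b hb h0
    have := hQe (suc b) (Od.suc hb)
    rw [hdomQ] at this
    rw [this, ite_neg (fun h => h ⟨b, rfl⟩), prd_suc, app_lam hQ (mem_suc.2 (Or.inr rfl)),
      ite_pos h0]
  have hQs1 : ∀ b, Od b → Q b ≠ emp → Q (suc b) = emp := by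
    intro b hb h0
    have := hQe (suc b) (Od.suc hb)
    rw [hdomQ] at this
    rw [this, ite_neg (fun h => h ⟨b, rfl⟩), prd_suc, app_lam hQ (mem_suc.2 (Or.inr rfl)),
      ite_neg h0]
  -- properties of D by induction
  have hD1 : ∀ b, Od b → Od (D b) ∧ Q (D b) = emp ∧ ∀ c ∈ b, suc (D c) ∈ D b := by
    intro b hb
    refine ord_ind (P := fun b => Od (D b) ∧ Q (D b) = emp ∧ ∀ c ∈ b, suc (D c) ∈ D b)
      (by fun_prop) ?_ hb
    intro b hb ih
    by_cases hl : Lim b
    · rw [hDl b hb hl]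
      refine ⟨hb, hQl b hb hl, fun c hc => ?_⟩
      -- `b` limit: closed under suc; need `D c ∈ b` for `c ∈ b`
      have hsucb : ∀ d ∈ b, suc d ∈ b := by
        intro d hd
        rcases (Od.suc (hb.mem hd)).lin hb with h | h | h
        · exact h
        · exact absurd ⟨d, h.symm⟩ hl
        · rcases mem_suc.1 h with h | h
          · exact absurd hd (not_mem_mem h)
          · exact absurd (h ▸ hd) (not_mem_self _)
      have hDb : ∀ d, Od d → d ∈ b → D d ∈ b := by
        intro d hd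
        refine ord_ind (P := fun d => d ∈ b → D d ∈ b) (by fun_prop) ?_ hd
        intro d hd ih2 hdb
        by_cases hld : Lim d
        · rw [hDl d hd hld]; exact hdb
        · unfold Lim at hld
          push Not at hld
          obtain ⟨e, rfl⟩ := hld
          have he := od_of_suc hd
          rw [hDs e he]
          exact hsucb _ (hsucb _ (ih2 e (mem_suc.2 (Or.inr rfl))
            (hb.trans hdb (mem_suc.2 (Or.inr rfl)))))
      exact hsucb _ (hDb c (hb.mem hc) hc)
    · unfold Lim at hl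
      push Not at hl
      obtain ⟨e, rfl⟩ := hl
      have he := od_of_suc hb
      obtain ⟨i1, i2, i3⟩ := ih e (mem_suc.2 (Or.inr rfl))
      rw [hDs e he]
      refine ⟨Od.suc (Od.suc i1), hQs1 _ (Od.suc i1) ?_, fun c hc => ?_⟩
      · rw [hQs0 _ i1 i2]; exact emp_ne_sing.symm
      · rcases mem_suc.1 hc with h | rfl
        · exact mem_suc.2 (Or.inl (mem_suc.2 (Or.inl (i3 c h))))
        · exact mem_suc.2 (Or.inr rfl)
  have hDa : ∀ d, Od d → d ∈ a → D d ∈ a := by
    intro d hd
    refine ord_ind (P := fun d => d ∈ a → D d ∈ a) (by fun_prop) ?_ hd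
    intro d hd ih2 hdb
    by_cases hld : Lim d
    · rw [hDl d hd hld]; exact hdb
    · unfold Lim at hld
      push Not at hld
      obtain ⟨e, rfl⟩ := hld
      have he := od_of_suc hd
      rw [hDs e he]
      exact hlim _ (hlim _ (ih2 e (mem_suc.2 (Or.inr rfl))
        (ha.trans hdb (mem_suc.2 (Or.inr rfl)))))
  have hDinj : ∀ x ∈ a, ∀ y ∈ a, D x = D y → x = y := by
    intro x hx y hy e
    rcases ha.tri hx hy with h | h | h
    · have h1 := (hD1 y (ha.mem hy)).2.2 x h
      rw [← e] at h1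
      exact absurd (mem_suc.2 (Or.inr rfl)) (not_mem_mem h1)
    · exact h
    · have h1 := (hD1 x (ha.mem hx)).2.2 y h
      rw [e] at h1
      exact absurd (mem_suc.2 (Or.inr rfl)) (not_mem_mem h1)
  refine le_iff.2 ⟨fun p => Ite (fs p = emp) (D (sn p)) (suc (D (sn p))), by fun_prop, ?_, ?_⟩
  · intro p hp
    rcases mem_dsum.1 hp with ⟨x, hx, rfl⟩ | ⟨x, hx, rfl⟩
    · dsimp only
      rw [fs_op, sn_op, ite_pos rfl]
      exact hDa x (ha.mem hx) hx
    · dsimp only
      rw [fs_op, sn_op, ite_neg emp_ne_sing.symm]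
      exact hlim _ (hDa x (ha.mem hx) hx)
  · have hpar : ∀ x ∈ a, ∀ y ∈ a, D x ≠ suc (D y) := by
      intro x hx y hy e
      have h1 := (hD1 x (ha.mem hx)).2.1
      have h2 := hQs0 _ (hD1 y (ha.mem hy)).1 (hD1 y (ha.mem hy)).2.1
      rw [← e, h1] at h2
      exact emp_ne_sing h2
    intro p hp q hq e
    rcases mem_dsum.1 hp with ⟨x, hx, rfl⟩ | ⟨x, hx, rfl⟩
    · rcases mem_dsum.1 hq with ⟨y, hy, rfl⟩ | ⟨y, hy, rfl⟩
      · dsimp only at e
        rw [fs_op, sn_op, ite_pos rfl, fs_op, sn_op, ite_pos rfl] at e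
        rw [hDinj x hx y hy e]
      · dsimp only at e
        rw [fs_op, sn_op, ite_pos rfl, fs_op, sn_op, ite_neg emp_ne_sing.symm] at e
        exact absurd e (hpar x hx y hy)
    · rcases mem_dsum.1 hq with ⟨y, hy, rfl⟩ | ⟨y, hy, rfl⟩
      · dsimp only at e
        rw [fs_op, sn_op, ite_neg emp_ne_sing.symm, fs_op, sn_op, ite_pos rfl] at e
        exact absurd e.symm (hpar y hy x hx)
      · dsimp only at e
        rw [fs_op, sn_op, ite_neg emp_ne_sing.symm, fs_op, sn_op, ite_neg emp_ne_sing.symm] at e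
        rw [hDinj x hx y hy (suc_inj e)]

/-- A non-well-orderable set contains a copy of `ω`. -/
theorem om_le (h : WFm V) {X : V} (hX : ¬ WO X) : Le om X := by
  have hinj : ∀ n ∈ (om : V), Le n X := by
    intro n hn
    refine om_ind (P := fun n => Le n X) (by fun_prop) ?_ ?_ hn
    · exact le_of_subset fun x hx => absurd hx (not_mem_emp x)
    · intro n hn ih
      obtain ⟨F, hF, F1, F2⟩ := le_iff.1 ih
      have hex : ∃ y ∈ X, ∀ x ∈ n, F x ≠ y := by
        by_contra hcon
        push Not at hcon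
        apply hX
        exact wo_of_ls (ls_iff.2 (Or.inr ⟨F, hF, F1, fun y hy => hcon y hy⟩))
          (wo_of_od (od_of_mem_om hn))
      obtain ⟨y₀, hy₀, hy1⟩ := hex
      have hne : ∀ x ∈ n, x ≠ n := fun x hx e => not_mem_self n (e ▸ hx)
      refine le_iff.2 ⟨fun x => Ite (x = n) y₀ (F x), by fun_prop, ?_, ?_⟩
      · intro x hx
        dsimp only
        rcases mem_suc.1 hx with h1 | h1
        · rw [ite_neg (hne x h1)]; exact F1 x h1
        · rw [ite_pos h1]; exact hy₀
      · intro x hx y hy e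
        dsimp only at e
        rcases mem_suc.1 hx with h1 | h1
        · rcases mem_suc.1 hy with h2 | h2
          · rw [ite_neg (hne x h1), ite_neg (hne y h2)] at e
            exact F2 x h1 y h2 e
          · rw [ite_neg (hne x h1), ite_pos h2] at e
            exact absurd e (hy1 x h1)
        · rcases mem_suc.1 hy with h2 | h2
          · rw [ite_pos h1, ite_neg (hne y h2)] at e
            exact absurd e.symm (hy1 y h2)
          · rw [h1, h2]
  obtain ⟨c, hc⟩ := acwo h (A := fun n => Inj n X) (by fun_prop) od_om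
    (fun n hn => inj_nonempty.2 (hinj n hn))
  let A : V → V := fun n => Img n (fun x => app (app c n) x)
  have hA : DF A := by simp only [A]; fun_prop
  have hAW : ∀ n ∈ (om : V), WO (A n) := fun n hn =>
    wo_of_ls (ls_iff.2 (Or.inr ⟨fun x => app (app c n) x, by fun_prop,
      fun x hx => (mem_img (by fun_prop)).2 ⟨x, hx, rfl⟩, fun y hy => by
        obtain ⟨x, hx, rfl⟩ := (mem_img (by fun_prop)).1 hy
        exact ⟨x, hx, rfl⟩⟩)) (wo_of_od (od_of_mem_om hn))
  have mU : ∀ y, y ∈ sUn (Img om A) ↔ ∃ n ∈ (om : V), y ∈ A n := by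
    intro y
    rw [mem_sUn]
    constructor
    · rintro ⟨z, hz, hy⟩
      obtain ⟨n, hn, rfl⟩ := (mem_img hA).1 hz
      exact ⟨n, hn, hy⟩
    · rintro ⟨n, hn, hy⟩
      exact ⟨A n, (mem_img hA).2 ⟨n, hn, rfl⟩, hy⟩
  have hUW : WO (sUn (Img om A)) := wo_union h od_om hA hAW fun y hy => (mU y).1 hy
  have hUX : Le (sUn (Img om A)) X := by
    refine le_of_subset fun y hy => ?_
    obtain ⟨n, hn, hy⟩ := (mU y).1 hy
    obtain ⟨x, hx, rfl⟩ := (mem_img (by fun_prop)).1 hy
    exact isFun_mem (mem_inj.1 (hc n hn)).1 hx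
  obtain ⟨a, ha, e⟩ := WO.elim hUW
  -- `a` is not a natural number
  have hna : ¬ a ∈ (om : V) := by
    intro ham
    apply not_suc_le ham
    have hsm := suc_mem_om ham
    have h1 := mem_inj.1 (hc _ hsm)
    refine Le.trans (le_iff.2 ⟨fun x => app (app c (suc a)) x, by fun_prop, fun x hx =>
      (mU _).2 ⟨suc a, hsm, (mem_img (by fun_prop)).2 ⟨x, hx, rfl⟩⟩, ?_⟩) (Eq'.le e)
    exact (isInj_iff h1.1).1 h1.2
  have hle : Le om a := by
    rcases ha.lin od_om with h1 | h1 | h1
    · exact absurd h1 hna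
    · rw [← h1]; exact Le.refl _
    · exact le_of_subset fun x hx => ha.trans h1 hx
  exact Le.trans hle (Le.trans (Eq'.le (Eq'.symm e)) hUX)

end

end Pool.Agent.H83.ZF
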