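import Mathlib

/-! Models of ZF and definability with parameters. -/

set_option autoImplicit false

open FirstOrder Set

namespace Pool.Agent.H83.ZF

universe u v

/-- Relation symbols of the language of set theory: one binary symbol. -/
inductive RelSym : ℕ → Type
  | mem : RelSym 2

/-- The first-order language of set theory. -/
def LS : FirstOrder.Language.{0, 0} := ⟨fun _ => Empty, RelSym⟩

/-- The structure for the language of set theory given by a binary relation `E`. -/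
@[instance_reducible] def str {V : Type u} (E : V → V → Prop) : LS.Structure V where
  funMap := fun {_} f => nomatch f
  RelMap := fun {_} r x => match r, x with | .mem, x => E (x 0) (x 1)

/-- `R` is definable (with parameters) in the structure `(V, E)`. -/
def Def2 {V : Type u} (E : V → V → Prop) (R : V → V → Prop) : Prop :=
  @Set.Definable₂ V Set.univ LS (str E) {p | R p.1 p.2}

/-- `(V, E)` is a model of Zermelo-Fraenkel set theory `ZF` (no choice).  Replacement is the
first-order schema: it is assumed for the relations definable with parameters. -/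
structure IsZF {V : Type u} (E : V → V → Prop) : Prop where
  ext : ∀ x y, (∀ z, E z x ↔ E z y) → x = y
  found : ∀ x, (∃ y, E y x) → ∃ y, E y x ∧ ∀ z, E z x → ¬ E z y
  pair : ∀ x y, ∃ z, ∀ w, E w z ↔ w = x ∨ w = y
  union : ∀ x, ∃ u, ∀ z, E z u ↔ ∃ y, E y x ∧ E z y
  power : ∀ x, ∃ p, ∀ z, E z p ↔ ∀ w, E w z → E w x
  infinity : ∃ w, (∃ e, E e w ∧ ∀ z, ¬ E z e) ∧
    ∀ x, E x w → ∃ y, E y w ∧ ∀ z, E z y ↔ E z x ∨ z = x
  replacement : ∀ R : V → V → Prop, Def2 E R → ∀ a,
    (∀ x, E x a → ∀ y z, R x y → R x z → y = z) → ∃ b, ∀ y, E y b ↔ ∃ x, E x a ∧ R x y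

/-- The class form of `IsZF`, used for the development inside a model. -/
class ZFM (V : Type u) where
  E : V → V → Prop
  zf : IsZF E

instance instStr (V : Type u) [ZFM V] : LS.Structure V := str (ZFM.E (V := V))

instance instMem (V : Type u) [ZFM V] : Membership V V := ⟨fun y x => ZFM.E x y⟩

/-- Definable sets of tuples. -/
abbrev Dn {V : Type u} [ZFM V] {I : Type} (S : Set (I → V)) : Prop :=
  Set.Definable (Set.univ : Set V) LS S

theorem dn_subst {V : Type u} [ZFM V] {I J K : Type} [Finite J] {S : Set ((J ⊕ K) → V)}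
    (hS : Dn S) (F : (I → V) → (J → V))
    (hF : ∀ j, Dn {x : I ⊕ Unit → V | x (Sum.inr ()) = F (x ∘ Sum.inl) j}) :
    Dn {x : (I ⊕ K) → V | Sum.elim (F (x ∘ Sum.inl)) (x ∘ Sum.inr) ∈ S} := by
  have h1 : Dn {z : ((I ⊕ K) ⊕ J) → V | (∀ j, z (Sum.inr j) = F (z ∘ Sum.inl ∘ Sum.inl) j) ∧
      Sum.elim (z ∘ Sum.inr) (z ∘ Sum.inl ∘ Sum.inr) ∈ S} := by
    have e1 : {z : ((I ⊕ K) ⊕ J) → V | (∀ j, z (Sum.inr j) = F (z ∘ Sum.inl ∘ Sum.inl) j) ∧
        Sum.elim (z ∘ Sum.inr) (z ∘ Sum.inl ∘ Sum.inr) ∈ S} =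
        (⋂ j, (fun g : ((I ⊕ K) ⊕ J) → V =>
          g ∘ (Sum.elim (fun i => Sum.inl (Sum.inl i)) (fun _ => Sum.inr j) :
            I ⊕ Unit → (I ⊕ K) ⊕ J)) ⁻¹'
          {x : I ⊕ Unit → V | x (Sum.inr ()) = F (x ∘ Sum.inl) j}) ∩
        (fun g : ((I ⊕ K) ⊕ J) → V => g ∘ (Sum.elim Sum.inr (fun k => Sum.inl (Sum.inr k)) :
          J ⊕ K → (I ⊕ K) ⊕ J)) ⁻¹' S := by
      ext z
      simp only [mem_inter_iff, mem_iInter, mem_preimage]
      refine and_congr (forall_congr' fun j => Iff.rfl) ?_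
      have e2 : z ∘ (Sum.elim Sum.inr (fun k => Sum.inl (Sum.inr k)) : J ⊕ K → (I ⊕ K) ⊕ J) =
          Sum.elim (z ∘ Sum.inr) (z ∘ Sum.inl ∘ Sum.inr) := by
        funext x; rcases x with x | x <;> rfl
      rw [e2]
    rw [e1]
    exact (Set.definable_iInter_of_finite fun j => (hF j).preimage_comp _).inter
      (hS.preimage_comp _)
  have h2 := h1.exists_of_finite
  refine (congr rfl (Set.ext fun x => ?_)).mp h2
  constructor
  · rintro ⟨y, h3, h4⟩
    have : y = F (x ∘ Sum.inl) := funext fun j => h3 j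
    subst this
    exact h4
  · intro h
    exact ⟨F (x ∘ Sum.inl), fun j => rfl, h⟩

/-- Finite products of copies of `V`. -/
class Ctx (V : outParam (Type u)) (Γ : Type u) where
  I : Type
  fin : Finite I
  e : Γ ≃ (I → V)

instance instCtxV (V : Type u) [ZFM V] : Ctx V V where
  I := Unit
  fin := inferInstance
  e := (Equiv.funUnique Unit V).symm

instance instCtxProd (V : Type u) (Γ Δ : Type u) [g : Ctx V Γ] [d : Ctx V Δ] : Ctx V (Γ × Δ) where
  I := g.I ⊕ d.I
  fin := by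
    have := g.fin
    have := d.fin
    exact (inferInstance : Finite (g.I ⊕ d.I))
  e := (g.e.prodCongr d.e).trans (Equiv.sumArrowEquivProdArrow g.I d.I V).symm

/-- Codomains of definable functions. -/
class Cod (V : Type u) [ZFM V] (β : Type v) where
  ok : ∀ (I : Type), ((I → V) → β) → Prop
  sub : ∀ (I J : Type) [Finite J] (F : (I → V) → (J → V)),
    (∀ j, Dn {x : I ⊕ Unit → V | x (Sum.inr ()) = F (x ∘ Sum.inl) j}) →
    ∀ g : (J → V) → β, ok J g → ok I (fun x => g (F x))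

instance instCodProp (V : Type u) [ZFM V] : Cod V Prop where
  ok := fun I P => Dn {x : I → V | P x}
  sub := by
    intro I J _ F hF P hP
    have hS : Dn ((fun g : J ⊕ Empty → V => g ∘ Sum.inl) ⁻¹' {x : J → V | P x}) :=
      hP.preimage_comp _
    have h := dn_subst hS F hF
    have h2 := h.preimage_comp (Sum.elim id Empty.elim : I ⊕ Empty → I)
    refine (congr rfl (Set.ext fun x => ?_)).mp h2
    rfl

instance instCodCtx (V : Type u) [ZFM V] (Δ : Type u) [Ctx V Δ] : Cod V Δ where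
  ok := fun I F => ∀ j : Ctx.I Δ, Dn {x : I ⊕ Unit → V | x (Sum.inr ()) = Ctx.e (F (x ∘ Sum.inl)) j}
  sub := by
    intro I J _ F hF g hg j
    have h := dn_subst (hg j) F hF
    refine (congr rfl (Set.ext fun x => ?_)).mp h
    rfl

/-- Definable (with parameters) functions and predicates. -/
@[fun_prop]
def DF {V : Type u} [ZFM V] {Γ : Type u} {β : Type v} [Ctx V Γ] [Cod V β] (f : Γ → β) : Prop :=
  Cod.ok (V := V) (Ctx.I Γ) (fun x => f (Ctx.e.symm x))

section

variable {V : Type u} [ZFM V] {Γ Δ Θ : Type u} [Ctx V Γ] [Ctx V Δ] [Ctx V Θ]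

theorem dfProp_iff {P : Γ → Prop} :
    DF P ↔ Dn {x : Ctx.I Γ → V | P (Ctx.e.symm x)} := Iff.rfl

theorem df_iff {f : Γ → Δ} :
    DF f ↔ ∀ j : Ctx.I Δ, Dn {x : Ctx.I Γ ⊕ Unit → V |
      x (Sum.inr ()) = Ctx.e (f (Ctx.e.symm (x ∘ Sum.inl))) j} := Iff.rfl

/-- Composition of definable functions. -/
@[fun_prop]
theorem DF.comp {β : Type v} [Cod V β] {g : Δ → β} (hg : DF g) {f : Γ → Δ} (hf : DF f) :
    DF (fun a => g (f a)) := by
  have := (Ctx.fin (V := V) (Γ := Δ))
  have h := Cod.sub (V := V) (Ctx.I Γ) (Ctx.I Δ) (fun x => Ctx.e (f (Ctx.e.symm x))) hf _ hg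
  simp only [Equiv.symm_apply_apply] at h
  exact h

theorem dn_eq_var {I : Type} (i j : I) : Dn {x : I → V | x i = x j} :=
  ⟨(FirstOrder.Language.Term.var i).equal (FirstOrder.Language.Term.var j), by ext x; simp⟩

theorem dn_eq_const {I : Type} (i : I) (c : V) : Dn {x : I → V | x i = c} :=
  ⟨(FirstOrder.Language.Term.var i).equal (LS.con (⟨c, mem_univ c⟩ : (Set.univ : Set V))).term, by
    ext x; simp⟩

theorem dn_mem_var {I : Type} (i j : I) : Dn {x : I → V | x i ∈ x j} :=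
  ⟨((LS.lhomWithConstants (Set.univ : Set V)).onRelation RelSym.mem :
      (LS[[(Set.univ : Set V)]]).Relations 2).formula₂ (FirstOrder.Language.Term.var i)
      (FirstOrder.Language.Term.var j), by
    ext x
    simp [FirstOrder.Language.Formula.realize_rel₂]
    rfl⟩

@[fun_prop]
theorem DF.id : DF (fun a : Γ => a) := by
  rw [df_iff]
  intro j
  refine (congr rfl (Set.ext fun x => ?_)).mp (dn_eq_var (Sum.inr ()) (Sum.inl j))
  simp

@[fun_prop]
theorem DF.const (c : Δ) : DF (fun _ : Γ => c) := by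
  rw [df_iff]
  intro j
  exact dn_eq_const _ _

@[fun_prop]
theorem DF.constProp (p : Prop) : DF (fun _ : Γ => p) := by
  rw [dfProp_iff]
  by_cases hp : p
  · simp only [hp]; exact definable_univ
  · simp only [hp]; exact definable_empty

@[fun_prop]
theorem DF.prodMk {f : Γ → Δ} {g : Γ → Θ} (hf : DF f) (hg : DF g) : DF (fun a => (f a, g a)) := by
  rw [df_iff] at *
  rintro (j | j)
  · exact hf j
  · exact hg j

@[fun_prop]
theorem DF.fst' : DF (fun a : Γ × Δ => a.1) := by
  rw [df_iff]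
  intro j
  refine (congr rfl (Set.ext fun x => ?_)).mp (dn_eq_var (Sum.inr ()) (Sum.inl (Sum.inl j)))
  simp [Ctx.e]
  rfl

@[fun_prop]
theorem DF.snd' : DF (fun a : Γ × Δ => a.2) := by
  rw [df_iff]
  intro j
  refine (congr rfl (Set.ext fun x => ?_)).mp (dn_eq_var (Sum.inr ()) (Sum.inl (Sum.inr j)))
  simp [Ctx.e]
  rfl

theorem DF.congrP {P Q : Γ → Prop} (hP : DF P) (h : ∀ a, P a ↔ Q a) : DF Q := by
  have : P = Q := funext fun a => propext (h a)
  rwa [← this]

@[fun_prop]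
theorem DF.and {P Q : Γ → Prop} (hP : DF P) (hQ : DF Q) : DF (fun a => P a ∧ Q a) :=
  Set.Definable.inter (dfProp_iff.1 hP) (dfProp_iff.1 hQ)

@[fun_prop]
theorem DF.or {P Q : Γ → Prop} (hP : DF P) (hQ : DF Q) : DF (fun a => P a ∨ Q a) :=
  Set.Definable.union (dfProp_iff.1 hP) (dfProp_iff.1 hQ)

@[fun_prop]
theorem DF.not {P : Γ → Prop} (hP : DF P) : DF (fun a => ¬ P a) :=
  Set.Definable.compl (dfProp_iff.1 hP)

@[fun_prop]
theorem DF.imp {P Q : Γ → Prop} (hP : DF P) (hQ : DF Q) : DF (fun a => P a → Q a) :=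
  (hP.not.or hQ).congrP fun a => by tauto

@[fun_prop]
theorem DF.iff {P Q : Γ → Prop} (hP : DF P) (hQ : DF Q) : DF (fun a => P a ↔ Q a) :=
  ((hP.imp hQ).and (hQ.imp hP)).congrP fun a => by tauto

@[fun_prop]
theorem DF.ex {P : Γ → V → Prop} (hP : DF (fun p : Γ × V => P p.1 p.2)) :
    DF (fun a => ∃ x, P a x) := by
  rw [dfProp_iff] at *
  have h := Set.Definable.exists_of_finite (α := Ctx.I Γ) (β := Unit) hP
  refine (congr rfl (Set.ext fun x => ?_)).mp h
  simp only [mem_ofPred_eq]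
  constructor
  · rintro ⟨u, hu⟩
    exact ⟨u (), hu⟩
  · rintro ⟨y, hy⟩
    exact ⟨fun _ => y, hy⟩

@[fun_prop]
theorem DF.all {P : Γ → V → Prop} (hP : DF (fun p : Γ × V => P p.1 p.2)) :
    DF (fun a => ∀ x, P a x) :=
  (DF.ex (P := fun a x => ¬ P a x) hP.not).not.congrP fun a => by push Not; rfl

theorem DF.eqV {f g : Γ → V} (hf : DF f) (hg : DF g) : DF (fun a => f a = g a) := by
  have h : DF (fun p : V × V => p.1 = p.2) := by
    rw [dfProp_iff]
    exact dn_eq_var (I := Unit ⊕ Unit) (Sum.inl ()) (Sum.inr ())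
  exact h.comp (hf.prodMk hg)

@[fun_prop]
theorem DF.eq {f g : Γ → V} (hf : DF f) (hg : DF g) : DF (fun a => f a = g a) := DF.eqV hf hg

@[fun_prop]
theorem DF.mem {f g : Γ → V} (hf : DF f) (hg : DF g) : DF (fun a => f a ∈ g a) := by
  have h : DF (fun p : V × V => p.1 ∈ p.2) := by
    rw [dfProp_iff]
    exact dn_mem_var (I := Unit ⊕ Unit) (Sum.inl ()) (Sum.inr ())
  exact h.comp (hf.prodMk hg)

@[fun_prop]
theorem DF.memE {f g : Γ → V} (hf : DF f) (hg : DF g) : DF (fun a => ZFM.E (f a) (g a)) :=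
  DF.mem hf hg

/-- A function is definable when its graph is. -/
theorem DF.of_graph {f : Γ → V} (h : DF (fun p : Γ × V => p.2 = f p.1)) : DF f := by
  rw [df_iff]
  intro j
  rw [dfProp_iff] at h
  exact h

end

end Pool.Agent.H83.ZF
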