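import Pool.Agent.H83.ZF.Rank

/-! Finite bases for classes of primes under `WF^s_b1`. -/

set_option autoImplicit false

open Set

namespace Pool.Agent.H83.ZF

universe u v

section

variable {V : Type u} [ZFM V]

theorem om_cases {n : V} (hn : n ∈ (om : V)) : n = emp ∨ ∃ k ∈ (om : V), n = suc k := by
  refine om_ind (P := fun n => n = emp ∨ ∃ k ∈ (om : V), n = suc k) (by fun_prop) (Or.inl rfl) ?_ hn
  intro m hm _
  exact Or.inr ⟨m, hm, rfl⟩

theorem isNat_of_mem_om {n : V} (hn : n ∈ (om : V)) : IsNat ZFM.E n := by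
  refine ⟨od_of_mem_om hn, fun m hm => ?_⟩
  have hm' : m ∈ (om : V) := by
    rcases hm with hm | rfl
    · exact (od_om).trans hn hm
    · exact hn
  rcases om_cases hm' with rfl | ⟨k, _, rfl⟩
  · exact Or.inl not_mem_emp
  · exact Or.inr ⟨k, fun z => mem_suc⟩

/-- Pigeonhole principle. -/
theorem not_suc_le {n : V} (hn : n ∈ (om : V)) : ¬ Le (suc n) n := by
  refine om_ind (P := fun n => ¬ Le (suc n) n) (by fun_prop) ?_ ?_ hn
  · intro h
    obtain ⟨F, hF, h1, h2⟩ := le_iff.1 h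
    exact not_mem_emp _ (h1 emp (mem_suc.2 (Or.inr rfl)))
  · intro n hn ih h
    apply ih
    obtain ⟨F, hF, h1, h2⟩ := le_iff.1 h
    have htop : suc n ∈ suc (suc n) := mem_suc.2 (Or.inr rfl)
    have hin : ∀ x ∈ suc n, x ∈ suc (suc n) := fun x hx => mem_suc.2 (Or.inl hx)
    have hne : ∀ x ∈ suc n, x ≠ suc n := fun x hx e => not_mem_self (suc n) (e ▸ hx)
    refine le_iff.2 ⟨fun x => Ite (F x = n) (F (suc n)) (F x), by fun_prop, ?_, ?_⟩
    · intro x hx
      dsimp only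
      by_cases hxn : F x = n
      · rw [ite_pos hxn]
        rcases mem_suc.1 (h1 _ htop) with h3 | h3
        · exact h3
        · exact absurd (h2 x (hin x hx) _ htop (hxn.trans h3.symm)) (hne x hx)
      · rw [ite_neg hxn]
        exact (mem_suc.1 (h1 x (hin x hx))).resolve_right hxn
    · intro x hx y hy e
      dsimp only at e
      by_cases hxn : F x = n
      · by_cases hyn : F y = n
        · exact h2 x (hin x hx) y (hin y hy) (hxn.trans hyn.symm)
        · rw [ite_pos hxn, ite_neg hyn] at e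
          exact absurd (h2 _ htop y (hin y hy) e).symm (hne y hy)
      · by_cases hyn : F y = n
        · rw [ite_neg hxn, ite_pos hyn] at e
          exact absurd (h2 x (hin x hx) _ htop e) (hne x hx)
        · rw [ite_neg hxn, ite_neg hyn] at e
          exact h2 x (hin x hx) y (hin y hy) e

/-- `f` lists `n` pairwise non-equipotent members of the class `M`. -/
def Lst (M : V → Prop) (n f : V) : Prop :=
  (∀ i ∈ n, M (app f i)) ∧ ∀ i ∈ n, ∀ j ∈ n, Eq' (app f i) (app f j) → i = j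

theorem df_lst {M : V → Prop} (hM : DF M) : DF (fun p : V × V => Lst M p.1 p.2) := by
  unfold Lst; fun_prop

/-- If a class of primes has arbitrarily long finite lists of pairwise non-equipotent members, then
it has a member embedding into a non-equipotent member. -/
theorem lists_bounded (h : WFm V) {M : V → Prop} (hM : DF M) (hpr : ∀ x, M x → Pr x)
    (hanti : ∀ x y, M x → M y → Le x y → Eq' x y) : ∃ n ∈ (om : V), ¬ ∃ f, Lst M n f := by
  by_contra hcon
  push Not at hcon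
  have hL := df_lst hM
  obtain ⟨b, hb⟩ := collection (R := fun n f => Lst M n f) hL om hcon
  have hA : DF (fun n => Sep b (fun f => Lst M n f)) := by fun_prop
  have mA : ∀ n f, f ∈ Sep b (fun f => Lst M n f) ↔ f ∈ b ∧ Lst M n f := by
    intro n f
    exact mem_sep (DF.sec (P := fun n f => Lst M n f) hL n)
  obtain ⟨c, hc⟩ := acwo h hA od_om (by
    intro n hn
    obtain ⟨f, hf, h1⟩ := hb n hn
    exact ⟨f, (mA n f).2 ⟨hf, h1⟩⟩)
  -- the recursive selection
  obtain ⟨P, hP, hPe⟩ := recursion (V := V)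
    (G := fun g => app (app c (suc (Img g (fun p => fs p)))) (lst (Sep (suc (Img g (fun p => fs p)))
      (fun k => ∀ p ∈ g, ¬ Eq' (app (app c (suc (Img g (fun p => fs p)))) k) (sn p)))))
    (by fun_prop)
  have hdom : ∀ n : V, Img (lam n P) (fun p => fs p) = n := by
    intro n
    apply ext'
    intro z
    rw [mem_img (by fun_prop)]
    constructor
    · rintro ⟨p, hp, rfl⟩
      obtain ⟨x, hx, rfl⟩ := (mem_lam hP).1 hp
      rwa [fs_op]
    · intro hz
      exact ⟨op z (P z), (mem_lam hP).2 ⟨z, hz, rfl⟩, (fs_op _ _).symm⟩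
  have key : ∀ n ∈ (om : V), M (P n) ∧ ∀ m ∈ n, ¬ Eq' (P n) (P m) := by
    intro n hn
    have hno := od_of_mem_om hn
    have hcn := ((mA _ _).1 (hc (suc n) (suc_mem_om hn))).2
    let K : V := Sep (suc n) (fun k => ∀ p ∈ lam n P, ¬ Eq' (app (app c (suc n)) k) (sn p))
    have mK : ∀ k, k ∈ K ↔ k ∈ suc n ∧ ∀ m ∈ n, ¬ Eq' (app (app c (suc n)) k) (P m) := by
      intro k
      rw [mem_sep (by fun_prop)]
      refine and_congr_right fun _ => ?_
      constructor
      · intro h1 m hm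
        have := h1 (op m (P m)) ((mem_lam hP).2 ⟨m, hm, rfl⟩)
        rwa [sn_op] at this
      · intro h1 p hp
        obtain ⟨m, hm, rfl⟩ := (mem_lam hP).1 hp
        rw [sn_op]; exact h1 m hm
    have hPn : P n = app (app c (suc n)) (lst K) := by
      rw [hPe n hno, hdom n]
    have hKne : ∃ k, k ∈ K := by
      by_contra hcon2
      push Not at hcon2
      have hall : ∀ k ∈ suc n, ∃ m ∈ n, Eq' (app (app c (suc n)) k) (P m) := by
        intro k hk
        by_contra h1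
        push Not at h1
        exact hcon2 k ((mK k).2 ⟨hk, h1⟩)
      apply not_suc_le hn
      let Q : V → V := fun k => lst (Sep n (fun m => Eq' (app (app c (suc n)) k) (P m)))
      have hQ : DF Q := by simp only [Q]; fun_prop
      have hQs : ∀ k ∈ suc n, Q k ∈ n ∧ Eq' (app (app c (suc n)) k) (P (Q k)) := by
        intro k hk
        obtain ⟨m, hm, h1⟩ := hall k hk
        have := (lst_spec (s := Sep n (fun m => Eq' (app (app c (suc n)) k) (P m)))
          (fun z hz => hno.mem ((mem_sep (by fun_prop)).1 hz).1)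
          ⟨m, (mem_sep (by fun_prop)).2 ⟨hm, h1⟩⟩).1
        exact (mem_sep (P := fun m => Eq' (app (app c (suc n)) k) (P m)) (by fun_prop)).1 this
      refine le_iff.2 ⟨Q, hQ, fun k hk => (hQs k hk).1, ?_⟩
      intro k hk k' hk' e
      have h1 := (hQs k hk).2
      have h2 := (hQs k' hk').2
      rw [← e] at h2
      exact hcn.2 k hk k' hk' (Eq'.trans h1 (Eq'.symm h2))
    have hlst := (lst_spec (s := K) (fun z hz => (Od.suc hno).mem ((mK z).1 hz).1) hKne).1
    obtain ⟨h1, h2⟩ := (mK _).1 hlst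
    rw [hPn]
    exact ⟨hcn.1 _ h1, h2⟩
  obtain ⟨i, hi, j, hj, hij, hle⟩ := prime_wpo h od_om ⟨emp, emp_mem_om⟩
    (fun i hi => suc_mem_om hi) hP (fun i hi => hpr _ (key i hi).1)
  exact (key j hj).2 i hij (Eq'.symm (hanti _ _ (key i hi).1 (key j hj).1 hle))

/-- A class of pairwise incomparable (up to equipotence) primes is finite up to equipotence. -/
theorem finite_reps (h : WFm V) {M : V → Prop} (hM : DF M) (hpr : ∀ x, M x → Pr x)
    (hanti : ∀ x y, M x → M y → Le x y → Eq' x y) :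
    ∃ B : V, Fin' ZFM.E B ∧ (∀ b ∈ B, M b) ∧ (∀ b ∈ B, ∀ b' ∈ B, Eq' b b' → b = b') ∧
      ∀ x, M x → ∃ b ∈ B, Eq' b x := by
  have hL := df_lst hM
  obtain ⟨n₀, hn₀, h0⟩ := lists_bounded h hM hpr hanti
  obtain ⟨n, hn, ⟨hn1, hn2⟩, hmin⟩ := least_ord (P := fun n => n ∈ (om : V) ∧ ¬ ∃ f, Lst M n f)
    (by fun_prop) (od_of_mem_om hn₀) ⟨hn₀, h0⟩
  rcases om_cases hn1 with rfl | ⟨m, hm, rfl⟩
  · exfalso
    apply hn2
    exact ⟨emp, fun i hi => absurd hi (not_mem_emp i), fun i hi => absurd hi (not_mem_emp i)⟩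
  have h1 : ∃ f, Lst M m f := by
    by_contra h2
    exact hmin m (mem_suc.2 (Or.inr rfl)) ⟨hm, h2⟩
  obtain ⟨f, hf1, hf2⟩ := h1
  refine ⟨Img m (fun i => app f i), ⟨m, isNat_of_mem_om hm, ?_⟩, ?_, ?_, ?_⟩
  · refine Eq'.symm (eq_iff.2 ⟨fun i => app f i, by fun_prop, fun i hi =>
      (mem_img (by fun_prop)).2 ⟨i, hi, rfl⟩, ?_, ?_⟩)
    · intro i hi j hj e
      refine hf2 i hi j hj ?_
      dsimp only at e
      rw [e]; exact Eq'.refl _
    · intro y hy
      obtain ⟨i, hi, rfl⟩ := (mem_img (by fun_prop)).1 hy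
      exact ⟨i, hi, rfl⟩
  · intro b hb
    obtain ⟨i, hi, rfl⟩ := (mem_img (by fun_prop)).1 hb
    exact hf1 i hi
  · intro b hb b' hb' e
    obtain ⟨i, hi, rfl⟩ := (mem_img (by fun_prop)).1 hb
    obtain ⟨j, hj, rfl⟩ := (mem_img (by fun_prop)).1 hb'
    rw [hf2 i hi j hj e]
  · intro x hx
    by_contra hcon
    apply hn2
    have hne : ∀ i ∈ m, i ≠ m := fun i hi e => not_mem_self m (e ▸ hi)
    have hnew : ∀ i ∈ m, ¬ Eq' (app f i) x := fun i hi e =>
      hcon ⟨app f i, (mem_img (by fun_prop)).2 ⟨i, hi, rfl⟩, e⟩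
    have ev : ∀ i ∈ suc m, app (lam (suc m) (fun i => Ite (i = m) x (app f i))) i =
        Ite (i = m) x (app f i) := fun i hi => app_lam (by fun_prop) hi
    refine ⟨lam (suc m) (fun i => Ite (i = m) x (app f i)), ?_, ?_⟩
    · intro i hi
      rw [ev i hi]
      rcases mem_suc.1 hi with h2 | h2
      · rw [ite_neg (hne i h2)]; exact hf1 i h2
      · rw [ite_pos h2]; exact hx
    · intro i hi j hj e
      rw [ev i hi, ev j hj] at e
      rcases mem_suc.1 hi with h2 | h2
      · rcases mem_suc.1 hj with h3 | h3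
        · rw [ite_neg (hne i h2), ite_neg (hne j h3)] at e
          exact hf2 i h2 j h3 e
        · rw [ite_neg (hne i h2), ite_pos h3] at e
          exact absurd e (hnew i h2)
      · rcases mem_suc.1 hj with h3 | h3
        · rw [ite_pos h2, ite_neg (hne j h3)] at e
          exact absurd (Eq'.symm e) (hnew j h3)
        · rw [h2, h3]

/-- Finite basis theorem: every definable class of primes has a finite subset `B` such that every
member of the class contains a copy of a member of `B`. -/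
theorem finite_basis (h : WFm V) {C : V → Prop} (hC : DF C) (hpr : ∀ x, C x → Pr x) :
    ∃ B : V, Fin' ZFM.E B ∧ (∀ b ∈ B, C b) ∧ ∀ x, C x → ∃ b ∈ B, Le b x := by
  let M : V → Prop := fun x => C x ∧ ∀ y, C y → Le y x → Eq' y x
  have hM : DF M := by simp only [M]; fun_prop
  obtain ⟨B, hB1, hB2, _, hB4⟩ := finite_reps h hM (fun x hx => hpr x hx.1)
    (fun x y hx hy hle => hy.2 x hx.1 hle)
  refine ⟨B, hB1, fun b hb => (hB2 b hb).1, fun x hx => ?_⟩
  -- a minimal member below `x`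
  have mK : ∀ z, z ∈ Sep (pow x) (fun z => ∃ y, C y ∧ Eq' y z) ↔
      (∀ w ∈ z, w ∈ x) ∧ ∃ y, C y ∧ Eq' y z := by
    intro z; rw [mem_sep (by fun_prop), mem_pow]
  obtain ⟨k, hk, hmin⟩ := h.min (K := Sep (pow x) (fun z => ∃ y, C y ∧ Eq' y z))
    ⟨x, (mK x).2 ⟨fun w hw => hw, x, hx, Eq'.refl x⟩⟩
  obtain ⟨hkx, y, hy, hyk⟩ := (mK k).1 hk
  have hyM : M y := by
    refine ⟨hy, fun z hz hzy => ?_⟩
    have hzk : Le z k := Le.trans hzy (Eq'.le hyk)
    obtain ⟨F, hF, h1, h2⟩ := le_iff.1 (Le.trans hzk (le_of_subset hkx))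
    have e : Eq' z (Img z F) := eq_iff.2 ⟨F, hF, fun x hx => (mem_img hF).2 ⟨x, hx, rfl⟩, h2,
      fun w hw => by
        obtain ⟨v, hv, rfl⟩ := (mem_img hF).1 hw
        exact ⟨v, hv, rfl⟩⟩
    have h3 := hmin (Img z F) ((mK _).2 ⟨fun w hw => by
      obtain ⟨v, hv, rfl⟩ := (mem_img hF).1 hw
      exact h1 v hv, z, hz, e⟩) (Le.ls (Le.trans (Eq'.le (Eq'.symm e)) hzk))
    exact Eq'.trans e (Eq'.trans h3 (Eq'.symm hyk))
  obtain ⟨b, hb, hbe⟩ := hB4 y hyM
  exact ⟨b, hb, Le.trans (Eq'.le hbe) (Le.trans (Eq'.le hyk) (le_of_subset hkx))⟩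

/-- Finite basis for the non-well-orderable sets. -/
theorem nonwo_basis (h : WFm V) : ∃ B : V, Fin' ZFM.E B ∧ (∀ b ∈ B, Mn b) ∧
    (∀ b ∈ B, ∀ b' ∈ B, Ls b b' → b = b') ∧ ∀ x, ¬ WO x ↔ ∃ b ∈ B, Le b x := by
  obtain ⟨B, hB1, hB2, hB3, hB4⟩ := finite_reps h (M := fun x => Mn x) (by fun_prop)
    (fun x hx => mn_prime h hx) (fun x y hx hy hle => mn_ls hx hy (Le.ls hle))
  refine ⟨B, hB1, hB2, fun b hb b' hb' hle => hB3 b hb b' hb' (mn_ls (hB2 b hb) (hB2 b' hb') hle),
    fun x => ⟨fun hx => ?_, ?_⟩⟩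
  · obtain ⟨k, hk, hkx⟩ := exists_mn h hx
    obtain ⟨b, hb, e⟩ := hB4 k hk
    exact ⟨b, hb, Le.trans (Eq'.le e) hkx⟩
  · rintro ⟨b, hb, hle⟩ hx
    exact (hB2 b hb).1 (wo_of_le hle hx)

end

end Pool.Agent.H83.ZF
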