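import Pool.Agent.H83.ZF.Sets

/-! Comparison of cardinals in a model of ZF. -/

set_option autoImplicit false

open Set

namespace Pool.Agent.H83.ZF

universe u v

section

variable {V : Type u} [ZFM V]

/-- `|a| ≤ |b|`, `|a| ≤* |b|`, `|a| = |b|` in the model -/
abbrev Le (a b : V) : Prop := LeI ZFM.E a b
abbrev Ls (a b : V) : Prop := LeS ZFM.E a b
abbrev Eq' (a b : V) : Prop := EqC ZFM.E a b
abbrev WO (a : V) : Prop := WOble ZFM.E a
abbrev Od (a : V) : Prop := IsOrd ZFM.E a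

theorem isFun_op {f a b : V} (h : IsFun ZFM.E f a b) {x : V} (hx : x ∈ a) : op x (app f x) ∈ f := by
  obtain ⟨y, h1, h2⟩ := h.2 x hx
  exact the_spec (Q := fun y => op x y ∈ f) ⟨y, maps_iff.1 h1, fun z hz => h2 z (maps_iff.2 hz)⟩

theorem isFun_app {f a b : V} (h : IsFun ZFM.E f a b) {x y : V} (hxy : op x y ∈ f) :
    x ∈ a ∧ y ∈ b ∧ app f x = y := by
  obtain ⟨x', y', h1, h2, h3⟩ := h.1 _ hxy
  obtain ⟨rfl, rfl⟩ := op_inj.1 (isOPair_iff.1 h3)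
  obtain ⟨z, h4, h5⟩ := h.2 x h1
  refine ⟨h1, h2, ?_⟩
  rw [h5 _ (maps_iff.2 hxy)]
  exact h5 _ (maps_iff.2 (isFun_op h h1))

theorem isFun_mem {f a b : V} (h : IsFun ZFM.E f a b) {x : V} (hx : x ∈ a) : app f x ∈ b :=
  (isFun_app h (isFun_op h hx)).2.1

theorem isFun_mem_pow {f a b : V} (h : IsFun ZFM.E f a b) : f ∈ pow (prod a b) := by
  rw [mem_pow]
  intro p hp
  obtain ⟨x, y, h1, h2, h3⟩ := h.1 p hp
  exact mem_prod.2 ⟨x, y, h1, h2, isOPair_iff.1 h3⟩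

theorem isFun_lam {a b : V} {F : V → V} (hF : DF F) (h : ∀ x ∈ a, F x ∈ b) :
    IsFun ZFM.E (lam a F) a b := by
  constructor
  · intro p hp
    obtain ⟨x, hx, rfl⟩ := (mem_lam hF).1 hp
    exact ⟨x, F x, hx, h x hx, isOPair_iff.2 rfl⟩
  · intro x hx
    refine ⟨F x, maps_iff.2 ((op_mem_lam hF).2 ⟨hx, rfl⟩), fun z hz => ?_⟩
    exact ((op_mem_lam hF).1 (maps_iff.1 hz)).2

theorem isInj_iff {f a b : V} (h : IsFun ZFM.E f a b) :
    IsInj ZFM.E f ↔ ∀ x ∈ a, ∀ y ∈ a, app f x = app f y → x = y := by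
  constructor
  · intro hi x hx y hy e
    refine hi x y (app f x) (maps_iff.2 (isFun_op h hx)) (maps_iff.2 ?_)
    rw [e]; exact isFun_op h hy
  · intro hi x x' y h1 h2
    have h3 := isFun_app h (maps_iff.1 h1)
    have h4 := isFun_app h (maps_iff.1 h2)
    exact hi x h3.1 x' h4.1 (h3.2.2.trans h4.2.2.symm)

theorem isOnto_iff {f a b : V} (h : IsFun ZFM.E f a b) :
    IsOnto ZFM.E f b ↔ ∀ y ∈ b, ∃ x ∈ a, app f x = y := by
  constructor
  · intro hi y hy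
    obtain ⟨x, hx⟩ := hi y hy
    have h3 := isFun_app h (maps_iff.1 hx)
    exact ⟨x, h3.1, h3.2.2⟩
  · intro hi y hy
    obtain ⟨x, hx, rfl⟩ := hi y hy
    exact ⟨x, maps_iff.2 (isFun_op h hx)⟩

theorem le_iff {a b : V} : Le a b ↔ ∃ F : V → V, DF F ∧ (∀ x ∈ a, F x ∈ b) ∧
    ∀ x ∈ a, ∀ y ∈ a, F x = F y → x = y := by
  constructor
  · rintro ⟨f, h1, h2⟩
    exact ⟨app f, by fun_prop, fun x hx => isFun_mem h1 hx, (isInj_iff h1).1 h2⟩
  · rintro ⟨F, hF, h1, h2⟩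
    refine ⟨lam a F, isFun_lam hF h1, (isInj_iff (isFun_lam hF h1)).2 ?_⟩
    intro x hx y hy e
    rw [app_lam hF hx, app_lam hF hy] at e
    exact h2 x hx y hy e

theorem ls_iff {a b : V} : Ls a b ↔ (∀ x, ¬ x ∈ a) ∨ ∃ F : V → V, DF F ∧ (∀ x ∈ b, F x ∈ a) ∧
    ∀ y ∈ a, ∃ x ∈ b, F x = y := by
  constructor
  · rintro (h | ⟨f, h1, h2⟩)
    · exact Or.inl h
    · exact Or.inr ⟨app f, by fun_prop, fun x hx => isFun_mem h1 hx, (isOnto_iff h1).1 h2⟩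
  · rintro (h | ⟨F, hF, h1, h2⟩)
    · exact Or.inl h
    · refine Or.inr ⟨lam b F, isFun_lam hF h1, (isOnto_iff (isFun_lam hF h1)).2 ?_⟩
      intro y hy
      obtain ⟨x, hx, e⟩ := h2 y hy
      exact ⟨x, hx, by rw [app_lam hF hx, e]⟩

theorem eq_iff {a b : V} : Eq' a b ↔ ∃ F : V → V, DF F ∧ (∀ x ∈ a, F x ∈ b) ∧
    (∀ x ∈ a, ∀ y ∈ a, F x = F y → x = y) ∧ ∀ y ∈ b, ∃ x ∈ a, F x = y := by
  constructor
  · rintro ⟨f, h1, h2, h3⟩
    exact ⟨app f, by fun_prop, fun x hx => isFun_mem h1 hx, (isInj_iff h1).1 h2,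
      (isOnto_iff h1).1 h3⟩
  · rintro ⟨F, hF, h1, h2, h3⟩
    refine ⟨lam a F, isFun_lam hF h1, (isInj_iff (isFun_lam hF h1)).2 ?_,
      (isOnto_iff (isFun_lam hF h1)).2 ?_⟩
    · intro x hx y hy e
      rw [app_lam hF hx, app_lam hF hy] at e
      exact h2 x hx y hy e
    · intro y hy
      obtain ⟨x, hx, e⟩ := h3 y hy
      exact ⟨x, hx, by rw [app_lam hF hx, e]⟩

/-- inverse of `F` on `a` -/
noncomputable def inv (a : V) (F : V → V) (y : V) : V := The (fun x => x ∈ a ∧ F x = y)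

theorem df_inv {Γ : Type u} [Ctx V Γ] {f g : Γ → V} {F : Γ → V → V} (hf : DF f) (hg : DF g)
    (hF : DF (fun p : Γ × V => F p.1 p.2)) : DF (fun a => inv (f a) (F a) (g a)) := by
  unfold inv
  have h : DF (fun p : Γ × V => p.2 ∈ f p.1 ∧ F p.1 p.2 = g p.1) := by fun_prop
  fun_prop

@[fun_prop]
theorem DF.inv1 {a : V} {F : V → V} (hF : DF F) : DF (fun y => inv a F y) :=
  df_inv (Γ := V) (f := fun _ => a) (g := fun y => y) (F := fun _ => F) (by fun_prop) (by fun_prop)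
    (by fun_prop)

theorem inv_app {a : V} {F : V → V} (hi : ∀ x ∈ a, ∀ y ∈ a, F x = F y → x = y) {x : V}
    (hx : x ∈ a) : inv a F (F x) = x :=
  the_eq ⟨hx, rfl⟩ fun y hy => hi y hy.1 x hx hy.2

theorem Eq'.refl (a : V) : Eq' a a :=
  eq_iff.2 ⟨fun x => x, by fun_prop, fun _ h => h, fun _ _ _ _ h => h, fun y hy => ⟨y, hy, rfl⟩⟩

theorem Eq'.symm {a b : V} (h : Eq' a b) : Eq' b a := by
  obtain ⟨F, hF, h1, h2, h3⟩ := eq_iff.1 h
  refine eq_iff.2 ⟨inv a F, DF.inv1 hF, ?_, ?_, ?_⟩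
  · intro y hy
    obtain ⟨x, hx, rfl⟩ := h3 y hy
    rwa [inv_app h2 hx]
  · intro y hy y' hy' e
    obtain ⟨x, hx, rfl⟩ := h3 y hy
    obtain ⟨x', hx', rfl⟩ := h3 y' hy'
    rw [inv_app h2 hx, inv_app h2 hx'] at e
    rw [e]
  · intro x hx
    exact ⟨F x, h1 x hx, inv_app h2 hx⟩

theorem Eq'.trans {a b c : V} (h : Eq' a b) (h' : Eq' b c) : Eq' a c := by
  obtain ⟨F, hF, h1, h2, h3⟩ := eq_iff.1 h
  obtain ⟨G, hG, k1, k2, k3⟩ := eq_iff.1 h'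
  refine eq_iff.2 ⟨fun x => G (F x), by fun_prop, fun x hx => k1 _ (h1 x hx), ?_, ?_⟩
  · intro x hx y hy e
    exact h2 x hx y hy (k2 _ (h1 x hx) _ (h1 y hy) e)
  · intro z hz
    obtain ⟨y, hy, rfl⟩ := k3 z hz
    obtain ⟨x, hx, rfl⟩ := h3 y hy
    exact ⟨x, hx, rfl⟩

theorem Eq'.le {a b : V} (h : Eq' a b) : Le a b := by
  obtain ⟨F, hF, h1, h2, _⟩ := eq_iff.1 h
  exact le_iff.2 ⟨F, hF, h1, h2⟩

theorem Le.refl (a : V) : Le a a := (Eq'.refl a).le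

theorem Le.trans {a b c : V} (h : Le a b) (h' : Le b c) : Le a c := by
  obtain ⟨F, hF, h1, h2⟩ := le_iff.1 h
  obtain ⟨G, hG, k1, k2⟩ := le_iff.1 h'
  refine le_iff.2 ⟨fun x => G (F x), by fun_prop, fun x hx => k1 _ (h1 x hx), ?_⟩
  intro x hx y hy e
  exact h2 x hx y hy (k2 _ (h1 x hx) _ (h1 y hy) e)

theorem le_of_subset {a b : V} (h : ∀ x ∈ a, x ∈ b) : Le a b :=
  le_iff.2 ⟨fun x => x, by fun_prop, h, fun _ _ _ _ h => h⟩

theorem Le.ls {a b : V} (h : Le a b) : Ls a b := by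
  classical
  by_cases hne : ∃ x₀, x₀ ∈ a
  · obtain ⟨x₀, hx₀⟩ := hne
    obtain ⟨F, hF, h1, h2⟩ := le_iff.1 h
    refine ls_iff.2 (Or.inr ⟨fun y => Ite (∃ x' ∈ a, F x' = y) (inv a F y) x₀, by fun_prop, ?_, ?_⟩)
    · intro y hy
      by_cases h3 : ∃ x' ∈ a, F x' = y
      · dsimp only
        rw [ite_pos h3]
        obtain ⟨x, hx, rfl⟩ := h3
        rwa [inv_app h2 hx]
      · dsimp only
        rw [ite_neg h3]
        exact hx₀
    · intro x hx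
      exact ⟨F x, h1 x hx, by dsimp only; rw [ite_pos ⟨x, hx, rfl⟩, inv_app h2 hx]⟩
  · push Not at hne
    exact Or.inl hne

theorem Eq'.ls {a b : V} (h : Eq' a b) : Ls a b := h.le.ls

theorem Ls.trans {a b c : V} (h : Ls a b) (h' : Ls b c) : Ls a c := by
  rcases ls_iff.1 h with h | ⟨F, hF, h1, h2⟩
  · exact Or.inl h
  · rcases ls_iff.1 h' with h' | ⟨G, hG, k1, k2⟩
    · left
      intro y hy
      obtain ⟨x, hx, _⟩ := h2 y hy
      exact h' x hx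
    · refine ls_iff.2 (Or.inr ⟨fun x => F (G x), by fun_prop, fun x hx => h1 _ (k1 x hx), ?_⟩)
      intro z hz
      obtain ⟨y, hy, rfl⟩ := h2 z hz
      obtain ⟨x, hx, rfl⟩ := k2 y hy
      exact ⟨x, hx, rfl⟩

/-- Cantor-Bernstein. -/
theorem cantor_bernstein {a b : V} (h : Le a b) (h' : Le b a) : Eq' a b := by
  classical
  obtain ⟨F, hF, h1, h2⟩ := le_iff.1 h
  obtain ⟨G, hG, k1, k2⟩ := le_iff.1 h'
  -- the elements whose backward orbit stops in `a`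
  let A : V := Sep a (fun x => ∀ c : V, (∀ y ∈ a, (¬ ∃ z ∈ b, G z = y) → y ∈ c) →
    (∀ y ∈ a, y ∈ c → G (F y) ∈ c) → x ∈ c)
  have hA : ∀ x, x ∈ A ↔ x ∈ a ∧ ∀ c : V, (∀ y ∈ a, (¬ ∃ z ∈ b, G z = y) → y ∈ c) →
      (∀ y ∈ a, y ∈ c → G (F y) ∈ c) → x ∈ c := fun x => mem_sep (by fun_prop)
  have hstart : ∀ y ∈ a, (¬ ∃ z ∈ b, G z = y) → y ∈ A := fun y hy h3 =>
    (hA y).2 ⟨hy, fun c hc _ => hc y hy h3⟩
  have hstep : ∀ y ∈ A, G (F y) ∈ A := by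
    intro y hy
    obtain ⟨h3, h4⟩ := (hA y).1 hy
    exact (hA _).2 ⟨k1 _ (h1 y h3), fun c hc hc' => hc' y h3 (h4 c hc hc')⟩
  -- conversely
  have hback : ∀ x ∈ A, (¬ ∃ z ∈ b, G z = x) ∨ ∃ y ∈ A, x = G (F y) := by
    intro x hx
    obtain ⟨h3, h4⟩ := (hA x).1 hx
    have h5 := h4 (Sep A (fun x => (¬ ∃ z ∈ b, G z = x) ∨ ∃ y ∈ A, x = G (F y))) ?_ ?_
    · exact ((mem_sep (by fun_prop)).1 h5).2
    · intro y hy h6
      exact (mem_sep (by fun_prop)).2 ⟨hstart y hy h6, Or.inl h6⟩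
    · intro y hy h6
      have h7 := ((mem_sep (by fun_prop)).1 h6).1
      exact (mem_sep (by fun_prop)).2 ⟨hstep y h7, Or.inr ⟨y, h7, rfl⟩⟩
  have hGi : ∀ x ∈ a, ¬ x ∈ A → inv b G x ∈ b ∧ G (inv b G x) = x := by
    intro x hx hxA
    by_contra hcon
    apply hxA
    apply hstart x hx
    rintro ⟨z, hz, rfl⟩
    rw [inv_app k2 hz] at hcon
    exact hcon ⟨hz, rfl⟩
  refine eq_iff.2 ⟨fun x => Ite (x ∈ A) (F x) (inv b G x), by fun_prop, ?_, ?_, ?_⟩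
  · intro x hx
    dsimp only
    by_cases hxA : x ∈ A
    · rw [ite_pos hxA]; exact h1 x hx
    · rw [ite_neg hxA]; exact (hGi x hx hxA).1
  · intro x hx y hy e
    dsimp only at e
    by_cases hxA : x ∈ A
    · by_cases hyA : y ∈ A
      · rw [ite_pos hxA, ite_pos hyA] at e
        exact h2 x hx y hy e
      · rw [ite_pos hxA, ite_neg hyA] at e
        exfalso
        apply hyA
        rw [← (hGi y hy hyA).2, ← e]
        exact hstep x hxA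
    · by_cases hyA : y ∈ A
      · rw [ite_neg hxA, ite_pos hyA] at e
        exfalso
        apply hxA
        rw [← (hGi x hx hxA).2, e]
        exact hstep y hyA
      · rw [ite_neg hxA, ite_neg hyA] at e
        rw [← (hGi x hx hxA).2, e, (hGi y hy hyA).2]
  · intro y hy
    by_cases hyA : G y ∈ A
    · rcases hback _ hyA with h3 | ⟨x, hx, h3⟩
      · exact absurd ⟨y, hy, rfl⟩ h3
      · have h4 := ((hA x).1 hx).1
        refine ⟨x, h4, ?_⟩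
        dsimp only
        rw [ite_pos hx]
        exact (k2 y hy _ (h1 x h4) h3).symm
    · refine ⟨G y, k1 y hy, ?_⟩
      dsimp only
      rw [ite_neg hyA, inv_app k2 hy]

end

end Pool.Agent.H83.ZF
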