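import Pool.Agent.H83.ZF.Base

/-! Set-theoretic notions in a structure `(V, E)`, written out in terms of `E`. -/

set_option autoImplicit false

namespace Pool.Agent.H83.ZF

universe u

section

variable {V : Type u} (E : V → V → Prop)

/-- `x ⊆ y` -/
def Sub (x y : V) : Prop := ∀ z, E z x → E z y

/-- `z = {x, y}` -/
def IsPair (z x y : V) : Prop := ∀ w, E w z ↔ w = x ∨ w = y

/-- `p = (x, y)`, the Kuratowski ordered pair -/
def IsOPair (p x y : V) : Prop := ∃ s t, IsPair E s x x ∧ IsPair E t x y ∧ IsPair E p s t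

/-- `(x, y) ∈ f` -/
def Maps (f x y : V) : Prop := ∃ p, E p f ∧ IsOPair E p x y

/-- `f` is a function from `a` to `b`. -/
def IsFun (f a b : V) : Prop :=
  (∀ p, E p f → ∃ x y, E x a ∧ E y b ∧ IsOPair E p x y) ∧
    ∀ x, E x a → ∃ y, Maps E f x y ∧ ∀ z, Maps E f x z → z = y

/-- `f` is injective. -/
def IsInj (f : V) : Prop := ∀ x x' y, Maps E f x y → Maps E f x' y → x = x'

/-- every element of `b` is a value of `f` -/
def IsOnto (f b : V) : Prop := ∀ y, E y b → ∃ x, Maps E f x y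

/-- `|a| ≤ |b|`: there is an injection from `a` to `b`. -/
def LeI (a b : V) : Prop := ∃ f, IsFun E f a b ∧ IsInj E f

/-- `|a| ≤* |b|`: `a` is empty or there is a surjection from `b` onto `a`. -/
def LeS (a b : V) : Prop := (∀ x, ¬ E x a) ∨ ∃ f, IsFun E f b a ∧ IsOnto E f a

/-- `|a| = |b|`: there is a bijection from `a` to `b`. -/
def EqC (a b : V) : Prop := ∃ f, IsFun E f a b ∧ IsInj E f ∧ IsOnto E f b

/-- The principle `WF^s_b1`: every non-empty set `K` of sets has a member `k` such that every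
member `l` of `K` with `|l| ≤* |k|` satisfies `|l| = |k|`. -/
def WFs : Prop := ∀ K, (∃ x, E x K) → ∃ k, E k K ∧ ∀ l, E l K → LeS E l k → EqC E l k

/-- `x` is a von Neumann ordinal (in a model of foundation): transitive and linearly ordered by
membership. -/
def IsOrd (x : V) : Prop :=
  (∀ y, E y x → ∀ z, E z y → E z x) ∧ ∀ y, E y x → ∀ z, E z x → E y z ∨ y = z ∨ E z y

/-- `x` can be well-ordered: it is in bijection with a von Neumann ordinal. -/
def WOble (x : V) : Prop := ∃ o, IsOrd E o ∧ EqC E x o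

/-- `y = x ∪ {x}` -/
def IsSucc (y x : V) : Prop := ∀ z, E z y ↔ E z x ∨ z = x

/-- `n` is a finite ordinal. -/
def IsNat (n : V) : Prop :=
  IsOrd E n ∧ ∀ m, (E m n ∨ m = n) → (∀ z, ¬ E z m) ∨ ∃ k, IsSucc E m k

/-- `x` is finite. -/
def Fin' (x : V) : Prop := ∃ n, IsNat E n ∧ EqC E x n

/-- `x` is prime: non-empty, and whenever it is the union of a well-orderable set of subsets, one
of these subsets is equipotent to `x`. -/
def IsPrime (x : V) : Prop :=
  (∃ y, E y x) ∧ ∀ D, WOble E D → (∀ d, E d D → Sub E d x) →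
    (∀ y, E y x → ∃ d, E d D ∧ E y d) → ∃ d, E d D ∧ EqC E d x

/-- `x` is a minimal non-well-orderable cardinal: it is not well-orderable, and everything it
surjects onto is well-orderable or equipotent to `x`. -/
def IsMin (x : V) : Prop := ¬ WOble E x ∧ ∀ y, LeS E y x → WOble E y ∨ EqC E y x

end

section

variable {V : Type u} [ZFM V] {Γ : Type u} [Ctx V Γ]

@[fun_prop]
theorem DF.sub {f g : Γ → V} (hf : DF f) (hg : DF g) : DF (fun a => Sub ZFM.E (f a) (g a)) := by
  unfold Sub; fun_prop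

@[fun_prop]
theorem DF.isPair {f g h : Γ → V} (hf : DF f) (hg : DF g) (hh : DF h) :
    DF (fun a => IsPair ZFM.E (f a) (g a) (h a)) := by
  unfold IsPair; fun_prop

@[fun_prop]
theorem DF.isOPair {f g h : Γ → V} (hf : DF f) (hg : DF g) (hh : DF h) :
    DF (fun a => IsOPair ZFM.E (f a) (g a) (h a)) := by
  unfold IsOPair; fun_prop

@[fun_prop]
theorem DF.maps {f g h : Γ → V} (hf : DF f) (hg : DF g) (hh : DF h) :
    DF (fun a => Maps ZFM.E (f a) (g a) (h a)) := by
  unfold Maps; fun_prop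

@[fun_prop]
theorem DF.isFun {f g h : Γ → V} (hf : DF f) (hg : DF g) (hh : DF h) :
    DF (fun a => IsFun ZFM.E (f a) (g a) (h a)) := by
  unfold IsFun; fun_prop

@[fun_prop]
theorem DF.isInj {f : Γ → V} (hf : DF f) : DF (fun a => IsInj ZFM.E (f a)) := by
  unfold IsInj; fun_prop

@[fun_prop]
theorem DF.isOnto {f g : Γ → V} (hf : DF f) (hg : DF g) :
    DF (fun a => IsOnto ZFM.E (f a) (g a)) := by
  unfold IsOnto; fun_prop

@[fun_prop]
theorem DF.leI {f g : Γ → V} (hf : DF f) (hg : DF g) : DF (fun a => LeI ZFM.E (f a) (g a)) := by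
  unfold LeI; fun_prop

@[fun_prop]
theorem DF.leS {f g : Γ → V} (hf : DF f) (hg : DF g) : DF (fun a => LeS ZFM.E (f a) (g a)) := by
  unfold LeS; fun_prop

@[fun_prop]
theorem DF.eqC {f g : Γ → V} (hf : DF f) (hg : DF g) : DF (fun a => EqC ZFM.E (f a) (g a)) := by
  unfold EqC; fun_prop

@[fun_prop]
theorem DF.isOrd {f : Γ → V} (hf : DF f) : DF (fun a => IsOrd ZFM.E (f a)) := by
  unfold IsOrd; fun_prop

@[fun_prop]
theorem DF.wOble {f : Γ → V} (hf : DF f) : DF (fun a => WOble ZFM.E (f a)) := by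
  unfold WOble; fun_prop

@[fun_prop]
theorem DF.isSucc {f g : Γ → V} (hf : DF f) (hg : DF g) :
    DF (fun a => IsSucc ZFM.E (f a) (g a)) := by
  unfold IsSucc; fun_prop

@[fun_prop]
theorem DF.isNat {f : Γ → V} (hf : DF f) : DF (fun a => IsNat ZFM.E (f a)) := by
  unfold IsNat; fun_prop

@[fun_prop]
theorem DF.fin' {f : Γ → V} (hf : DF f) : DF (fun a => Fin' ZFM.E (f a)) := by
  unfold Fin'; fun_prop

@[fun_prop]
theorem DF.isPrime {f : Γ → V} (hf : DF f) : DF (fun a => IsPrime ZFM.E (f a)) := by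
  unfold IsPrime; fun_prop

@[fun_prop]
theorem DF.isMin {f : Γ → V} (hf : DF f) : DF (fun a => IsMin ZFM.E (f a)) := by
  unfold IsMin; fun_prop

end

end Pool.Agent.H83.ZF
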