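import Pool.Agent.H83.ZF.PP
import Pool.Agent.H83.ZF.Arith

/-! Under `WF^s_b1` every infinite set is the disjoint union of two copies of itself. -/

set_option autoImplicit false

open Set

namespace Pool.Agent.H83.ZF

universe u v

section

variable {V : Type u} [ZFM V]

/-- Primality is invariant under equipotence. -/
theorem pr_of_eq {P Q : V} (hP : Pr P) (e : Eq' P Q) : Pr Q := by
  obtain ⟨f, hf, f1, f2, f3⟩ := eq_iff.1 e
  refine ⟨?_, fun D hD h1 h2 => ?_⟩
  · obtain ⟨x, hx⟩ := hP.1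
    exact ⟨f x, f1 x hx⟩
  let K : V → V := fun d => Sep P (fun x => f x ∈ d)
  have hK : DF K := by simp only [K]; fun_prop
  have mK : ∀ d x, x ∈ K d ↔ x ∈ P ∧ f x ∈ d := fun d x => mem_sep (by fun_prop)
  obtain ⟨d', hd', e'⟩ := hP.2 (Img D K)
    (wo_of_ls (ls_iff.2 (Or.inr ⟨K, hK, fun x hx => (mem_img hK).2 ⟨x, hx, rfl⟩,
      fun y hy => by
        obtain ⟨x, hx, rfl⟩ := (mem_img hK).1 hy
        exact ⟨x, hx, rfl⟩⟩)) hD)
    (by
      intro d hd x hx
      obtain ⟨i, hi, rfl⟩ := (mem_img hK).1 hd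
      exact ((mK i x).1 hx).1)
    (by
      intro x hx
      obtain ⟨d, hd, hx'⟩ := h2 (f x) (f1 x hx)
      exact ⟨K d, (mem_img hK).2 ⟨d, hd, rfl⟩, (mK d x).2 ⟨hx, hx'⟩⟩)
  obtain ⟨d, hd, rfl⟩ := (mem_img hK).1 hd'
  refine ⟨d, hd, Eq'.trans (Eq'.symm ?_) (Eq'.trans e' e)⟩
  refine eq_iff.2 ⟨f, hf, fun x hx => ((mK d x).1 hx).2, fun x hx y hy h => ?_, fun y hy => ?_⟩
  · exact f2 x ((mK d x).1 hx).1 y ((mK d y).1 hy).1 h
  · obtain ⟨x, hx, rfl⟩ := f3 y (h1 d hd y hy)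
    exact ⟨x, (mK d x).2 ⟨hx, hy⟩, rfl⟩

/-- `A` is a subset of `P` equipotent to `P`. -/
def Lg (P A : V) : Prop := (∀ z ∈ A, z ∈ P) ∧ Le P A

@[fun_prop]
theorem DF.lg {Γ : Type u} [Ctx V Γ] {f g : Γ → V} (hf : DF f) (hg : DF g) :
    DF (fun a => Lg (f a) (g a)) := by
  unfold Lg; fun_prop

theorem Lg.eq {P A : V} (h : Lg P A) : Eq' P A := cantor_bernstein h.2 (le_of_subset h.1)

/-- Every function from a large subset of `P` to `Y` is constant on a large set. -/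
def Good (P Y : V) : Prop := ∀ A, Lg P A → ∀ g, (∀ x ∈ A, app g x ∈ Y) →
  ∃ e, Lg P (Sep A (fun x => app g x = e))

@[fun_prop]
theorem DF.good {Γ : Type u} [Ctx V Γ] {f g : Γ → V} (hf : DF f) (hg : DF g) :
    DF (fun a => Good (f a) (g a)) := by
  unfold Good; fun_prop

/-- The prime `P` is the union of two disjoint copies of itself. -/
def Spl (P : V) : Prop :=
  ∃ A B, (∀ y, y ∈ P ↔ y ∈ A ∨ y ∈ B) ∧ (∀ y ∈ A, ¬ y ∈ B) ∧ Eq' A P ∧ Eq' B P

@[fun_prop]
theorem DF.spl {Γ : Type u} [Ctx V Γ] {f : Γ → V} (hf : DF f) : DF (fun a => Spl (f a)) := by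
  unfold Spl; fun_prop

theorem spl_of_lg {P A B : V} (hA : Lg P A) (hB : Lg P B) (hd : ∀ y ∈ A, ¬ y ∈ B) : Spl P := by
  have mD : ∀ y, y ∈ Sep P (fun y => ¬ y ∈ A) ↔ y ∈ P ∧ ¬ y ∈ A := fun y => mem_sep (by fun_prop)
  refine ⟨A, Sep P (fun y => ¬ y ∈ A), fun y => ?_, fun y hy hy' => ((mD y).1 hy').2 hy,
    Eq'.symm hA.eq, Eq'.symm ?_⟩
  · rw [mD]
    constructor
    · intro hy
      by_cases h : y ∈ A
      · exact Or.inl h
      · exact Or.inr ⟨hy, h⟩
    · rintro (h | h)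
      · exact hA.1 y h
      · exact h.1
  · refine Lg.eq ⟨fun y hy => ((mD y).1 hy).1, Le.trans hB.2 (le_of_subset fun y hy => ?_)⟩
    exact (mD y).2 ⟨hB.1 y hy, fun h => hd y h hy⟩

theorem lg_cover {P : V} (hP : Pr P) {A : V} (hA : Lg P A) {a : V} (ha : Od a) {B : V → V}
    (hB : DF B) (hcov : ∀ x ∈ A, ∃ i ∈ a, x ∈ B i) :
    ∃ i ∈ a, Lg P (Sep A (fun x => x ∈ B i)) := by
  obtain ⟨i, hi, hle⟩ := prime_cover (pr_of_eq hP hA.eq) ha hB hcov
  refine ⟨i, hi, fun z hz => hA.1 z ?_, Le.trans hA.2 hle⟩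
  exact ((mem_sep (P := fun x => x ∈ B i) (by fun_prop)).1 hz).1

theorem lg_or {P : V} (hP : Pr P) {A : V} (hA : Lg P A) {Q : V → Prop} (hQ : DF Q) :
    Lg P (Sep A Q) ∨ Lg P (Sep A (fun x => ¬ Q x)) := by
  obtain ⟨i, hi, h1⟩ := lg_cover hP hA (Od.suc (Od.suc od_emp))
    (B := fun i => Ite (i = emp) (Sep A Q) (Sep A (fun x => ¬ Q x))) (by fun_prop) (by
      intro x hx
      by_cases h : Q x
      · exact ⟨emp, mem_suc.2 (Or.inl (mem_suc.2 (Or.inr rfl))), by
          rw [ite_pos rfl]; exact (mem_sep hQ).2 ⟨hx, h⟩⟩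
      · exact ⟨suc emp, mem_suc.2 (Or.inr rfl), by
          rw [ite_neg (suc_ne_emp _)]; exact (mem_sep (by fun_prop)).2 ⟨hx, h⟩⟩)
  by_cases hi0 : i = emp
  · left
    refine ⟨fun z hz => hA.1 z ((mem_sep hQ).1 hz).1, Le.trans h1.2 (le_of_subset fun z hz => ?_)⟩
    have := ((mem_sep (by fun_prop)).1 hz).2
    rwa [ite_pos hi0] at this
  · right
    refine ⟨fun z hz => hA.1 z ((mem_sep (by fun_prop)).1 hz).1,
      Le.trans h1.2 (le_of_subset fun z hz => ?_)⟩
    have := ((mem_sep (by fun_prop)).1 hz).2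
    rwa [ite_neg hi0] at this

theorem good_pow (h : WFm V) {P : V} (hP : Pr P) (hns : ¬ Spl P) {Y : V} (hY : Good P Y) :
    Good P (pow Y) := by
  intro A hA g hg
  have hdisj : ∀ B C, Lg P B → Lg P C → ∃ y, y ∈ B ∧ y ∈ C := by
    intro B C hB hC
    by_contra hcon
    push Not at hcon
    exact hns (spl_of_lg hB hC hcon)
  have mE : ∀ y, y ∈ Sep Y (fun y => Lg P (Sep A (fun x => y ∈ app g x))) ↔
      y ∈ Y ∧ Lg P (Sep A (fun x => y ∈ app g x)) := fun y => mem_sep (by fun_prop)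
  refine ⟨Sep Y (fun y => Lg P (Sep A (fun x => y ∈ app g x))), ?_⟩
  let e : V := Sep Y (fun y => Lg P (Sep A (fun x => y ∈ app g x)))
  rcases lg_or hP hA (Q := fun x => app g x = e) (by fun_prop) with h1 | h1
  · exact h1
  exfalso
  -- the points where `g` differs from `e`
  let A' : V := Sep A (fun x => ¬ app g x = e)
  have mA' : ∀ x, x ∈ A' ↔ x ∈ A ∧ ¬ app g x = e := fun x => mem_sep (by fun_prop)
  let D : V → V := fun x => Sep Y (fun y => ¬ (y ∈ app g x ↔ y ∈ e))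
  have hD : DF D := by simp only [D]; fun_prop
  have mD : ∀ x y, y ∈ D x ↔ y ∈ Y ∧ ¬ (y ∈ app g x ↔ y ∈ e) := fun x y => mem_sep (by fun_prop)
  have hDne : ∀ x ∈ A', ∃ y, y ∈ D x := by
    intro x hx
    by_contra hcon
    push Not at hcon
    obtain ⟨h2, h3⟩ := (mA' x).1 hx
    apply h3
    refine ext' fun y => ?_
    by_cases hy : y ∈ Y
    · by_contra h4
      exact hcon y ((mD x y).2 ⟨hy, h4⟩)
    · exact iff_of_false (fun h4 => hy (mem_pow.1 (hg x h2) y h4)) (fun h4 => hy ((mE y).1 h4).1)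
  have hls : Ls A' (Sig A' D) := by
    refine ls_iff.2 (Or.inr ⟨fun p => fs p, by fun_prop, fun p hp => ?_, fun x hx => ?_⟩)
    · obtain ⟨x, y, hx, hy, rfl⟩ := (mem_sig hD).1 hp
      dsimp only
      rw [fs_op]; exact hx
    · obtain ⟨y, hy⟩ := hDne x hx
      exact ⟨op x y, (op_mem_sig hD).2 ⟨hx, hy⟩, fs_op _ _⟩
  obtain ⟨j, hj, j1, j2⟩ := le_iff.1 (pp h hls)
  have hjs : ∀ x ∈ A', ∃ u v, u ∈ A' ∧ v ∈ D u ∧ j x = op u v := by
    intro x hx
    obtain ⟨u, v, hu, hv, e'⟩ := (mem_sig hD).1 (j1 x hx)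
    exact ⟨u, v, hu, hv, e'⟩
  obtain ⟨y₀, hy₀⟩ := hY A' h1 (lam A' (fun x => sn (j x))) (by
    intro x hx
    obtain ⟨u, v, hu, hv, e'⟩ := hjs x hx
    rw [app_lam (by fun_prop) hx, e', sn_op]
    exact ((mD u v).1 hv).1)
  -- a large set is mapped injectively into the small set of the `x` with `y₀ ∈ D x`
  let B : V := Sep A' (fun x => app (lam A' (fun x => sn (j x))) x = y₀)
  have mB : ∀ x, x ∈ B ↔ x ∈ A' ∧ sn (j x) = y₀ := by
    intro x
    show x ∈ Sep A' (fun x => app (lam A' (fun x => sn (j x))) x = y₀) ↔ _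
    rw [mem_sep (by fun_prop)]
    refine and_congr_right fun hx => ?_
    rw [app_lam (by fun_prop) hx]
  let Q : V := Sep A' (fun x => y₀ ∈ D x)
  have mQ : ∀ x, x ∈ Q ↔ x ∈ A' ∧ y₀ ∈ D x := fun x => mem_sep (by fun_prop)
  have hBQ : Le B Q := by
    refine le_iff.2 ⟨fun x => fs (j x), by fun_prop, fun x hx => ?_, fun x hx x' hx' e0 => ?_⟩
    · obtain ⟨h2, h3⟩ := (mB x).1 hx
      obtain ⟨u, v, hu, hv, e'⟩ := hjs x h2
      rw [e', sn_op] at h3
      dsimp only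
      rw [e', fs_op, mQ, ← h3]
      exact ⟨hu, hv⟩
    · obtain ⟨h2, h3⟩ := (mB x).1 hx
      obtain ⟨h2', h3'⟩ := (mB x').1 hx'
      obtain ⟨u, v, hu, hv, e1⟩ := hjs x h2
      obtain ⟨u', v', hu', hv', e2⟩ := hjs x' h2'
      dsimp only at e0
      rw [e1, sn_op] at h3
      rw [e2, sn_op] at h3'
      rw [e1, e2, fs_op, fs_op] at e0
      exact j2 x h2 x' h2' (by rw [e1, e2, e0, h3, h3'])
  have hQL : Lg P Q := ⟨fun z hz => hA.1 z ((mA' z).1 ((mQ z).1 hz).1).1, Le.trans hy₀.2 hBQ⟩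
  by_cases hye : y₀ ∈ e
  · obtain ⟨x, hx, hx'⟩ := hdisj _ _ ((mE y₀).1 hye).2 hQL
    have h2 := ((mem_sep (P := fun x => y₀ ∈ app g x) (by fun_prop)).1 hx).2
    exact ((mD x y₀).1 ((mQ x).1 hx').2).2 ⟨fun _ => hye, fun _ => h2⟩
  · apply hye
    have hyY : y₀ ∈ Y := by
      obtain ⟨x, hx, _⟩ := hdisj _ _ hQL hQL
      exact ((mD x y₀).1 ((mQ x).1 hx).2).1
    refine (mE y₀).2 ⟨hyY, fun z hz => hA.1 z ((mem_sep (by fun_prop)).1 hz).1,
      Le.trans hQL.2 (le_of_subset fun z hz => ?_)⟩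
    obtain ⟨h2, h3⟩ := (mQ z).1 hz
    refine (mem_sep (by fun_prop)).2 ⟨((mA' z).1 h2).1, ?_⟩
    by_contra h4
    exact ((mD z y₀).1 h3).2 (iff_of_false h4 hye)

/-- Every prime with at least two elements is the union of two disjoint copies of itself. -/
theorem spl_of_prime (h : WFm V) {P : V} (hP : Pr P) (h2 : ∃ x ∈ P, ∃ y ∈ P, x ≠ y) : Spl P := by
  by_contra hns
  obtain ⟨F, hF, mF, hall⟩ := exists_hier V
  have key : ∀ a, Od a → Good P (F a) := by
    intro a ha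
    refine ord_ind (P := fun a => Good P (F a)) (by fun_prop) ?_ ha
    intro a ha ih A hA g hg
    have mB : ∀ b x, x ∈ Sep A (fun x => ∀ z ∈ app g x, z ∈ F b) ↔
        x ∈ A ∧ ∀ z ∈ app g x, z ∈ F b := fun b x => mem_sep (by fun_prop)
    obtain ⟨b, hb, h1⟩ := lg_cover hP hA ha (B := fun b => Sep A (fun x => ∀ z ∈ app g x, z ∈ F b))
      (by fun_prop) (by
        intro x hx
        obtain ⟨b, hb, h3⟩ := (mF a ha _).1 (hg x hx)
        exact ⟨b, hb, (mB b x).2 ⟨hx, h3⟩⟩)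
    obtain ⟨e, he⟩ := good_pow h hP hns (ih b hb) _ h1 g (by
      intro x hx
      have h3 := ((mem_sep (by fun_prop)).1 hx).2
      exact mem_pow.2 ((mB b x).1 h3).2)
    refine ⟨e, fun z hz => hA.1 z ((mem_sep (by fun_prop)).1 hz).1,
      Le.trans he.2 (le_of_subset fun z hz => ?_)⟩
    obtain ⟨h3, h4⟩ := (mem_sep (by fun_prop)).1 hz
    exact (mem_sep (by fun_prop)).2 ⟨((mem_sep (by fun_prop)).1 h3).1, h4⟩
  obtain ⟨a, ha, hPa⟩ := hall P
  obtain ⟨b, hb, h1⟩ := (mF a ha P).1 hPa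
  obtain ⟨e, he⟩ := key b (ha.mem hb) P ⟨fun z hz => hz, Le.refl P⟩ (lam P (fun x => x)) (by
    intro x hx
    rw [app_lam (by fun_prop) hx]; exact h1 x hx)
  obtain ⟨f, hf, f1, f2⟩ := le_iff.1 he.2
  obtain ⟨x, hx, y, hy, hxy⟩ := h2
  apply hxy
  have h3 : ∀ z ∈ P, f z = e := by
    intro z hz
    obtain ⟨h4, h5⟩ := (mem_sep (by fun_prop)).1 (f1 z hz)
    rwa [app_lam (by fun_prop) h4] at h5
  exact f2 x hx y hy ((h3 x hx).trans (h3 y hy).symm)

theorem dsum_le_of_spl {P : V} (hP : Spl P) : Le (dsum P P) P := by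
  obtain ⟨A, B, h1, h2, h3, h4⟩ := hP
  obtain ⟨f, hf, f1, f2, _⟩ := eq_iff.1 (Eq'.symm h3)
  obtain ⟨g, hg, g1, g2, _⟩ := eq_iff.1 (Eq'.symm h4)
  refine le_iff.2 ⟨fun p => Ite (fs p = emp) (f (sn p)) (g (sn p)), by fun_prop, ?_, ?_⟩
  · intro p hp
    rcases mem_dsum.1 hp with ⟨x, hx, rfl⟩ | ⟨x, hx, rfl⟩
    · dsimp only
      rw [fs_op, sn_op, ite_pos rfl]
      exact (h1 _).2 (Or.inl (f1 x hx))
    · dsimp only
      rw [fs_op, sn_op, ite_neg emp_ne_sing.symm]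
      exact (h1 _).2 (Or.inr (g1 x hx))
  · intro p hp q hq e
    rcases mem_dsum.1 hp with ⟨x, hx, rfl⟩ | ⟨x, hx, rfl⟩
    · rcases mem_dsum.1 hq with ⟨y, hy, rfl⟩ | ⟨y, hy, rfl⟩
      · dsimp only at e
        rw [fs_op, sn_op, ite_pos rfl, fs_op, sn_op, ite_pos rfl] at e
        rw [f2 x hx y hy e]
      · dsimp only at e
        rw [fs_op, sn_op, ite_pos rfl, fs_op, sn_op, ite_neg emp_ne_sing.symm] at e
        exact absurd (g1 y hy) (e ▸ h2 _ (f1 x hx))
    · rcases mem_dsum.1 hq with ⟨y, hy, rfl⟩ | ⟨y, hy, rfl⟩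
      · dsimp only at e
        rw [fs_op, sn_op, ite_neg emp_ne_sing.symm, fs_op, sn_op, ite_pos rfl] at e
        exact absurd (g1 x hx) (e ▸ h2 _ (f1 y hy))
      · dsimp only at e
        rw [fs_op, sn_op, ite_neg emp_ne_sing.symm, fs_op, sn_op, ite_neg emp_ne_sing.symm] at e
        rw [g2 x hx y hy e]

theorem dsum_mono {a b c d : V} (h : Le a b) (h' : Le c d) : Le (dsum a c) (dsum b d) := by
  obtain ⟨f, hf, f1, f2⟩ := le_iff.1 h
  obtain ⟨g, hg, g1, g2⟩ := le_iff.1 h'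
  refine le_iff.2 ⟨fun p => Ite (fs p = emp) (op emp (f (sn p))) (op (sing emp) (g (sn p))),
    by fun_prop, ?_, ?_⟩
  · intro p hp
    rcases mem_dsum.1 hp with ⟨x, hx, rfl⟩ | ⟨x, hx, rfl⟩
    · dsimp only
      rw [fs_op, sn_op, ite_pos rfl]
      exact mem_dsum.2 (Or.inl ⟨_, f1 x hx, rfl⟩)
    · dsimp only
      rw [fs_op, sn_op, ite_neg emp_ne_sing.symm]
      exact mem_dsum.2 (Or.inr ⟨_, g1 x hx, rfl⟩)
  · intro p hp q hq e
    rcases mem_dsum.1 hp with ⟨x, hx, rfl⟩ | ⟨x, hx, rfl⟩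
    · rcases mem_dsum.1 hq with ⟨y, hy, rfl⟩ | ⟨y, hy, rfl⟩
      · dsimp only at e
        rw [fs_op, sn_op, ite_pos rfl, fs_op, sn_op, ite_pos rfl] at e
        rw [f2 x hx y hy (op_inj.1 e).2]
      · dsimp only at e
        rw [fs_op, sn_op, ite_pos rfl, fs_op, sn_op, ite_neg emp_ne_sing.symm] at e
        exact absurd (op_inj.1 e).1 emp_ne_sing
    · rcases mem_dsum.1 hq with ⟨y, hy, rfl⟩ | ⟨y, hy, rfl⟩
      · dsimp only at e
        rw [fs_op, sn_op, ite_neg emp_ne_sing.symm, fs_op, sn_op, ite_pos rfl] at e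
        exact absurd (op_inj.1 e).1.symm emp_ne_sing
      · dsimp only at e
        rw [fs_op, sn_op, ite_neg emp_ne_sing.symm, fs_op, sn_op, ite_neg emp_ne_sing.symm] at e
        rw [g2 x hx y hy (op_inj.1 e).2]

/-- Infinite well-orderable sets absorb a second copy of themselves. -/
theorem dsum_le_of_wo {x : V} (hx : WO x) (hinf : ¬ Fin' ZFM.E x) : Le (dsum x x) x := by
  obtain ⟨a₀, ha₀, e₀⟩ := hx.elim
  obtain ⟨b, hb, hxb, hmin⟩ := least_ord (P := fun b => Eq' x b) (by fun_prop) ha₀ e₀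
  have hbom : ¬ b ∈ (om : V) := fun hbo => hinf ⟨b, isNat_of_mem_om hbo, hxb⟩
  have hlim : ∀ i ∈ b, suc i ∈ b := by
    intro i hi
    rcases (Od.suc (hb.mem hi)).lin hb with h1 | h1 | h1
    · exact h1
    · exfalso
      apply hmin i hi
      have hio : ¬ i ∈ (om : V) := fun h2 => hbom (h1 ▸ suc_mem_om h2)
      have hsub : ∀ n ∈ (om : V), n ∈ i := by
        intro n hn
        rcases (hb.mem hi).lin od_om with h2 | h2 | h2
        · exact absurd h2 hio
        · rw [h2]; exact hn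
        · exact (hb.mem hi).trans h2 hn
      have hle : Le b i := by
        rw [← h1]
        refine le_iff.2 ⟨fun z => Ite (z = i) emp (Ite (z ∈ (om : V)) (suc z) z), by fun_prop,
          ?_, ?_⟩
        · intro z hz
          dsimp only
          rcases mem_suc.1 hz with h2 | h2
          · have hzi : z ≠ i := fun e => not_mem_self i (e ▸ h2)
            rw [ite_neg hzi]
            by_cases hzo : z ∈ (om : V)
            · rw [ite_pos hzo]; exact hsub _ (suc_mem_om hzo)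
            · rw [ite_neg hzo]; exact h2
          · rw [ite_pos h2]; exact hsub _ emp_mem_om
        · intro z hz w hw e
          dsimp only at e
          have hzi : ∀ z, z ∈ i → z ≠ i := fun z hz e => not_mem_self i (e ▸ hz)
          rcases mem_suc.1 hz with h2 | h2
          · rw [ite_neg (hzi z h2)] at e
            rcases mem_suc.1 hw with h3 | h3
            · rw [ite_neg (hzi w h3)] at e
              by_cases hzo : z ∈ (om : V)
              · rw [ite_pos hzo] at e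
                by_cases hwo : w ∈ (om : V)
                · rw [ite_pos hwo] at e
                  exact suc_inj e
                · rw [ite_neg hwo] at e
                  exact absurd (e ▸ suc_mem_om hzo) hwo
              · rw [ite_neg hzo] at e
                by_cases hwo : w ∈ (om : V)
                · rw [ite_pos hwo] at e
                  exact absurd (e ▸ suc_mem_om hwo) hzo
                · rw [ite_neg hwo] at e
                  exact e
            · rw [ite_pos h3] at e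
              by_cases hzo : z ∈ (om : V)
              · rw [ite_pos hzo] at e
                exact absurd e (suc_ne_emp z)
              · rw [ite_neg hzo] at e
                exact absurd (e ▸ emp_mem_om) hzo
          · rw [ite_pos h2] at e
            rcases mem_suc.1 hw with h3 | h3
            · rw [ite_neg (hzi w h3)] at e
              by_cases hwo : w ∈ (om : V)
              · rw [ite_pos hwo] at e
                exact absurd e.symm (suc_ne_emp w)
              · rw [ite_neg hwo] at e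
                exact absurd (e ▸ emp_mem_om) hwo
            · rw [h2, h3]
      exact Eq'.trans hxb (cantor_bernstein hle (le_of_subset fun z hz => hb.trans hi hz))
    · exfalso
      rcases mem_suc.1 h1 with h2 | h2
      · exact not_mem_mem h2 hi
      · exact not_mem_self i (h2 ▸ hi)
  exact Le.trans (dsum_mono (Eq'.le hxb) (Eq'.le hxb))
    (Le.trans (dsum_le_of_lim hb hlim) (Eq'.le (Eq'.symm hxb)))

theorem le_om_of_fin {x : V} (hx : Fin' ZFM.E x) : Le x om := by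
  obtain ⟨n, hn, e⟩ := hx
  refine Le.trans (Eq'.le e) (le_of_subset fun z hz => ?_)
  -- `n ∈ om` or `n ⊆ om`
  by_contra hcon
  have hno : Od n := hn.1
  have h1 : (om : V) ∈ n ∨ (om : V) = n := by
    rcases hno.lin od_om with h2 | h2 | h2
    · exact absurd (od_om.trans h2 hz) hcon
    · exact Or.inr h2.symm
    · exact Or.inl h2
  rcases hn.2 om h1 with h2 | ⟨k, hk⟩
  · exact h2 _ emp_mem_om
  · have h3 : (om : V) = suc k := ext' fun z => (hk z).trans mem_suc.symm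
    have h4 : k ∈ (om : V) := by rw [h3]; exact mem_suc.2 (Or.inr rfl)
    have h5 := suc_mem_om h4
    rw [← h3] at h5
    exact not_mem_self _ h5

/-- Every infinite set absorbs a second copy of itself. -/
theorem double (h : WFm V) {x : V} (hinf : ¬ Fin' ZFM.E x) : Le (dsum x x) x := by
  by_cases hW : WO x
  · exact dsum_le_of_wo hW hinf
  obtain ⟨a, G, ha, hG, h1, h2, h3⟩ := decomposition' h x
  let N : V := Sep x (fun y => ∃ i ∈ a, y ∈ G i ∧ ∃ z ∈ G i, z ≠ y)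
  let S : V := Sep x (fun y => ∃ i ∈ a, y ∈ G i ∧ ∀ z ∈ G i, z = y)
  have mN : ∀ y, y ∈ N ↔ y ∈ x ∧ ∃ i ∈ a, y ∈ G i ∧ ∃ z ∈ G i, z ≠ y := fun y =>
    mem_sep (by
      have : DF (fun p : (V × V) × V => ¬ (p.2 = p.1.1)) := by fun_prop
      fun_prop)
  have mS : ∀ y, y ∈ S ↔ y ∈ x ∧ ∃ i ∈ a, y ∈ G i ∧ ∀ z ∈ G i, z = y := fun y =>
    mem_sep (by fun_prop)
  have hNS : ∀ y ∈ N, ¬ y ∈ S := by
    intro y hy hy'
    obtain ⟨_, i, hi, hyi, z, hz, hzy⟩ := (mN y).1 hy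
    obtain ⟨_, j, hj, hyj, hall⟩ := (mS y).1 hy'
    have := h3 i hi j hj y hyi hyj
    subst this
    exact hzy (hall z hz)
  have hcov : ∀ y ∈ x, y ∈ S ∨ y ∈ N := by
    intro y hy
    obtain ⟨i, hi, hyi⟩ := h2 y hy
    by_cases h4 : ∀ z ∈ G i, z = y
    · exact Or.inl ((mS y).2 ⟨hy, i, hi, hyi, h4⟩)
    · push Not at h4
      exact Or.inr ((mN y).2 ⟨hy, i, hi, hyi, h4⟩)
  -- `S` is well-orderable
  have hSW : WO S := by
    let I : V → V := fun y => lst (Sep a (fun i => y ∈ G i))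
    have hI : DF I := by simp only [I]; fun_prop
    have hIs : ∀ y ∈ x, I y ∈ a ∧ y ∈ G (I y) := by
      intro y hy
      obtain ⟨i, hi, h1⟩ := h2 y hy
      have := (lst_spec (s := Sep a (fun i => y ∈ G i))
        (fun z hz => ha.mem ((mem_sep (by fun_prop)).1 hz).1)
        ⟨i, (mem_sep (by fun_prop)).2 ⟨hi, h1⟩⟩).1
      exact (mem_sep (P := fun i => y ∈ G i) (by fun_prop)).1 this
    refine wo_of_inj ha hI (fun y hy => (hIs y ((mS y).1 hy).1).1) ?_
    intro y hy y' hy' e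
    obtain ⟨hyx, i, hi, hyi, hall⟩ := (mS y).1 hy
    obtain ⟨h4, h5⟩ := hIs y hyx
    obtain ⟨h4', h5'⟩ := hIs y' ((mS y').1 hy').1
    have e1 := h3 _ h4 i hi y h5 hyi
    rw [← e, e1] at h5'
    exact (hall y' h5').symm
  have hNW : ¬ WO N := fun h4 => hW (wo_of_le (le_of_subset (b := un S N) fun y hy =>
    mem_un.2 (hcov y hy)) (wo_un h hSW h4))
  -- `N` absorbs a second copy
  have hNN : Le (dsum N N) N := by
    let H : V → V := fun i => Sep (G i) (fun y => ∃ z ∈ G i, z ≠ y)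
    have hH : DF H := by
      have : DF (fun p : (V × V) × V => ¬ (p.2 = p.1.2)) := by fun_prop
      simp only [H]; fun_prop
    have mH : ∀ i y, y ∈ H i ↔ y ∈ G i ∧ ∃ z ∈ G i, z ≠ y := fun i y => mem_sep (by
      have : DF (fun p : V × V => ¬ (p.2 = p.1)) := by fun_prop
      fun_prop)
    refine le_of_pieces h ha (G := fun i => dsum (H i) (H i)) (H := H) (by fun_prop) hH
      ?_ ?_ ?_ ?_
    · intro i hi
      by_cases h4 : ∃ y ∈ G i, ∃ z ∈ G i, y ≠ z
      · have h5 : H i = G i := by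
          refine ext' fun y => ?_
          rw [mH]
          refine ⟨fun h => h.1, fun hy => ⟨hy, ?_⟩⟩
          obtain ⟨u, hu, v, hv, huv⟩ := h4
          by_cases h6 : u = y
          · exact ⟨v, hv, fun h7 => huv (h6.trans h7.symm)⟩
          · exact ⟨u, hu, h6⟩
        rw [h5]
        exact dsum_le_of_spl (spl_of_prime h (h1 i hi).1 h4)
      · refine le_of_subset fun p hp => ?_
        exfalso
        push Not at h4
        rcases mem_dsum.1 hp with ⟨y, hy, _⟩ | ⟨y, hy, _⟩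
        · obtain ⟨h5, z, hz, hzy⟩ := (mH i y).1 hy
          exact hzy (h4 z hz y h5)
        · obtain ⟨h5, z, hz, hzy⟩ := (mH i y).1 hy
          exact hzy (h4 z hz y h5)
    · intro p hp
      rcases mem_dsum.1 hp with ⟨y, hy, rfl⟩ | ⟨y, hy, rfl⟩
      · obtain ⟨_, i, hi, hyi, hz⟩ := (mN y).1 hy
        exact ⟨i, hi, mem_dsum.2 (Or.inl ⟨y, (mH i y).2 ⟨hyi, hz⟩, rfl⟩)⟩
      · obtain ⟨_, i, hi, hyi, hz⟩ := (mN y).1 hy
        exact ⟨i, hi, mem_dsum.2 (Or.inr ⟨y, (mH i y).2 ⟨hyi, hz⟩, rfl⟩)⟩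
    · intro i hi z hz
      obtain ⟨h4, h5⟩ := (mH i z).1 hz
      exact (mN z).2 ⟨(h1 i hi).2 z h4, i, hi, h4, h5⟩
    · intro i hi j hj z hzi hzj
      exact h3 i hi j hj z ((mH i z).1 hzi).1 ((mH j z).1 hzj).1
  by_cases hSf : Fin' ZFM.E S
  · -- `x ≤ N`
    have h4 : Le S N := Le.trans (le_om_of_fin hSf) (om_le h hNW)
    obtain ⟨f, hf, f1, f2⟩ := le_iff.1 h4
    have h5 : Le x (dsum N N) := by
      refine le_iff.2 ⟨fun y => Ite (y ∈ S) (op emp (f y)) (op (sing emp) y), by fun_prop, ?_, ?_⟩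
      · intro y hy
        dsimp only
        by_cases h6 : y ∈ S
        · rw [ite_pos h6]; exact mem_dsum.2 (Or.inl ⟨_, f1 y h6, rfl⟩)
        · rw [ite_neg h6]
          exact mem_dsum.2 (Or.inr ⟨_, (hcov y hy).resolve_left h6, rfl⟩)
      · intro y hy z hz e
        dsimp only at e
        by_cases h6 : y ∈ S
        · by_cases h7 : z ∈ S
          · rw [ite_pos h6, ite_pos h7] at e
            exact f2 y h6 z h7 (op_inj.1 e).2
          · rw [ite_pos h6, ite_neg h7] at e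
            exact absurd (op_inj.1 e).1 emp_ne_sing
        · by_cases h7 : z ∈ S
          · rw [ite_neg h6, ite_pos h7] at e
            exact absurd (op_inj.1 e).1.symm emp_ne_sing
          · rw [ite_neg h6, ite_neg h7] at e
            exact (op_inj.1 e).2
    have h6 : Le x N := Le.trans h5 hNN
    exact Le.trans (dsum_mono h6 h6) (Le.trans hNN (le_of_subset fun y hy => ((mN y).1 hy).1))
  · have hSS := dsum_le_of_wo hSW hSf
    obtain ⟨f, hf, f1, f2⟩ := le_iff.1 hSS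
    obtain ⟨g, hg, g1, g2⟩ := le_iff.1 hNN
    have hl : ∀ p ∈ dsum x x, sn p ∈ S → p ∈ dsum S S := by
      intro p hp hs
      rcases mem_dsum.1 hp with ⟨y, hy, rfl⟩ | ⟨y, hy, rfl⟩
      · rw [sn_op] at hs; exact mem_dsum.2 (Or.inl ⟨y, hs, rfl⟩)
      · rw [sn_op] at hs; exact mem_dsum.2 (Or.inr ⟨y, hs, rfl⟩)
    have hr : ∀ p ∈ dsum x x, ¬ sn p ∈ S → p ∈ dsum N N := by
      intro p hp hs
      rcases mem_dsum.1 hp with ⟨y, hy, rfl⟩ | ⟨y, hy, rfl⟩
      · rw [sn_op] at hs; exact mem_dsum.2 (Or.inl ⟨y, (hcov y hy).resolve_left hs, rfl⟩)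
      · rw [sn_op] at hs; exact mem_dsum.2 (Or.inr ⟨y, (hcov y hy).resolve_left hs, rfl⟩)
    refine le_iff.2 ⟨fun p => Ite (sn p ∈ S) (f p) (g p), by fun_prop, ?_, ?_⟩
    · intro p hp
      dsimp only
      by_cases h6 : sn p ∈ S
      · rw [ite_pos h6]; exact ((mS _).1 (f1 p (hl p hp h6))).1
      · rw [ite_neg h6]; exact ((mN _).1 (g1 p (hr p hp h6))).1
    · intro p hp q hq e
      dsimp only at e
      by_cases h6 : sn p ∈ S
      · by_cases h7 : sn q ∈ S
        · rw [ite_pos h6, ite_pos h7] at e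
          exact f2 p (hl p hp h6) q (hl q hq h7) e
        · rw [ite_pos h6, ite_neg h7] at e
          exact absurd (f1 p (hl p hp h6)) (e ▸ hNS _ (g1 q (hr q hq h7)))
      · by_cases h7 : sn q ∈ S
        · rw [ite_neg h6, ite_pos h7] at e
          exact absurd (f1 q (hl q hq h7)) (e ▸ hNS _ (g1 p (hr p hp h6)))
        · rw [ite_neg h6, ite_neg h7] at e
          exact g2 p (hr p hp h6) q (hr q hq h7) e

theorem spl_of_dsum {x : V} (h : Le (dsum x x) x) : Spl x := by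
  obtain ⟨f, hf, f1, f2⟩ := le_iff.1 h
  have hl : ∀ y ∈ x, op emp y ∈ dsum x x := fun y hy => mem_dsum.2 (Or.inl ⟨y, hy, rfl⟩)
  have hr : ∀ y ∈ x, op (sing emp) y ∈ dsum x x := fun y hy => mem_dsum.2 (Or.inr ⟨y, hy, rfl⟩)
  refine spl_of_lg (A := Img x (fun y => f (op emp y))) (B := Img x (fun y => f (op (sing emp) y)))
    ⟨?_, ?_⟩ ⟨?_, ?_⟩ ?_
  · intro z hz
    obtain ⟨y, hy, rfl⟩ := (mem_img (by fun_prop)).1 hz
    exact f1 _ (hl y hy)
  · refine le_iff.2 ⟨fun y => f (op emp y), by fun_prop, fun y hy =>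
      (mem_img (by fun_prop)).2 ⟨y, hy, rfl⟩, fun y hy z hz e => ?_⟩
    exact (op_inj.1 (f2 _ (hl y hy) _ (hl z hz) e)).2
  · intro z hz
    obtain ⟨y, hy, rfl⟩ := (mem_img (by fun_prop)).1 hz
    exact f1 _ (hr y hy)
  · refine le_iff.2 ⟨fun y => f (op (sing emp) y), by fun_prop, fun y hy =>
      (mem_img (by fun_prop)).2 ⟨y, hy, rfl⟩, fun y hy z hz e => ?_⟩
    exact (op_inj.1 (f2 _ (hr y hy) _ (hr z hz) e)).2
  · intro z hz hz'
    obtain ⟨y, hy, rfl⟩ := (mem_img (by fun_prop)).1 hz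
    obtain ⟨w, hw, e⟩ := (mem_img (by fun_prop)).1 hz'
    exact emp_ne_sing (op_inj.1 (f2 _ (hl y hy) _ (hr w hw) e)).1

end

end Pool.Agent.H83.ZF
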