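import Pool.Agent.H83.ZF.Double

/-! The final statements in terms of a relation `E`. -/

set_option autoImplicit false

open Set

namespace Pool.Agent.H83.ZF

universe u v

/-- `C` is a class definable (with parameters) in the structure `(V, E)`. -/
def Def1 {V : Type u} (E : V → V → Prop) (C : V → Prop) : Prop :=
  @Set.Definable₁ V Set.univ LS (str E) {x | C x}

/-- The principle `WF^i_b1`: every non-empty set `K` of sets has a member `k` such that every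
member `l` of `K` with `|l| ≤ |k|` satisfies `|l| = |k|`. -/
def WFi {V : Type u} (E : V → V → Prop) : Prop :=
  ∀ K, (∃ x, E x K) → ∃ k, E k K ∧ ∀ l, E l K → LeI E l k → EqC E l k

/-- The partition principle: `|x| ≤* |y|` implies `|x| ≤ |y|`. -/
def PPr {V : Type u} (E : V → V → Prop) : Prop := ∀ x y, LeS E x y → LeI E x y

/-- `x` is the union of two disjoint sets, each equipotent to `x`. -/
def Splits {V : Type u} (E : V → V → Prop) (x : V) : Prop :=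
  ∃ a b, (∀ y, E y x ↔ E y a ∨ E y b) ∧ (∀ y, E y a → ¬ E y b) ∧ EqC E a x ∧ EqC E b x

section

variable {V : Type u} [ZFM V]

theorem df_of_def1 {C : V → Prop} (h : Def1 (ZFM.E (V := V)) C) : DF C :=
  Set.Definable.preimage_comp (L := LS) (A := (Set.univ : Set V))
    (fun _ : Fin 1 => (() : Unit)) h

/-- A set of pairwise non-equipotent primes is well-orderable. -/
theorem wo_of_primes (h : WFm V) {K : V} (hK : ∀ k ∈ K, Pr k)
    (hd : ∀ k ∈ K, ∀ k' ∈ K, Eq' k k' → k = k') : WO K := by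
  obtain ⟨F, hF, hFe⟩ := recursion (V := V)
    (G := fun f => Sep (Sep K (fun x => ∀ p ∈ f, ¬ x ∈ sn p))
      (fun x => ∀ y ∈ Sep K (fun x => ∀ p ∈ f, ¬ x ∈ sn p), Le y x → y = x)) (by fun_prop)
  let R : V → V := fun a => Sep K (fun x => ∀ b ∈ a, ¬ x ∈ F b)
  have hR : DF R := by simp only [R]; fun_prop
  have mR : ∀ a x, x ∈ R a ↔ x ∈ K ∧ ∀ b ∈ a, ¬ x ∈ F b := fun a x => mem_sep (by fun_prop)
  have mF : ∀ a, Od a → ∀ x, x ∈ F a ↔ x ∈ R a ∧ ∀ y ∈ R a, Le y x → y = x := by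
    intro a ha x
    have e : Sep K (fun x => ∀ p ∈ lam a F, ¬ x ∈ sn p) = R a := by
      refine ext' fun z => ?_
      rw [mem_sep (by fun_prop), mR]
      refine and_congr_right fun _ => ?_
      constructor
      · intro h1 b hb hz
        exact h1 (op b (F b)) ((mem_lam hF).2 ⟨b, hb, rfl⟩) (by rw [sn_op]; exact hz)
      · intro h1 p hp
        obtain ⟨b, hb, rfl⟩ := (mem_lam hF).1 hp
        rw [sn_op]; exact h1 b hb
    rw [hFe a ha, e, mem_sep (by fun_prop)]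
  have hFK : ∀ a, Od a → ∀ x ∈ F a, x ∈ K := fun a ha x hx =>
    ((mR a x).1 ((mF a ha x).1 hx).1).1
  have hfin : ∀ a, Od a → WO (F a) := by
    intro a ha
    obtain ⟨B, ⟨n, hn, e⟩, hB2, _, hB4⟩ := finite_reps h (M := fun x => x ∈ F a) (by fun_prop)
      (fun x hx => hK x (hFK a ha x hx)) (fun x y hx hy hle => by
        rw [((mF a ha y).1 hy).2 x ((mF a ha x).1 hx).1 hle]; exact Eq'.refl _)
    refine wo_of_le (le_of_subset (b := B) fun x hx => ?_) ⟨n, hn.1, e⟩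
    obtain ⟨b, hb, e'⟩ := hB4 x hx
    rw [← hd b (hFK a ha b (hB2 b hb)) x (hFK a ha x hx) e']; exact hb
  refine wo_union h (od_hart (pow K)) hF (fun a ha => hfin a ((od_hart _).mem ha)) ?_
  intro x hx
  by_contra hcon
  push Not at hcon
  apply not_hart_le (pow K)
  have hne : ∀ a ∈ hart (pow K), ∃ y, y ∈ F a := by
    intro a ha
    have hao := (od_hart _).mem ha
    obtain ⟨k, hk, hmin⟩ := h.min (K := R a) ⟨x, (mR a x).2 ⟨hx, fun b hb =>
      hcon b ((od_hart _).trans ha hb)⟩⟩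
    refine ⟨k, (mF a hao k).2 ⟨hk, fun y hy hle => ?_⟩⟩
    exact hd y ((mR a y).1 hy).1 k ((mR a k).1 hk).1 (hmin y hy (Le.ls hle))
  refine le_iff.2 ⟨F, hF, fun a ha => mem_pow.2 (hFK a ((od_hart _).mem ha)), ?_⟩
  intro a ha b hb e
  rcases (od_hart _).tri ha hb with h1 | h1 | h1
  · obtain ⟨y, hy⟩ := hne b hb
    exact absurd (e ▸ hy) (((mR b y).1 ((mF b ((od_hart _).mem hb) y).1 hy).1).2 a h1)
  · exact h1
  · obtain ⟨y, hy⟩ := hne a ha
    exact absurd (e ▸ hy) (((mR a y).1 ((mF a ((od_hart _).mem ha) y).1 hy).1).2 b h1)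

theorem two_of_not_wo {x : V} (hx : ¬ WO x) : ∃ y ∈ x, ∃ z ∈ x, y ≠ z := by
  by_contra hcon
  push Not at hcon
  exact hx (wo_of_inj (Od.suc od_emp) (F := fun _ => emp) (by fun_prop)
    (fun _ _ => mem_suc.2 (Or.inr rfl)) (fun y hy z hz _ => hcon y hy z hz))

end

section

variable {V : Type u} {E : V → V → Prop}

theorem final_pp (hE : IsZF E) : WFs E ↔ PPr E ∧ WFi E := by
  let _ : ZFM V := ⟨E, hE⟩
  constructor
  · intro h
    refine ⟨fun x y hxy => pp (V := V) h hxy, fun K hK => ?_⟩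
    obtain ⟨k, hk, hmin⟩ := h K hK
    exact ⟨k, hk, fun l hl hle => hmin l hl (Le.ls (V := V) hle)⟩
  · rintro ⟨h1, h2⟩ K hK
    obtain ⟨k, hk, hmin⟩ := h2 K hK
    exact ⟨k, hk, fun l hl hle => hmin l hl (h1 l k hle)⟩

theorem final_double (hE : IsZF E) (h : WFs E) (x : V) (hx : ¬ Fin' E x) : Splits E x := by
  let _ : ZFM V := ⟨E, hE⟩
  exact spl_of_dsum (V := V) (double (V := V) h hx)

theorem final_prime (hE : IsZF E) (h : WFs E) (x : V) :
    ∃ D, WOble E D ∧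
      (∀ d, E d D → Sub E d x ∧ IsPrime E d ∧ ((∃ y, ∀ z, E z d ↔ z = y) ∨ Splits E d)) ∧
      ∀ y, E y x → ∃ d, E d D ∧ E y d ∧ ∀ d', E d' D → E y d' → d' = d := by
  let _ : ZFM V := ⟨E, hE⟩
  obtain ⟨D, h1, h2, h3⟩ := decomposition (V := V) h x
  refine ⟨D, h1, fun d hd => ⟨(h2 d hd).2, (h2 d hd).1, ?_⟩, h3⟩
  by_cases h4 : ∃ y ∈ d, ∃ z ∈ d, y ≠ z
  · exact Or.inr (spl_of_prime (V := V) h (h2 d hd).1 h4)
  · left
    push Not at h4
    obtain ⟨y, hy⟩ := (h2 d hd).1.1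
    refine ⟨y, fun z => ⟨fun hz => h4 z hz y hy, ?_⟩⟩
    rintro rfl
    exact hy

theorem final_basis (hE : IsZF E) (h : WFs E) (C : V → Prop) (hC : Def1 E C)
    (hpr : ∀ x, C x → IsPrime E x) :
    ∃ B, Fin' E B ∧ (∀ b, E b B → C b) ∧ ∀ x, C x → ∃ b, E b B ∧ LeI E b x := by
  let _ : ZFM V := ⟨E, hE⟩
  obtain ⟨B, h1, h2, h3⟩ := finite_basis (V := V) h (df_of_def1 hC) hpr
  exact ⟨B, h1, h2, h3⟩

theorem final_wo (hE : IsZF E) (h : WFs E) (K : V) (hK : ∀ k, E k K → IsPrime E k)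
    (hd : ∀ k l, E k K → E l K → EqC E k l → k = l) : WOble E K := by
  let _ : ZFM V := ⟨E, hE⟩
  exact wo_of_primes (V := V) h hK fun k hk l hl => hd k l hk hl

theorem final_failure (hE : IsZF E) (h : WFs E) :
    ∃ B, Fin' E B ∧ (∀ b, E b B → IsMin E b ∧ Splits E b) ∧
      (∀ b, E b B → ∀ b', E b' B → LeS E b b' → b = b') ∧
      (∀ x, ¬ WOble E x ↔ ∃ b, E b B ∧ LeI E b x) ∧
      ((∃ x, ¬ WOble E x) → ∃ b, E b B ∧
        ∃ o Y, IsOrd E o ∧ (∀ y, E y Y → Sub E y o) ∧ EqC E b Y) := by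
  let _ : ZFM V := ⟨E, hE⟩
  obtain ⟨B, h1, h2, h3, h4⟩ := nonwo_basis (V := V) h
  refine ⟨B, h1, fun b hb => ⟨h2 b hb, ?_⟩, h3, h4, ?_⟩
  · exact spl_of_prime (V := V) h (mn_prime h (h2 b hb)) (two_of_not_wo (h2 b hb).1)
  rintro ⟨x, hx⟩
  obtain ⟨o, Y, ho, hY, hYo⟩ := exists_mn_pow (V := V) h hx
  obtain ⟨b, hb, hle⟩ := (h4 Y).1 hY.1
  exact ⟨b, hb, o, Y, ho, hYo, mn_ls (h2 b hb) hY (Le.ls hle)⟩

end

end Pool.Agent.H83.ZF
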