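import Pool.Agent.H83.ZF.Ord

/-! Hartogs numbers and well-orderable sets in a model of ZF. -/

set_option autoImplicit false

open Set

namespace Pool.Agent.H83.ZF

universe u v

section

variable {V : Type u} [ZFM V]

private theorem hart_uniq {r a b f g : V} (ha : Od a) (hb : Od b)
    (hf : ∀ x ∈ a, ∀ y ∈ a, app f x = app f y → x = y)
    (hg : ∀ x ∈ b, ∀ y ∈ b, app g x = app g y → x = y)
    (hrf : ∀ p, p ∈ r ↔ ∃ c ∈ a, ∃ d ∈ a, (c ∈ d ∨ c = d) ∧ p = op (app f c) (app f d))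
    (hrg : ∀ p, p ∈ r ↔ ∃ c ∈ b, ∃ d ∈ b, (c ∈ d ∨ c = d) ∧ p = op (app g c) (app g d)) :
    ∀ x, Od x → x ∈ a → ∀ y ∈ b, app f x = app g y → x = y := by
  -- partners
  have pf : ∀ x ∈ a, ∃ y ∈ b, app f x = app g y := by
    intro x hx
    obtain ⟨c, hc, d, hd, _, h2⟩ := (hrg _).1 ((hrf _).2 ⟨x, hx, x, hx, Or.inr rfl, rfl⟩)
    exact ⟨c, hc, (op_inj.1 h2).1⟩
  have pg : ∀ y ∈ b, ∃ x ∈ a, app f x = app g y := by
    intro y hy
    obtain ⟨c, hc, d, hd, _, h2⟩ := (hrf _).1 ((hrg _).2 ⟨y, hy, y, hy, Or.inr rfl, rfl⟩)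
    exact ⟨c, hc, (op_inj.1 h2).1.symm⟩
  have ord : ∀ x ∈ a, ∀ x' ∈ a, ∀ y ∈ b, ∀ y' ∈ b, app f x = app g y → app f x' = app g y' →
      (x ∈ x' ↔ y ∈ y') := by
    intro x hx x' hx' y hy y' hy' e e'
    constructor
    · intro h
      obtain ⟨c, hc, d, hd, h1, h2⟩ := (hrg _).1 ((hrf _).2 ⟨x, hx, x', hx', Or.inl h, rfl⟩)
      obtain ⟨e1, e2⟩ := op_inj.1 h2
      have : c = y := hg c hc y hy (e1.symm.trans e)
      have h4 : d = y' := hg d hd y' hy' (e2.symm.trans e')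
      subst this; subst h4
      rcases h1 with h1 | rfl
      · exact h1
      · exfalso
        have : x = x' := hf x hx x' hx' (e.trans e'.symm)
        subst this
        exact not_mem_self _ h
    · intro h
      obtain ⟨c, hc, d, hd, h1, h2⟩ := (hrf _).1 ((hrg _).2 ⟨y, hy, y', hy', Or.inl h, rfl⟩)
      obtain ⟨e1, e2⟩ := op_inj.1 h2
      have : c = x := hf c hc x hx (e1.symm.trans e.symm)
      have h4 : d = x' := hf d hd x' hx' (e2.symm.trans e'.symm)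
      subst this; subst h4
      rcases h1 with h1 | rfl
      · exact h1
      · exfalso
        have : y = y' := hg y hy y' hy' (e.symm.trans e')
        subst this
        exact not_mem_self _ h
  intro x hx
  refine ord_ind (P := fun x => x ∈ a → ∀ y ∈ b, app f x = app g y → x = y) (by fun_prop) ?_ hx
  intro x hx ih hxa y hyb e
  apply ext'
  intro z
  constructor
  · intro hz
    have hza := ha.trans hxa hz
    obtain ⟨w, hw, e'⟩ := pf z hza
    have h1 := ih z hz hza w hw e'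
    subst h1
    exact (ord z hza x hxa z hw y hyb e' e).1 hz
  · intro hz
    have hzb := hb.trans hyb hz
    obtain ⟨w, hw, e'⟩ := pg z hzb
    have h2 := (ord w hw x hxa z hzb y hyb e' e).2 hz
    have h1 := ih w h2 hw z hzb e'
    subst h1
    exact h2

private theorem hart_set (X : V) : ∃ h : V, ∀ a, a ∈ h ↔ Od a ∧ Le a X := by
  let R : V → V → Prop := fun r a => Od a ∧ ∃ f, (∀ x ∈ a, app f x ∈ X) ∧
    (∀ x ∈ a, ∀ y ∈ a, app f x = app f y → x = y) ∧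
    ∀ p, p ∈ r ↔ ∃ c ∈ a, ∃ d ∈ a, (c ∈ d ∨ c = d) ∧ p = op (app f c) (app f d)
  have hR : DF (fun p : V × V => R p.1 p.2) := by
    simp only [R]; fun_prop
  obtain ⟨h, hh⟩ := replacement hR (pow (prod X X)) (by
    rintro r _ a b ⟨ha, f, f1, f2, f3⟩ ⟨hb, g, g1, g2, g3⟩
    have h1 := hart_uniq ha hb f2 g2 f3 g3
    have h2 := hart_uniq hb ha g2 f2 g3 f3
    apply ext'
    intro z
    constructor
    · intro hz
      obtain ⟨c, hc, d, hd, _, e⟩ := (g3 _).1 ((f3 _).2 ⟨z, hz, z, hz, Or.inr rfl, rfl⟩)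
      rw [h1 z (ha.mem hz) hz c hc (op_inj.1 e).1]
      exact hc
    · intro hz
      obtain ⟨c, hc, d, hd, _, e⟩ := (f3 _).1 ((g3 _).2 ⟨z, hz, z, hz, Or.inr rfl, rfl⟩)
      rw [h2 z (hb.mem hz) hz c hc (op_inj.1 e).1]
      exact hc)
  refine ⟨h, fun a => ?_⟩
  rw [hh]
  constructor
  · rintro ⟨r, _, ha, f, f1, f2, _⟩
    exact ⟨ha, le_iff.2 ⟨app f, by fun_prop, f1, f2⟩⟩
  · rintro ⟨ha, hle⟩
    obtain ⟨F, hF, h1, h2⟩ := le_iff.1 hle
    have happ : ∀ x ∈ a, app (lam a F) x = F x := fun x hx => app_lam hF hx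
    refine ⟨Sep (prod X X) (fun p => ∃ c ∈ a, ∃ d ∈ a, (c ∈ d ∨ c = d) ∧ p = op (F c) (F d)),
      ?_, ha, lam a F, ?_, ?_, ?_⟩
    · rw [mem_pow]
      intro w hw
      exact ((mem_sep (by fun_prop)).1 hw).1
    · intro x hx; rw [happ x hx]; exact h1 x hx
    · intro x hx y hy e; rw [happ x hx, happ y hy] at e; exact h2 x hx y hy e
    · intro p
      rw [mem_sep (by fun_prop)]
      constructor
      · rintro ⟨_, c, hc, d, hd, h3, rfl⟩
        exact ⟨c, hc, d, hd, h3, by rw [happ c hc, happ d hd]⟩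
      · rintro ⟨c, hc, d, hd, h3, rfl⟩
        rw [happ c hc, happ d hd]
        exact ⟨op_mem_prod.2 ⟨h1 c hc, h1 d hd⟩, c, hc, d, hd, h3, rfl⟩

/-- the Hartogs number of `X`: the set of the ordinals `a` with `|a| ≤ |X|` -/
noncomputable def hart (X : V) : V := SetOf (fun a => Od a ∧ Le a X)

theorem mem_hart {X a : V} : a ∈ hart X ↔ Od a ∧ Le a X := mem_setOf_of (hart_set X) a

@[fun_prop]
theorem DF.hart {Γ : Type u} [Ctx V Γ] {f : Γ → V} (hf : DF f) : DF (fun a => hart (f a)) := by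
  unfold Pool.Agent.H83.ZF.hart; fun_prop

theorem od_hart (X : V) : Od (hart X) := by
  apply od_of_trans
  · intro y hy z hz
    obtain ⟨h1, h2⟩ := mem_hart.1 hy
    exact mem_hart.2 ⟨h1.mem hz, (le_of_subset fun x hx => h1.trans hz hx).trans h2⟩
  · intro y hy
    exact (mem_hart.1 hy).1

theorem not_hart_le (X : V) : ¬ Le (hart X) X := by
  intro h
  exact not_mem_self (hart X) (mem_hart.2 ⟨od_hart X, h⟩)

/-- Zermelo: a set whose non-empty subsets have a definable choice function is well-orderable. -/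
theorem zermelo {X : V} {c : V → V} (hc : DF c)
    (h : ∀ s : V, (∃ y, y ∈ s) → (∀ y ∈ s, y ∈ X) → c s ∈ s) : WO X := by
  -- G f = c (X \ range f)
  let G : V → V := fun f => Ite (∃ y ∈ X, ¬ ∃ p ∈ f, sn p = y)
    (c (Sep X (fun y => ¬ ∃ p ∈ f, sn p = y))) X
  have hG : DF G := by simp only [G]; fun_prop
  obtain ⟨F, hF, hFe⟩ := recursion hG
  have hmem : ∀ a y, y ∈ Sep X (fun y => ¬ ∃ p ∈ lam a F, sn p = y) ↔
      y ∈ X ∧ ∀ b ∈ a, F b ≠ y := by
    intro a y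
    rw [mem_sep (by fun_prop)]
    refine and_congr_right fun _ => ?_
    constructor
    · intro h1 b hb e
      exact h1 ⟨op b (F b), (mem_lam hF).2 ⟨b, hb, rfl⟩, by rw [sn_op, e]⟩
    · rintro h1 ⟨p, hp, e⟩
      obtain ⟨b, hb, rfl⟩ := (mem_lam hF).1 hp
      rw [sn_op] at e
      exact h1 b hb e
  have hcase : ∀ a, Od a → (∃ y ∈ X, ∀ b ∈ a, F b ≠ y) → F a ∈ X ∧ ∀ b ∈ a, F b ≠ F a := by
    intro a ha ⟨y, hy, h1⟩
    have h2 : ∃ y ∈ X, ¬ ∃ p ∈ lam a F, sn p = y :=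
      ⟨y, hy, ((mem_sep (P := fun y => ¬ ∃ p ∈ lam a F, sn p = y) (by fun_prop)).1
        ((hmem a y).2 ⟨hy, h1⟩)).2⟩
    have h3 : F a = c (Sep X (fun y => ¬ ∃ p ∈ lam a F, sn p = y)) := by
      rw [hFe a ha]; exact ite_pos h2 _ _
    have h4 := h (Sep X (fun y => ¬ ∃ p ∈ lam a F, sn p = y)) ⟨y, (hmem a y).2 ⟨hy, h1⟩⟩
      (fun z hz => ((hmem a z).1 hz).1)
    rw [← h3] at h4
    exact (hmem a _).1 h4
  -- if never exhausted, `hart X` injects into `X`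
  have hex : ∃ a : V, Od a ∧ ¬ ∃ y ∈ X, ∀ b ∈ a, F b ≠ y := by
    by_contra hcon
    push Not at hcon
    have h5 : ∀ a, Od a → F a ∈ X ∧ ∀ b ∈ a, F b ≠ F a := fun a ha => hcase a ha (hcon a ha)
    apply not_hart_le X
    refine le_iff.2 ⟨F, hF, fun x hx => (h5 x ((od_hart X).mem hx)).1, ?_⟩
    intro x hx y hy e
    rcases (od_hart X).tri hx hy with h6 | h6 | h6
    · exact absurd e ((h5 y ((od_hart X).mem hy)).2 x h6)
    · exact h6
    · exact absurd e.symm ((h5 x ((od_hart X).mem hx)).2 y h6)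
  obtain ⟨a₀, ha₀, h0⟩ := hex
  obtain ⟨a, ha, h1, h2⟩ := least_ord (P := fun a => ¬ ∃ y ∈ X, ∀ b ∈ a, F b ≠ y) (by fun_prop)
    ha₀ h0
  have h3 : ∀ b ∈ a, F b ∈ X ∧ ∀ d ∈ b, F d ≠ F b := fun b hb =>
    hcase b (ha.mem hb) (by_contra fun h4 => h2 b hb h4)
  refine ⟨a, ha, Eq'.symm (eq_iff.2 ⟨F, hF, fun b hb => (h3 b hb).1, ?_, ?_⟩)⟩
  · intro x hx y hy e
    rcases ha.tri hx hy with h6 | h6 | h6
    · exact absurd e ((h3 y hy).2 x h6)
    · exact h6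
    · exact absurd e.symm ((h3 x hx).2 y h6)
  · intro y hy
    by_contra h4
    apply h1
    exact ⟨y, hy, fun b hb e => h4 ⟨b, hb, e⟩⟩

theorem WO.elim {X : V} (h : WO X) : ∃ a, Od a ∧ Eq' X a := h

/-- least element of a set of ordinals -/
noncomputable def lst (s : V) : V := The (fun x => x ∈ s ∧ ∀ y ∈ s, ¬ y ∈ x)

@[fun_prop]
theorem DF.lst {Γ : Type u} [Ctx V Γ] {f : Γ → V} (hf : DF f) : DF (fun a => lst (f a)) := by
  unfold Pool.Agent.H83.ZF.lst; fun_prop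

theorem lst_spec {s : V} (hs : ∀ x ∈ s, Od x) (hne : ∃ x, x ∈ s) :
    lst s ∈ s ∧ ∀ y ∈ s, ¬ y ∈ lst s := by
  obtain ⟨m, hm, hmin⟩ := exists_min hne
  refine the_spec (Q := fun x => x ∈ s ∧ ∀ y ∈ s, ¬ y ∈ x) ⟨m, ⟨hm, hmin⟩, ?_⟩
  rintro y ⟨h1, h2⟩
  rcases (hs y h1).lin (hs m hm) with h | h | h
  · exact absurd h (hmin y h1)
  · exact h
  · exact absurd h (h2 m hm)

/-- A set with a definable injection into an ordinal is well-orderable. -/
theorem wo_of_inj {X a : V} (ha : Od a) {F : V → V} (hF : DF F) (h1 : ∀ x ∈ X, F x ∈ a)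
    (h2 : ∀ x ∈ X, ∀ y ∈ X, F x = F y → x = y) : WO X := by
  refine zermelo (c := fun s => inv s F (lst (Img s F))) ?_ ?_
  · exact df_inv (Γ := V) (f := fun s => s) (g := fun s => lst (Img s F)) (F := fun _ => F)
      (by fun_prop) (by fun_prop) (by fun_prop)
  · intro s hs hsX
    have h3 : ∀ x ∈ Img s F, Od x := by
      intro x hx
      obtain ⟨y, hy, rfl⟩ := (mem_img hF).1 hx
      exact ha.mem (h1 y (hsX y hy))
    have h4 : ∃ x, x ∈ Img s F := by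
      obtain ⟨y, hy⟩ := hs
      exact ⟨F y, (mem_img hF).2 ⟨y, hy, rfl⟩⟩
    obtain ⟨y, hy, h5⟩ := (mem_img hF).1 (lst_spec h3 h4).1
    rw [h5, inv_app (fun x hx y hy e => h2 x (hsX x hx) y (hsX y hy) e) hy]
    exact hy

theorem wo_of_le {X Y : V} (h : Le X Y) (hY : WO Y) : WO X := by
  obtain ⟨a, ha, h1⟩ := hY.elim
  obtain ⟨F, hF, h2, h3⟩ := le_iff.1 (Le.trans h (Eq'.le h1))
  exact wo_of_inj ha hF h2 h3

theorem wo_iff {X : V} : WO X ↔ ∃ a, Od a ∧ Le X a :=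
  ⟨fun ⟨a, ha, h⟩ => ⟨a, ha, Eq'.le h⟩, fun ⟨a, ha, h⟩ => wo_of_le h ⟨a, ha, Eq'.refl a⟩⟩

theorem wo_of_od {a : V} (h : Od a) : WO a := ⟨a, h, Eq'.refl a⟩

/-- A surjective image of a well-orderable set is well-orderable. -/
theorem wo_of_ls {X Y : V} (h : Ls X Y) (hY : WO Y) : WO X := by
  rcases ls_iff.1 h with h | ⟨F, hF, h1, h2⟩
  · refine ⟨emp, od_emp, eq_iff.2 ⟨fun x => x, by fun_prop, fun x hx => absurd hx (h x),
      fun _ _ _ _ e => e, fun y hy => absurd hy (not_mem_emp y)⟩⟩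
  · obtain ⟨a, ha, h3⟩ := hY.elim
    obtain ⟨G, hG, g1, g2, g3⟩ := eq_iff.1 (Eq'.symm h3)
    -- G : a → Y bijection; send x to the least ordinal b with F (G b) = x
    let K : V → V := fun x => lst (Sep a (fun b => F (G b) = x))
    have hK : DF K := by simp only [K]; fun_prop
    have hS : ∀ x b, b ∈ Sep a (fun b => F (G b) = x) ↔ b ∈ a ∧ F (G b) = x :=
      fun x b => mem_sep (by fun_prop)
    have hKs : ∀ x ∈ X, K x ∈ a ∧ F (G (K x)) = x := by
      intro x hx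
      obtain ⟨y, hy, e⟩ := h2 x hx
      obtain ⟨b, hb, e'⟩ := g3 y hy
      have := lst_spec (s := Sep a (fun b => F (G b) = x))
        (fun z hz => ha.mem ((hS x z).1 hz).1) ⟨b, (hS x b).2 ⟨hb, by rw [e', e]⟩⟩
      exact (hS x _).1 this.1
    refine wo_of_inj ha hK (fun x hx => (hKs x hx).1) ?_
    intro x hx y hy e
    rw [← (hKs x hx).2, ← (hKs y hy).2, e]

/-- The product of two ordinals is well-orderable. -/
theorem wo_prod_od {a b : V} (ha : Od a) (hb : Od b) : WO (prod a b) := by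
  refine zermelo (c := fun s => op (lst (Img s fs))
    (lst (Sep b (fun y => op (lst (Img s fs)) y ∈ s)))) (by fun_prop) ?_
  intro s hs hsX
  have h3 : ∀ x ∈ Img s fs, x ∈ a := by
    intro x hx
    obtain ⟨p, hp, rfl⟩ := (mem_img (by fun_prop)).1 hx
    obtain ⟨i, y, hi, hy, rfl⟩ := mem_prod.1 (hsX p hp)
    rwa [fs_op]
  have h4 : ∃ x, x ∈ Img s fs := by
    obtain ⟨p, hp⟩ := hs
    exact ⟨fs p, (mem_img (by fun_prop)).2 ⟨p, hp, rfl⟩⟩
  have h5 := (lst_spec (fun x hx => ha.mem (h3 x hx)) h4).1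
  obtain ⟨p, hp, h6⟩ := (mem_img (by fun_prop)).1 h5
  obtain ⟨i, y, hi, hy, rfl⟩ := mem_prod.1 (hsX p hp)
  rw [fs_op] at h6
  have h7 := (lst_spec (s := Sep b (fun y => op (lst (Img s fs)) y ∈ s))
    (fun x hx => hb.mem ((mem_sep (by fun_prop)).1 hx).1)
    ⟨y, (mem_sep (by fun_prop)).2 ⟨hy, by rw [h6]; exact hp⟩⟩).1
  exact ((mem_sep (by fun_prop)).1 h7).2

theorem le_prod {a b c d : V} (h : Le a b) (h' : Le c d) : Le (prod a c) (prod b d) := by
  obtain ⟨F, hF, h1, h2⟩ := le_iff.1 h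
  obtain ⟨G, hG, k1, k2⟩ := le_iff.1 h'
  refine le_iff.2 ⟨fun p => op (F (fs p)) (G (sn p)), by fun_prop, ?_, ?_⟩
  · intro p hp
    obtain ⟨i, y, hi, hy, rfl⟩ := mem_prod.1 hp
    simp only [fs_op, sn_op]
    exact op_mem_prod.2 ⟨h1 i hi, k1 y hy⟩
  · intro p hp q hq e
    obtain ⟨i, y, hi, hy, rfl⟩ := mem_prod.1 hp
    obtain ⟨j, z, hj, hz, rfl⟩ := mem_prod.1 hq
    simp only [fs_op, sn_op] at e
    obtain ⟨e1, e2⟩ := op_inj.1 e
    rw [h2 i hi j hj e1, k2 y hy z hz e2]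

theorem wo_prod {X Y : V} (hX : WO X) (hY : WO Y) : WO (prod X Y) := by
  obtain ⟨a, ha, h1⟩ := wo_iff.1 hX
  obtain ⟨b, hb, h2⟩ := wo_iff.1 hY
  exact wo_of_le (le_prod h1 h2) (wo_prod_od ha hb)

end

end Pool.Agent.H83.ZF
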