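import Pool.Agent.H83.ZF.Prime

/-! Minimal non-well-orderable cardinals under `WF^s_b1`. -/

set_option autoImplicit false

open Set

namespace Pool.Agent.H83.ZF

universe u v

section

variable {V : Type u} [ZFM V]

abbrev Mn (x : V) : Prop := IsMin ZFM.E x

theorem mn_of_eq {x y : V} (h : Mn x) (e : Eq' x y) : Mn y := by
  refine ⟨fun h1 => h.1 (wo_of_le (Eq'.le e) h1), fun z hz => ?_⟩
  rcases h.2 z (Ls.trans hz (Eq'.ls (Eq'.symm e))) with h2 | h2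
  · exact Or.inl h2
  · exact Or.inr (Eq'.trans h2 e)

theorem not_wo_nonempty {x : V} (h : ¬ WO x) : ∃ y, y ∈ x := by
  by_contra hcon
  push Not at hcon
  apply h
  have : x = emp := ext' fun z => iff_of_false (hcon z) (not_mem_emp z)
  rw [this]; exact wo_of_od od_emp

/-- A minimal non-well-orderable set is prime. -/
theorem mn_prime (h : WFm V) {x : V} (hx : Mn x) : Pr x := by
  refine ⟨not_wo_nonempty hx.1, fun D hD h1 h2 => ?_⟩
  by_contra hcon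
  push Not at hcon
  apply hx.1
  obtain ⟨a, ha, e⟩ := WO.elim hD
  obtain ⟨G, hG, G1, G2, G3⟩ := eq_iff.1 (Eq'.symm e)
  refine wo_union h ha hG ?_ ?_
  · intro i hi
    rcases hx.2 (G i) (Le.ls (le_of_subset (h1 _ (G1 i hi)))) with h3 | h3
    · exact h3
    · exact absurd h3 (hcon _ (G1 i hi))
  · intro y hy
    obtain ⟨d, hd, hyd⟩ := h2 y hy
    obtain ⟨i, hi, rfl⟩ := G3 d hd
    exact ⟨i, hi, hyd⟩

/-- A quotient of `x` is equipotent to a set of subsets of `x`. -/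
theorem quot_rep {x y : V} (h : Ls y x) : ∃ z ∈ pow (pow x), Eq' y z := by
  rcases ls_iff.1 h with h0 | ⟨F, hF, h1, h2⟩
  · refine ⟨emp, mem_pow.2 fun w hw => absurd hw (not_mem_emp w), ?_⟩
    have : y = emp := ext' fun z => iff_of_false (h0 z) (not_mem_emp z)
    rw [this]; exact Eq'.refl _
  · let K : V → V := fun w => Sep x (fun t => F t = w)
    have hK : DF K := by simp only [K]; fun_prop
    have mK : ∀ w t, t ∈ K w ↔ t ∈ x ∧ F t = w := fun w t => mem_sep (by fun_prop)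
    refine ⟨Img y K, mem_pow.2 ?_, eq_iff.2 ⟨K, hK, fun w hw => (mem_img hK).2 ⟨w, hw, rfl⟩,
      ?_, ?_⟩⟩
    · intro w hw
      obtain ⟨v, _, rfl⟩ := (mem_img hK).1 hw
      exact mem_pow.2 fun t ht => ((mK v t).1 ht).1
    · intro w hw w' hw' e
      obtain ⟨t, ht, e1⟩ := h2 w hw
      have h3 : t ∈ K w := (mK w t).2 ⟨ht, e1⟩
      rw [e] at h3
      rw [← e1]; exact ((mK w' t).1 h3).2
    · intro z hz
      obtain ⟨w, hw, rfl⟩ := (mem_img hK).1 hz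
      exact ⟨w, hw, rfl⟩

/-- Every non-well-orderable set contains a minimal one. -/
theorem exists_mn (h : WFm V) {x : V} (hx : ¬ WO x) : ∃ k, Mn k ∧ Le k x := by
  have mK : ∀ z, z ∈ Sep (pow (pow x)) (fun z => Ls z x ∧ ¬ WO z) ↔
      z ∈ pow (pow x) ∧ Ls z x ∧ ¬ WO z := fun z => mem_sep (by fun_prop)
  obtain ⟨k, hk, hmin⟩ := h.min (K := Sep (pow (pow x)) (fun z => Ls z x ∧ ¬ WO z)) (by
    obtain ⟨z, hz, e⟩ := quot_rep (Le.ls (Le.refl x))
    exact ⟨z, (mK z).2 ⟨hz, Eq'.ls (Eq'.symm e), fun h1 => hx (wo_of_le (Eq'.le e) h1)⟩⟩)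
  obtain ⟨hk1, hk2, hk3⟩ := (mK k).1 hk
  have hkm : Mn k := by
    refine ⟨hk3, fun y hy => ?_⟩
    by_cases hyW : WO y
    · exact Or.inl hyW
    right
    obtain ⟨z, hz, e⟩ := quot_rep (Ls.trans hy hk2)
    have h1 := hmin z ((mK z).2 ⟨hz, Ls.trans (Eq'.ls (Eq'.symm e)) (Ls.trans hy hk2),
      fun h1 => hyW (wo_of_le (Eq'.le e) h1)⟩) (Ls.trans (Eq'.ls (Eq'.symm e)) hy)
    exact Eq'.trans e h1
  refine ⟨k, hkm, ?_⟩
  -- `k ≤ ω × x`, and `k` is prime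
  obtain ⟨g, hg, g1, g2⟩ := le_iff.1 (le_om_prod h hk2)
  obtain ⟨n, hn, hle⟩ := prime_cover (mn_prime h hkm) od_om
    (A := fun n => Sep k (fun y => fs (g y) = n)) (by fun_prop) (by
      intro y hy
      obtain ⟨n, z, hn, hz, e⟩ := mem_prod.1 (g1 y hy)
      exact ⟨n, hn, (mem_sep (by fun_prop)).2 ⟨hy, by rw [e, fs_op]⟩⟩)
  refine Le.trans hle (le_iff.2 ⟨fun y => sn (g y), by fun_prop, ?_, ?_⟩)
  · intro y hy
    obtain ⟨h3, h4⟩ := (mem_sep (by fun_prop)).1 hy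
    obtain ⟨m, z, hm, hz, e⟩ := mem_prod.1 (g1 y h3)
    dsimp only
    rw [e, sn_op]; exact hz
  · intro y hy y' hy' e0
    obtain ⟨h3, h4⟩ := (mem_sep (by fun_prop)).1 hy
    obtain ⟨h3', h4'⟩ := (mem_sep (by fun_prop)).1 hy'
    have h5 := ((mem_sep (by fun_prop)).1 h4).2
    have h5' := ((mem_sep (by fun_prop)).1 h4').2
    obtain ⟨m, z, hm, hz, e⟩ := mem_prod.1 (g1 y h3)
    obtain ⟨m', z', hm', hz', e'⟩ := mem_prod.1 (g1 y' h3')
    dsimp only at e0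
    rw [e, e', sn_op, sn_op] at e0
    rw [e, fs_op] at h5
    rw [e', fs_op] at h5'
    exact g2 y h3 y' h3' (by rw [e, e', h5, h5', e0])

theorem mn_ls {x y : V} (hx : Mn x) (hy : Mn y) (h : Ls x y) : Eq' x y :=
  (hy.2 x h).resolve_left hx.1

/-- If `P(o)` is not well-orderable, then there is a minimal non-well-orderable set `Y` of subsets
of `o`, and every such `Y` is the union of two disjoint sets equipotent to it. -/
theorem mn_split (h : WFm V) {o Y : V} (ho : Od o) (hY : Mn Y) (hYo : ∀ y ∈ Y, ∀ z ∈ y, z ∈ o) :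
    ∃ A B, (∀ y, y ∈ Y ↔ y ∈ A ∨ y ∈ B) ∧ (∀ y ∈ A, ¬ y ∈ B) ∧ Eq' A Y ∧ Eq' B Y := by
  have m1 : ∀ i y, y ∈ Sep Y (fun y => i ∈ y) ↔ y ∈ Y ∧ i ∈ y := fun i y => mem_sep (by fun_prop)
  have m0 : ∀ i y, y ∈ Sep Y (fun y => ¬ i ∈ y) ↔ y ∈ Y ∧ ¬ i ∈ y :=
    fun i y => mem_sep (by fun_prop)
  by_cases hcase : ∃ i ∈ o, ¬ WO (Sep Y (fun y => i ∈ y)) ∧ ¬ WO (Sep Y (fun y => ¬ i ∈ y))
  · obtain ⟨i, hi, h1, h2⟩ := hcase
    refine ⟨Sep Y (fun y => i ∈ y), Sep Y (fun y => ¬ i ∈ y), ?_, ?_, ?_, ?_⟩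
    · intro y
      rw [m1, m0]
      tauto
    · intro y hy hy'
      exact ((m0 i y).1 hy').2 ((m1 i y).1 hy).2
    · exact (hY.2 _ (Le.ls (le_of_subset fun y hy => ((m1 i y).1 hy).1))).resolve_left h1
    · exact (hY.2 _ (Le.ls (le_of_subset fun y hy => ((m0 i y).1 hy).1))).resolve_left h2
  · exfalso
    push Not at hcase
    -- `S i` the small half at `i`
    let S : V → V := fun i => Sep Y (fun y => (i ∈ y ∧ WO (Sep Y (fun y => i ∈ y))) ∨
      (¬ i ∈ y ∧ ¬ WO (Sep Y (fun y => i ∈ y))))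
    have hS : DF S := by simp only [S]; fun_prop
    have mS : ∀ i y, y ∈ S i ↔ y ∈ Y ∧ ((i ∈ y ∧ WO (Sep Y (fun y => i ∈ y))) ∨
      (¬ i ∈ y ∧ ¬ WO (Sep Y (fun y => i ∈ y)))) := fun i y => mem_sep (by fun_prop)
    have hSW : ∀ i ∈ o, WO (S i) := by
      intro i hi
      by_cases h1 : WO (Sep Y (fun y => i ∈ y))
      · refine wo_of_le (le_of_subset fun y hy => ?_) h1
        rcases (mS i y).1 hy with ⟨h2, h3 | h3⟩
        · exact (m1 i y).2 ⟨h2, h3.1⟩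
        · exact absurd h1 h3.2
      · refine wo_of_le (le_of_subset fun y hy => ?_) (hcase i hi h1)
        rcases (mS i y).1 hy with ⟨h2, h3 | h3⟩
        · exact absurd h3.2 h1
        · exact (m0 i y).2 ⟨h2, h3.1⟩
    -- the set of the `y` in no `S i` has at most one element
    let R : V := Sep Y (fun y => ∀ i ∈ o, ¬ y ∈ S i)
    have mR : ∀ y, y ∈ R ↔ y ∈ Y ∧ ∀ i ∈ o, ¬ y ∈ S i := fun y => mem_sep (by fun_prop)
    have hR : ∀ y ∈ R, ∀ y' ∈ R, y = y' := by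
      have aux : ∀ y ∈ R, ∀ y' ∈ R, ∀ z ∈ y, z ∈ y' := by
        intro y hy y' hy' z hz
        obtain ⟨h1, h2⟩ := (mR y).1 hy
        obtain ⟨h1', h2'⟩ := (mR y').1 hy'
        have hzo := hYo y h1 z hz
        by_contra hcon
        by_cases h3 : WO (Sep Y (fun y => z ∈ y))
        · exact h2 z hzo ((mS z y).2 ⟨h1, Or.inl ⟨hz, h3⟩⟩)
        · exact h2' z hzo ((mS z y').2 ⟨h1', Or.inr ⟨hcon, h3⟩⟩)
      intro y hy y' hy'
      exact ext' fun z => ⟨aux y hy y' hy' z, aux y' hy' y hy z⟩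
    have hRW : WO R := by
      refine wo_of_inj (Od.suc od_emp) (F := fun _ => emp) (by fun_prop)
        (fun _ _ => mem_suc.2 (Or.inr rfl)) (fun x hx y hy _ => hR x hx y hy)
    apply hY.1
    have hUW : WO (sUn (Img o S)) := wo_union h ho hS hSW (by
      intro x hx
      obtain ⟨y, hy, hxy⟩ := mem_sUn.1 hx
      obtain ⟨i, hi, rfl⟩ := (mem_img hS).1 hy
      exact ⟨i, hi, hxy⟩)
    refine wo_of_le (le_of_subset (b := un R (sUn (Img o S))) fun y hy => ?_) (wo_un h hRW hUW)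
    rw [mem_un]
    by_cases h1 : ∀ i ∈ o, ¬ y ∈ S i
    · exact Or.inl ((mR y).2 ⟨hy, h1⟩)
    · right
      push Not at h1
      obtain ⟨i, hi, h2⟩ := h1
      exact mem_sUn.2 ⟨S i, (mem_img hS).2 ⟨i, hi, rfl⟩, h2⟩

end

end Pool.Agent.H83.ZF
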