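import Pool.Agent.H83.ZF.Card

/-! Ordinals in a model of ZF. -/

set_option autoImplicit false

open Set

namespace Pool.Agent.H83.ZF

universe u v

section

variable {V : Type u} [ZFM V]

/-- Foundation for sets. -/
theorem exists_min {a : V} (h : ∃ y, y ∈ a) : ∃ y ∈ a, ∀ z ∈ a, ¬ z ∈ y := (ZFM.zf (V := V)).found a h

theorem not_mem_self (x : V) : ¬ x ∈ x := by
  intro h
  obtain ⟨y, h1, h2⟩ := exists_min (a := sing x) ⟨x, mem_sing.2 rfl⟩
  rw [mem_sing] at h1
  subst h1
  exact h2 y (mem_sing.2 rfl) h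

theorem not_mem_mem {x y : V} (h : x ∈ y) : ¬ y ∈ x := by
  intro h'
  obtain ⟨z, h1, h2⟩ := exists_min (a := upair x y) ⟨x, mem_upair.2 (Or.inl rfl)⟩
  rcases mem_upair.1 h1 with rfl | rfl
  · exact h2 y (mem_upair.2 (Or.inr rfl)) h'
  · exact h2 x (mem_upair.2 (Or.inl rfl)) h

theorem Od.trans {a b c : V} (h : Od a) (hb : b ∈ a) (hc : c ∈ b) : c ∈ a := h.1 b hb c hc

theorem Od.tri {a b c : V} (h : Od a) (hb : b ∈ a) (hc : c ∈ a) : b ∈ c ∨ b = c ∨ c ∈ b :=
  h.2 b hb c hc

theorem Od.mem {a b : V} (h : Od a) (hb : b ∈ a) : Od b := by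
  constructor
  · intro y hy z hz
    have hya := h.trans hb hy
    have hza := h.trans hya hz
    rcases h.tri hza hb with h1 | rfl | h1
    · exact h1
    · exact absurd hz (not_mem_mem hy)
    · -- b ∈ z ∈ y ∈ b
      exfalso
      obtain ⟨w, h2, h3⟩ := exists_min (a := un (upair b z) (sing y)) ⟨b, mem_un.2 (Or.inl
        (mem_upair.2 (Or.inl rfl)))⟩
      rcases mem_un.1 h2 with h4 | h4
      · rcases mem_upair.1 h4 with rfl | rfl
        · exact h3 y (mem_un.2 (Or.inr (mem_sing.2 rfl))) hy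
        · exact h3 b (mem_un.2 (Or.inl (mem_upair.2 (Or.inl rfl)))) h1
      · rw [mem_sing] at h4; subst h4
        exact h3 z (mem_un.2 (Or.inl (mem_upair.2 (Or.inr rfl)))) hz
  · intro y hy z hz
    exact h.tri (h.trans hb hy) (h.trans hb hz)

/-- A transitive proper subset of an ordinal is an element. -/
theorem Od.mem_of_ssubset {a b : V} (ha : Od a) (hb : ∀ y ∈ b, ∀ z ∈ y, z ∈ b)
    (hs : ∀ y ∈ b, y ∈ a) (hne : b ≠ a) : b ∈ a := by
  let c := Sep a (fun x => ¬ x ∈ b)
  have hc : ∀ x, x ∈ c ↔ x ∈ a ∧ ¬ x ∈ b := fun x => mem_sep (by fun_prop)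
  have hcne : ∃ x, x ∈ c := by
    by_contra hcon
    push Not at hcon
    apply hne
    apply ext'
    intro z
    refine ⟨hs z, fun hz => ?_⟩
    by_contra h; exact hcon z ((hc z).2 ⟨hz, h⟩)
  obtain ⟨m, hm, hmin⟩ := exists_min hcne
  obtain ⟨hma, hmb⟩ := (hc m).1 hm
  have : b = m := by
    apply ext'
    intro z
    constructor
    · intro hz
      rcases ha.tri (hs z hz) hma with h | rfl | h
      · exact h
      · exact absurd hz hmb
      · exact absurd (hb z hz m h) hmb
    · intro hz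
      by_contra h
      exact hmin z ((hc z).2 ⟨ha.trans hma hz, h⟩) hz
  rw [this]; exact hma

/-- Comparability of ordinals. -/
theorem Od.lin {a b : V} (ha : Od a) (hb : Od b) : a ∈ b ∨ a = b ∨ b ∈ a := by
  let c := Sep a (fun x => x ∈ b)
  have hc : ∀ x, x ∈ c ↔ x ∈ a ∧ x ∈ b := fun x => mem_sep (by fun_prop)
  have htr : ∀ y ∈ c, ∀ z ∈ y, z ∈ c := fun y hy z hz =>
    (hc z).2 ⟨ha.trans ((hc y).1 hy).1 hz, hb.trans ((hc y).1 hy).2 hz⟩
  by_cases h1 : c = a
  · by_cases h2 : c = b
    · exact Or.inr (Or.inl (h1.symm.trans h2))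
    · left; rw [← h1]; exact hb.mem_of_ssubset htr (fun y hy => ((hc y).1 hy).2) h2
  · have h3 := ha.mem_of_ssubset htr (fun y hy => ((hc y).1 hy).1) h1
    by_cases h2 : c = b
    · right; right; rw [← h2]; exact h3
    · have h4 := hb.mem_of_ssubset htr (fun y hy => ((hc y).1 hy).2) h2
      exact absurd ((hc c).2 ⟨h3, h4⟩) (not_mem_self c)

theorem Od.sub_or {a b : V} (ha : Od a) (hb : Od b) : (∀ x ∈ a, x ∈ b) ∨ b ∈ a := by
  rcases ha.lin hb with h | rfl | h
  · exact Or.inl fun x hx => hb.trans h hx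
  · exact Or.inl fun x hx => hx
  · exact Or.inr h

/-- A transitive set of ordinals is an ordinal. -/
theorem od_of_trans {a : V} (h : ∀ y ∈ a, ∀ z ∈ y, z ∈ a) (ho : ∀ y ∈ a, Od y) : Od a :=
  ⟨h, fun y hy z hz => (ho y hy).lin (ho z hz)⟩

/-- Least element of a non-empty definable class of ordinals. -/
theorem least_ord {P : V → Prop} (hP : DF P) {a : V} (ha : Od a) (h : P a) :
    ∃ b, Od b ∧ P b ∧ ∀ c ∈ b, ¬ P c := by
  by_cases h1 : ∃ c, c ∈ Sep a P
  · obtain ⟨b, hb, hmin⟩ := exists_min h1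
    obtain ⟨h2, h3⟩ := (mem_sep hP).1 hb
    exact ⟨b, ha.mem h2, h3, fun c hc h4 => hmin c ((mem_sep hP).2 ⟨ha.trans h2 hc, h4⟩) hc⟩
  · push Not at h1
    exact ⟨a, ha, h, fun c hc h4 => h1 c ((mem_sep hP).2 ⟨hc, h4⟩)⟩

/-- Induction on ordinals. -/
theorem ord_ind {P : V → Prop} (hP : DF P) (h : ∀ a, Od a → (∀ b ∈ a, P b) → P a) {a : V}
    (ha : Od a) : P a := by
  by_contra hcon
  obtain ⟨b, hb, h1, h2⟩ := least_ord (P := fun x => ¬ P x) (by fun_prop) ha hcon
  exact h1 (h b hb fun c hc => by_contra fun h3 => h2 c hc h3)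

theorem od_emp : Od (emp : V) :=
  ⟨fun y hy => absurd hy (not_mem_emp y), fun y hy => absurd hy (not_mem_emp y)⟩

/-- the successor -/
noncomputable def suc (x : V) : V := un x (sing x)

theorem mem_suc {x z : V} : z ∈ suc x ↔ z ∈ x ∨ z = x := by
  unfold suc; rw [mem_un, mem_sing]

@[fun_prop]
theorem DF.suc {Γ : Type u} [Ctx V Γ] {f : Γ → V} (hf : DF f) : DF (fun a => suc (f a)) := by
  unfold Pool.Agent.H83.ZF.suc; fun_prop

theorem Od.suc {a : V} (h : Od a) : Od (suc a) := by
  apply od_of_trans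
  · intro y hy z hz
    rcases mem_suc.1 hy with h1 | rfl
    · exact mem_suc.2 (Or.inl (h.trans h1 hz))
    · exact mem_suc.2 (Or.inl hz)
  · intro y hy
    rcases mem_suc.1 hy with h1 | rfl
    · exact h.mem h1
    · exact h

theorem suc_inj {a b : V} (h : suc a = suc b) : a = b := by
  have h1 : a ∈ suc b := h ▸ mem_suc.2 (Or.inr rfl)
  have h2 : b ∈ suc a := h.symm ▸ mem_suc.2 (Or.inr rfl)
  rcases mem_suc.1 h1 with h1 | h1
  · rcases mem_suc.1 h2 with h2 | h2
    · exact absurd h2 (not_mem_mem h1)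
    · exact h2.symm
  · exact h1

theorem od_sUn {a : V} (h : ∀ x ∈ a, Od x) : Od (sUn a) := by
  apply od_of_trans
  · intro y hy z hz
    obtain ⟨x, hx, hyx⟩ := mem_sUn.1 hy
    exact mem_sUn.2 ⟨x, hx, (h x hx).trans hyx hz⟩
  · intro y hy
    obtain ⟨x, hx, hyx⟩ := mem_sUn.1 hy
    exact (h x hx).mem hyx

/-- Transfinite recursion: for a definable `G` there is a definable `F` with `F a = G (F|a)` for all
ordinals `a`, where `F|a` is the function `F` on `a` as a set. -/
theorem recursion {G : V → V} (hG : DF G) :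
    ∃ F : V → V, DF F ∧ ∀ a, Od a → F a = G (lam a F) := by
  -- approximations: functions on a successor ordinal
  let App : V → V → Prop := fun a f => ∀ b ∈ suc a, app f b = G (lam b (fun c => app f c))
  have hApp : DF (fun p : V × V => App p.1 p.2) := by
    simp only [App]; fun_prop
  have lam_congr : ∀ (b : V) (f g : V), (∀ c ∈ b, app f c = app g c) →
      lam b (fun c => app f c) = lam b (fun c => app g c) := by
    intro b f g h
    apply ext'
    intro z
    rw [mem_lam (by fun_prop), mem_lam (by fun_prop)]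
    constructor
    · rintro ⟨x, hx, rfl⟩; exact ⟨x, hx, by rw [h x hx]⟩
    · rintro ⟨x, hx, rfl⟩; exact ⟨x, hx, by rw [h x hx]⟩
  have uniq : ∀ a, Od a → ∀ f g, App a f → App a g → app f a = app g a := by
    intro a ha
    have hDF : DF (fun a : V => ∀ f g, App a f → App a g → app f a = app g a) := by
      have h1 : DF (fun p : (V × V) × V => App p.1.1 p.1.2) :=
        hApp.comp (f := fun p : (V × V) × V => (p.1.1, p.1.2)) (by fun_prop)
      have h2 : DF (fun p : (V × V) × V => App p.1.1 p.2) :=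
        hApp.comp (f := fun p : (V × V) × V => (p.1.1, p.2)) (by fun_prop)
      fun_prop
    refine ord_ind hDF ?_ ha
    intro a ha ih f g hf hg
    rw [hf a (mem_suc.2 (Or.inr rfl)), hg a (mem_suc.2 (Or.inr rfl))]
    congr 1
    apply lam_congr
    intro c hc
    apply ih c hc
    · intro b hb
      exact hf b (by
        rcases mem_suc.1 hb with h | rfl
        · exact mem_suc.2 (Or.inl (ha.trans hc h))
        · exact mem_suc.2 (Or.inl hc))
    · intro b hb
      exact hg b (by
        rcases mem_suc.1 hb with h | rfl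
        · exact mem_suc.2 (Or.inl (ha.trans hc h))
        · exact mem_suc.2 (Or.inl hc))
  let F : V → V := fun a => The (fun y => ∃ f, App a f ∧ y = app f a)
  have hF : DF F := by
    have h2 : DF (fun p : (V × V) × V => App p.1.1 p.2) :=
      hApp.comp (f := fun p : (V × V) × V => (p.1.1, p.2)) (by fun_prop)
    simp only [F]; fun_prop
  have hFe : ∀ a, Od a → ∀ f, App a f → F a = app f a := by
    intro a ha f hf
    refine the_eq ⟨f, hf, rfl⟩ ?_
    rintro y ⟨g, hg, rfl⟩
    exact uniq a ha g f hg hf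
  have ex : ∀ a, Od a → ∃ f, App a f := by
    intro a ha
    have hDF : DF (fun a : V => ∃ f, App a f) := by fun_prop
    refine ord_ind hDF ?_ ha
    intro a ha ih
    -- the function F on a, extended at a by G (F|a)
    let H : V → V := fun b => G (lam b F)
    have hH : DF H := by simp only [H]; fun_prop
    have key : ∀ b ∈ a, F b = G (lam b F) := by
      intro b hb
      obtain ⟨f, hf⟩ := ih b hb
      rw [hFe b (ha.mem hb) f hf, hf b (mem_suc.2 (Or.inr rfl))]
      congr 1
      apply ext'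
      intro z
      rw [mem_lam (by fun_prop), mem_lam (by fun_prop)]
      have e : ∀ c ∈ b, app f c = F c := by
        intro c hc
        refine (hFe c ((ha.mem hb).mem hc) f ?_).symm
        intro d hd
        exact hf d (by
          rcases mem_suc.1 hd with h | rfl
          · exact mem_suc.2 (Or.inl ((ha.mem hb).trans hc h))
          · exact mem_suc.2 (Or.inl hc))
      constructor
      · rintro ⟨x, hx, rfl⟩; exact ⟨x, hx, by rw [e x hx]⟩
      · rintro ⟨x, hx, rfl⟩; exact ⟨x, hx, by rw [e x hx]⟩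
    refine ⟨lam (suc a) H, ?_⟩
    intro b hb
    rw [app_lam hH hb]
    show G (lam b F) = _
    congr 1
    apply ext'
    intro z
    rw [mem_lam (by fun_prop), mem_lam (by fun_prop)]
    have e : ∀ c ∈ b, F c = app (lam (suc a) H) c := by
      intro c hc
      have hca : c ∈ a := by
        rcases mem_suc.1 hb with h | rfl
        · exact ha.trans h hc
        · exact hc
      rw [app_lam hH (mem_suc.2 (Or.inl hca))]
      exact key c hca
    constructor
    · rintro ⟨x, hx, rfl⟩; exact ⟨x, hx, by rw [e x hx]⟩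
    · rintro ⟨x, hx, rfl⟩; exact ⟨x, hx, by rw [e x hx]⟩
  refine ⟨F, hF, fun a ha => ?_⟩
  obtain ⟨f, hf⟩ := ex a ha
  rw [hFe a ha f hf, hf a (mem_suc.2 (Or.inr rfl))]
  congr 1
  apply ext'
  intro z
  rw [mem_lam (by fun_prop), mem_lam (by fun_prop)]
  have e : ∀ c ∈ a, app f c = F c := by
    intro c hc
    refine (hFe c (ha.mem hc) f ?_).symm
    intro d hd
    exact hf d (by
      rcases mem_suc.1 hd with h | rfl
      · exact mem_suc.2 (Or.inl (ha.trans hc h))
      · exact mem_suc.2 (Or.inl hc))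
  constructor
  · rintro ⟨x, hx, rfl⟩; exact ⟨x, hx, by rw [e x hx]⟩
  · rintro ⟨x, hx, rfl⟩; exact ⟨x, hx, by rw [e x hx]⟩

end

end Pool.Agent.H83.ZF
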