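import Pool.Agent.H83.ZF.Basis

/-! `WF^s_b1` implies the partition principle. -/

set_option autoImplicit false

open Set

namespace Pool.Agent.H83.ZF

universe u v

section

variable {V : Type u} [ZFM V]

/-- A prime quotient of `x` embeds into `x`. -/
theorem prime_le_of_ls (h : WFm V) {k x : V} (hk : Pr k) (hkx : Ls k x) : Le k x := by
  obtain ⟨g, hg, g1, g2⟩ := le_iff.1 (le_om_prod h hkx)
  obtain ⟨n, hn, hle⟩ := prime_cover hk od_om
    (A := fun n => Sep k (fun y => fs (g y) = n)) (by fun_prop) (by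
      intro y hy
      obtain ⟨n, z, hn, hz, e⟩ := mem_prod.1 (g1 y hy)
      exact ⟨n, hn, (mem_sep (by fun_prop)).2 ⟨hy, by rw [e, fs_op]⟩⟩)
  refine Le.trans hle (le_iff.2 ⟨fun y => sn (g y), by fun_prop, ?_, ?_⟩)
  · intro y hy
    obtain ⟨h3, h4⟩ := (mem_sep (by fun_prop)).1 hy
    obtain ⟨m, z, hm, hz, e⟩ := mem_prod.1 (g1 y h3)
    dsimp only
    rw [e, sn_op]; exact hz
  · intro y hy y' hy' e0
    obtain ⟨h3, h4⟩ := (mem_sep (by fun_prop)).1 hy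
    obtain ⟨h3', h4'⟩ := (mem_sep (by fun_prop)).1 hy'
    have h5 := ((mem_sep (by fun_prop)).1 h4).2
    have h5' := ((mem_sep (by fun_prop)).1 h4').2
    obtain ⟨m, z, hm, hz, e⟩ := mem_prod.1 (g1 y h3)
    obtain ⟨m', z', hm', hz', e'⟩ := mem_prod.1 (g1 y' h3')
    dsimp only at e0
    rw [e, e', sn_op, sn_op] at e0
    rw [e, fs_op] at h5
    rw [e', fs_op] at h5'
    exact g2 y h3 y' h3' (by rw [e, e', h5, h5', e0])

/-- The decomposition as a family indexed by an ordinal. -/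
theorem decomposition' (h : WFm V) (x : V) : ∃ (a : V) (G : V → V), Od a ∧ DF G ∧
    (∀ i ∈ a, Pr (G i) ∧ ∀ z ∈ G i, z ∈ x) ∧ (∀ y ∈ x, ∃ i ∈ a, y ∈ G i) ∧
    ∀ i ∈ a, ∀ j ∈ a, ∀ y, y ∈ G i → y ∈ G j → i = j := by
  obtain ⟨D, hD, h1, h2⟩ := decomposition h x
  obtain ⟨a, ha, e⟩ := hD.elim
  obtain ⟨G, hG, G1, G2, G3⟩ := eq_iff.1 (Eq'.symm e)
  refine ⟨a, G, ha, hG, fun i hi => h1 _ (G1 i hi), ?_, ?_⟩
  · intro y hy
    obtain ⟨d, hd, hyd, _⟩ := h2 y hy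
    obtain ⟨i, hi, rfl⟩ := G3 d hd
    exact ⟨i, hi, hyd⟩
  · intro i hi j hj y hyi hyj
    obtain ⟨d, hd, hyd, hu⟩ := h2 y ((h1 _ (G1 i hi)).2 y hyi)
    exact G2 i hi j hj ((hu _ (G1 i hi) hyi).trans (hu _ (G1 j hj) hyj).symm)

/-- A family of injections between the members of two ordinal-indexed families, the second one
disjoint, gives an injection between the unions. -/
theorem le_of_pieces (h : WFm V) {a X Y : V} (ha : Od a) {G H : V → V} (hG : DF G) (hH : DF H)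
    (hle : ∀ i ∈ a, Le (G i) (H i)) (hcov : ∀ y ∈ Y, ∃ i ∈ a, y ∈ G i)
    (hX : ∀ i ∈ a, ∀ z ∈ H i, z ∈ X) (hdis : ∀ i ∈ a, ∀ j ∈ a, ∀ z, z ∈ H i → z ∈ H j → i = j) :
    Le Y X := by
  obtain ⟨c, hc⟩ := acwo h (A := fun i => Inj (G i) (H i)) (by fun_prop) ha
    (fun i hi => inj_nonempty.2 (hle i hi))
  let I : V → V := fun x => lst (Sep a (fun i => x ∈ G i))
  have hI : DF I := by simp only [I]; fun_prop
  have hIs : ∀ x ∈ Y, I x ∈ a ∧ x ∈ G (I x) := by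
    intro x hx
    obtain ⟨i, hi, h1⟩ := hcov x hx
    have := (lst_spec (s := Sep a (fun i => x ∈ G i))
      (fun z hz => ha.mem ((mem_sep (by fun_prop)).1 hz).1)
      ⟨i, (mem_sep (by fun_prop)).2 ⟨hi, h1⟩⟩).1
    exact (mem_sep (P := fun i => x ∈ G i) (by fun_prop)).1 this
  refine le_iff.2 ⟨fun x => app (app c (I x)) x, by fun_prop, ?_, ?_⟩
  · intro x hx
    obtain ⟨h1, h2⟩ := hIs x hx
    exact hX _ h1 _ (isFun_mem (mem_inj.1 (hc _ h1)).1 h2)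
  · intro x hx y hy e
    dsimp only at e
    obtain ⟨h1, h2⟩ := hIs x hx
    obtain ⟨h3, h4⟩ := hIs y hy
    have h5 := mem_inj.1 (hc _ h1)
    have h6 := mem_inj.1 (hc _ h3)
    have h7 := isFun_mem h5.1 h2
    have h8 := isFun_mem h6.1 h4
    rw [← e] at h8
    have e1 := hdis _ h1 _ h3 _ h7 h8
    rw [← e1] at h4 e
    exact (isInj_iff h5.1).1 h5.2 x h2 y h4 e

/-- The partition principle. -/
theorem pp (h : WFm V) {Y X : V} (hYX : Ls Y X) : Le Y X := by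
  rcases ls_iff.1 hYX with h0 | ⟨F, hF, F1, F2⟩
  · exact le_of_subset fun x hx => absurd hx (h0 x)
  obtain ⟨a, G, ha, hG, h1, h2, h3⟩ := decomposition' h Y
  have mH : ∀ i x, x ∈ Sep X (fun x => F x ∈ G i) ↔ x ∈ X ∧ F x ∈ G i :=
    fun i x => mem_sep (by fun_prop)
  refine le_of_pieces h ha hG (H := fun i => Sep X (fun x => F x ∈ G i)) (by fun_prop) ?_ h2 ?_ ?_
  · intro i hi
    refine prime_le_of_ls h (h1 i hi).1 (ls_iff.2 (Or.inr ⟨F, hF, fun x hx => ((mH i x).1 hx).2,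
      fun y hy => ?_⟩))
    obtain ⟨x, hx, e⟩ := F2 y ((h1 i hi).2 y hy)
    exact ⟨x, (mH i x).2 ⟨hx, by rw [e]; exact hy⟩, e⟩
  · intro i _ z hz
    exact ((mH i z).1 hz).1
  · intro i hi j hj z hzi hzj
    exact h3 i hi j hj (F z) ((mH i z).1 hzi).2 ((mH j z).1 hzj).2

end

end Pool.Agent.H83.ZF
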