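import Pool.Agent.H83.ZF.ACWO

/-! Prime sets under `WF^s_b1`: decomposition and well partial order. -/

set_option autoImplicit false

open Set

namespace Pool.Agent.H83.ZF

universe u v

section

variable {V : Type u} [ZFM V]

theorem od_om : Od (om : V) := by
  apply od_of_trans
  · intro y hy
    refine om_ind (P := fun y => ∀ z ∈ y, z ∈ (om : V)) (by fun_prop) ?_ ?_ hy
    · intro z hz; exact absurd hz (not_mem_emp z)
    · intro n hn ih z hz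
      rcases mem_suc.1 hz with h | rfl
      · exact ih z h
      · exact hn
  · intro y hy; exact od_of_mem_om hy

/-- injections from `A` to `B`, as a set -/
noncomputable def Inj (A B : V) : V :=
  Sep (pow (prod A B)) (fun f => IsFun ZFM.E f A B ∧ IsInj ZFM.E f)

theorem mem_inj {A B f : V} : f ∈ Inj A B ↔ IsFun ZFM.E f A B ∧ IsInj ZFM.E f := by
  unfold Inj
  rw [mem_sep (by fun_prop)]
  exact ⟨fun h => h.2, fun h => ⟨isFun_mem_pow h.1, h⟩⟩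

@[fun_prop]
theorem DF.inj {Γ : Type u} [Ctx V Γ] {f g : Γ → V} (hf : DF f) (hg : DF g) :
    DF (fun a => Inj (f a) (g a)) := by
  unfold Inj; fun_prop

theorem inj_nonempty {A B : V} : (∃ f, f ∈ Inj A B) ↔ Le A B := by
  constructor
  · rintro ⟨f, hf⟩; exact ⟨f, mem_inj.1 hf⟩
  · rintro ⟨f, hf⟩; exact ⟨f, mem_inj.2 hf⟩

theorem le_hart_of_wo {A X : V} (hA : WO A) (h : Le A X) : Le A (hart X) := by
  obtain ⟨o, ho, h1⟩ := hA.elim
  have h2 : o ∈ hart X := mem_hart.2 ⟨ho, Le.trans (Eq'.le (Eq'.symm h1)) h⟩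
  exact Le.trans (Eq'.le h1) (le_of_subset fun x hx => (od_hart X).trans h2 hx)

/-- A union of a well-ordered family of well-orderable sets is well-orderable. -/
theorem wo_union (h : WFm V) {a : V} (ha : Od a) {A : V → V} (hA : DF A) (hW : ∀ i ∈ a, WO (A i))
    {U : V} (hU : ∀ x ∈ U, ∃ i ∈ a, x ∈ A i) : WO U := by
  let A' : V → V := fun i => Sep U (fun x => x ∈ A i)
  have hA' : DF A' := by simp only [A']; fun_prop
  have mA' : ∀ i x, x ∈ A' i ↔ x ∈ U ∧ x ∈ A i := fun i x => mem_sep (by fun_prop)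
  have hW' : ∀ i ∈ a, Le (A' i) (hart U) := fun i hi =>
    le_hart_of_wo (wo_of_le (le_of_subset fun x hx => ((mA' i x).1 hx).2) (hW i hi))
      (le_of_subset fun x hx => ((mA' i x).1 hx).1)
  obtain ⟨c, hc⟩ := acwo h (A := fun i => Inj (A' i) (hart U)) (by fun_prop) ha
    (fun i hi => inj_nonempty.2 (hW' i hi))
  let I : V → V := fun x => lst (Sep a (fun i => x ∈ A' i))
  have hI : DF I := by simp only [I]; fun_prop
  have hIs : ∀ x ∈ U, I x ∈ a ∧ x ∈ A' (I x) := by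
    intro x hx
    obtain ⟨i, hi, h1⟩ := hU x hx
    have := (lst_spec (s := Sep a (fun i => x ∈ A' i))
      (fun z hz => ha.mem ((mem_sep (by fun_prop)).1 hz).1)
      ⟨i, (mem_sep (by fun_prop)).2 ⟨hi, (mA' i x).2 ⟨hx, h1⟩⟩⟩).1
    exact (mem_sep (P := fun i => x ∈ A' i) (by fun_prop)).1 this
  refine wo_of_le (Y := prod a (hart U)) (le_iff.2 ⟨fun x => op (I x) (app (app c (I x)) x),
    by fun_prop, ?_, ?_⟩) (wo_prod_od ha (od_hart U))
  · intro x hx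
    obtain ⟨h1, h2⟩ := hIs x hx
    exact op_mem_prod.2 ⟨h1, isFun_mem (mem_inj.1 (hc _ h1)).1 h2⟩
  · intro x hx y hy e
    obtain ⟨e1, e2⟩ := op_inj.1 e
    obtain ⟨h1, h2⟩ := hIs x hx
    obtain ⟨h3, h4⟩ := hIs y hy
    rw [← e1] at h4 e2
    have h5 := mem_inj.1 (hc _ h1)
    exact (isInj_iff h5.1).1 h5.2 x h2 y h4 e2

theorem wo_un (h : WFm V) {A B : V} (hA : WO A) (hB : WO B) : WO (un A B) := by
  refine wo_union h (a := suc (suc emp)) (Od.suc (Od.suc od_emp))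
    (A := fun i => Ite (i = emp) A B) (by fun_prop) ?_ ?_
  · intro i _
    by_cases hi : i = emp
    · rw [ite_pos hi]; exact hA
    · rw [ite_neg hi]; exact hB
  · intro x hx
    rcases mem_un.1 hx with hx | hx
    · exact ⟨emp, mem_suc.2 (Or.inl (mem_suc.2 (Or.inr rfl))), by rw [ite_pos rfl]; exact hx⟩
    · exact ⟨suc emp, mem_suc.2 (Or.inr rfl), by rw [ite_neg (suc_ne_emp _)]; exact hx⟩

/-- prime set in the model -/
abbrev Pr (x : V) : Prop := IsPrime ZFM.E x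

/-- A prime set covered by a well-ordered family embeds into a member. -/
theorem prime_cover {P : V} (hP : Pr P) {a : V} (ha : Od a) {A : V → V} (hA : DF A)
    (hcov : ∀ x ∈ P, ∃ i ∈ a, x ∈ A i) : ∃ i ∈ a, Le P (Sep P (fun x => x ∈ A i)) := by
  let A' : V → V := fun i => Sep P (fun x => x ∈ A i)
  have hA' : DF A' := by simp only [A']; fun_prop
  have mA' : ∀ i x, x ∈ A' i ↔ x ∈ P ∧ x ∈ A i := fun i x => mem_sep (by fun_prop)
  obtain ⟨d, hd, h1⟩ := hP.2 (Img a A')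
    (wo_of_ls (ls_iff.2 (Or.inr ⟨A', hA', fun x hx => (mem_img hA').2 ⟨x, hx, rfl⟩,
      fun y hy => by
        obtain ⟨x, hx, rfl⟩ := (mem_img hA').1 hy
        exact ⟨x, hx, rfl⟩⟩)) (wo_of_od ha))
    (by
      intro d hd x hx
      obtain ⟨i, hi, rfl⟩ := (mem_img hA').1 hd
      exact ((mA' i x).1 hx).1)
    (by
      intro x hx
      obtain ⟨i, hi, h1⟩ := hcov x hx
      exact ⟨A' i, (mem_img hA').2 ⟨i, hi, rfl⟩, (mA' i x).2 ⟨hx, h1⟩⟩)
  obtain ⟨i, hi, rfl⟩ := (mem_img hA').1 hd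
  exact ⟨i, hi, Eq'.le (Eq'.symm h1)⟩

/-- `D` is a decomposition of `x` into a well-orderable set of disjoint primes. -/
def Dec (D x : V) : Prop := WO D ∧ (∀ d ∈ D, Pr d ∧ ∀ z ∈ d, z ∈ x) ∧
  ∀ y ∈ x, ∃ d ∈ D, y ∈ d ∧ ∀ d' ∈ D, y ∈ d' → d' = d

@[fun_prop]
theorem DF.dec {Γ : Type u} [Ctx V Γ] {f g : Γ → V} (hf : DF f) (hg : DF g) :
    DF (fun a => Dec (f a) (g a)) := by
  unfold Dec; fun_prop

/-- Every set is the disjoint union of a well-orderable set of primes. -/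
theorem decomposition (h : WFm V) (x : V) : ∃ D, Dec D x := by
  by_contra hcon
  have mK : ∀ z, z ∈ Sep (pow x) (fun z => ¬ ∃ D, Dec D z) ↔
      (∀ w ∈ z, w ∈ x) ∧ ¬ ∃ D, Dec D z := by
    intro z; rw [mem_sep (by fun_prop), mem_pow]
  obtain ⟨k, hk, hmin⟩ := h.min (K := Sep (pow x) (fun z => ¬ ∃ D, Dec D z))
    ⟨x, (mK x).2 ⟨fun w hw => hw, hcon⟩⟩
  obtain ⟨hkx, hkD⟩ := (mK k).1 hk
  by_cases hprime : Pr k
  · apply hkD
    refine ⟨sing k, ?_, ?_, ?_⟩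
    · refine wo_of_inj (Od.suc od_emp) (F := fun _ => emp) (by fun_prop)
        (fun _ _ => mem_suc.2 (Or.inr rfl)) ?_
      intro x hx y hy _
      rw [mem_sing.1 hx, mem_sing.1 hy]
    · intro d hd
      rw [mem_sing.1 hd]
      exact ⟨hprime, fun z hz => hz⟩
    · intro y hy
      exact ⟨k, mem_sing.2 rfl, hy, fun d' hd' _ => mem_sing.1 hd'⟩
  by_cases hne : ∃ y, y ∈ k
  swap
  · apply hkD
    push Not at hne
    refine ⟨emp, wo_of_od od_emp, fun d hd => absurd hd (not_mem_emp d), fun y hy =>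
      absurd hy (hne y)⟩
  -- a bad cover
  have hbad : ∃ D : V, WO D ∧ (∀ d ∈ D, ∀ z ∈ d, z ∈ k) ∧ (∀ y ∈ k, ∃ d ∈ D, y ∈ d) ∧
      ∀ d ∈ D, ¬ Eq' d k := by
    by_contra hc2
    apply hprime
    refine ⟨hne, fun D hD h1 h2 => ?_⟩
    by_contra h3
    apply hc2
    exact ⟨D, hD, h1, h2, fun d hd e => h3 ⟨d, hd, e⟩⟩
  obtain ⟨D, hD, h1, h2, h3⟩ := hbad
  obtain ⟨a, ha, hDa⟩ := hD.elim
  obtain ⟨G, hG, G1, G2, G3⟩ := eq_iff.1 (Eq'.symm hDa)
  let A : V → V := fun i => Sep (G i) (fun y => ¬ ∃ j ∈ i, y ∈ G j)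
  have hA : DF A := by simp only [A]; fun_prop
  have mA : ∀ i y, y ∈ A i ↔ y ∈ G i ∧ ¬ ∃ j ∈ i, y ∈ G j := fun i y => mem_sep (by fun_prop)
  have hAk : ∀ i ∈ a, ∀ y ∈ A i, y ∈ k := fun i hi y hy => h1 (G i) (G1 i hi) y ((mA i y).1 hy).1
  have hAcov : ∀ y ∈ k, ∃ i ∈ a, y ∈ A i := by
    intro y hy
    obtain ⟨d, hd, hyd⟩ := h2 y hy
    obtain ⟨i, hi, rfl⟩ := G3 d hd
    obtain ⟨i', hi', h4, h5⟩ := least_ord (P := fun i => i ∈ a ∧ y ∈ G i) (by fun_prop)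
      (ha.mem hi) ⟨hi, hyd⟩
    refine ⟨i', h4.1, (mA _ _).2 ⟨h4.2, ?_⟩⟩
    rintro ⟨j, hj, hyj⟩
    exact h5 j hj ⟨ha.trans h4.1 hj, hyj⟩
  have hAdis : ∀ i ∈ a, ∀ j ∈ a, ∀ y, y ∈ A i → y ∈ A j → i = j := by
    intro i hi j hj y hyi hyj
    obtain ⟨h4, h5⟩ := (mA _ _).1 hyi
    obtain ⟨h6, h7⟩ := (mA _ _).1 hyj
    rcases ha.tri hi hj with h8 | h8 | h8
    · exact absurd ⟨i, h8, h4⟩ h7
    · exact h8
    · exact absurd ⟨j, h8, h6⟩ h5
  have hAD : ∀ i ∈ a, ∃ D, Dec D (A i) := by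
    intro i hi
    by_contra h4
    have h5 : A i ∈ Sep (pow x) (fun z => ¬ ∃ D, Dec D z) :=
      (mK _).2 ⟨fun w hw => hkx w (hAk i hi w hw), h4⟩
    have h6 : Le (A i) k := le_of_subset (hAk i hi)
    have h7 := hmin _ h5 (Le.ls h6)
    apply h3 (G i) (G1 i hi)
    refine cantor_bernstein (le_of_subset (h1 (G i) (G1 i hi))) ?_
    exact Le.trans (Eq'.le (Eq'.symm h7)) (le_of_subset fun y hy => ((mA i y).1 hy).1)
  -- choose decompositions together with injections into an ordinal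
  let H : V := hart (pow k)
  let C : V → V := fun i => Sep (prod (pow (pow k)) (pow (prod (pow k) H))) (fun q =>
    Dec (fs q) (A i) ∧ sn q ∈ Inj (fs q) H)
  have hC : DF C := by simp only [C]; fun_prop
  have mC : ∀ i q, q ∈ C i ↔ q ∈ prod (pow (pow k)) (pow (prod (pow k) H)) ∧
    Dec (fs q) (A i) ∧ sn q ∈ Inj (fs q) H := fun i q => mem_sep (by fun_prop)
  obtain ⟨c, hc⟩ := acwo h hC ha (by
    intro i hi
    obtain ⟨E, hE⟩ := hAD i hi
    have hEk : ∀ d ∈ E, d ∈ pow k := fun d hd => mem_pow.2 fun z hz =>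
      hAk i hi z ((hE.2.1 d hd).2 z hz)
    obtain ⟨e, he⟩ := inj_nonempty.2 (le_hart_of_wo hE.1 (le_of_subset hEk))
    refine ⟨op E e, (mC i _).2 ⟨op_mem_prod.2 ⟨mem_pow.2 hEk, mem_pow.2 ?_⟩, ?_⟩⟩
    · intro p hp
      have h5 := mem_pow.1 (isFun_mem_pow (mem_inj.1 he).1) p hp
      obtain ⟨u, v, hu, hv, rfl⟩ := mem_prod.1 h5
      exact op_mem_prod.2 ⟨hEk u hu, hv⟩
    · rw [fs_op, sn_op]; exact ⟨hE, he⟩)
  have hcD : ∀ i ∈ a, Dec (fs (app c i)) (A i) := fun i hi => ((mC i _).1 (hc i hi)).2.1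
  have hcI : ∀ i ∈ a, sn (app c i) ∈ Inj (fs (app c i)) H := fun i hi =>
    ((mC i _).1 (hc i hi)).2.2
  apply hkD
  have mS : ∀ d, d ∈ sUn (Img a (fun i => fs (app c i))) ↔ ∃ i ∈ a, d ∈ fs (app c i) := by
    intro d
    rw [mem_sUn]
    constructor
    · rintro ⟨y, hy, hd⟩
      obtain ⟨i, hi, rfl⟩ := (mem_img (by fun_prop)).1 hy
      exact ⟨i, hi, hd⟩
    · rintro ⟨i, hi, hd⟩
      exact ⟨_, (mem_img (by fun_prop)).2 ⟨i, hi, rfl⟩, hd⟩
  refine ⟨sUn (Img a (fun i => fs (app c i))), ?_, ?_, ?_⟩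
  · refine wo_union h ha (A := fun i => fs (app c i)) (by fun_prop) (fun i hi => (hcD i hi).1) ?_
    intro d hd; exact (mS d).1 hd
  · intro d hd
    obtain ⟨i, hi, hd⟩ := (mS d).1 hd
    exact ⟨((hcD i hi).2.1 d hd).1, fun z hz => hAk i hi z (((hcD i hi).2.1 d hd).2 z hz)⟩
  · intro y hy
    obtain ⟨i, hi, hyi⟩ := hAcov y hy
    obtain ⟨d, hd, hyd, huniq⟩ := (hcD i hi).2.2 y hyi
    refine ⟨d, (mS d).2 ⟨i, hi, hd⟩, hyd, ?_⟩
    intro d' hd' hyd'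
    obtain ⟨j, hj, hd'⟩ := (mS d').1 hd'
    have : j = i := hAdis j hj i hi y (((hcD j hj).2.1 d' hd').2 y hyd') hyi
    subst this
    exact huniq d' hd' hyd'

/-- Among the primes of a family indexed by a limit ordinal one finds `i < j` with
`|P i| ≤ |P j|`. -/
theorem prime_wpo (h : WFm V) {a : V} (ha : Od a) (hne : ∃ i, i ∈ a) (hlim : ∀ i ∈ a, suc i ∈ a)
    {P : V → V} (hP : DF P) (hPr : ∀ i ∈ a, Pr (P i)) :
    ∃ i ∈ a, ∃ j ∈ a, i ∈ j ∧ Le (P i) (P j) := by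
  let T : V → V := fun i => Sig (Sep a (fun j => ¬ j ∈ i)) P
  have hT : DF T := by simp only [T]; fun_prop
  have mT : ∀ i j x, op j x ∈ T i ↔ (j ∈ a ∧ ¬ j ∈ i) ∧ x ∈ P j := by
    intro i j x
    rw [op_mem_sig hP, mem_sep (by fun_prop)]
  obtain ⟨k, hk, hmin⟩ := h.min (K := Img a T) (by
    obtain ⟨i, hi⟩ := hne
    exact ⟨T i, (mem_img hT).2 ⟨i, hi, rfl⟩⟩)
  obtain ⟨i, hi, rfl⟩ := (mem_img hT).1 hk
  have h1 : Le (T (suc i)) (T i) := by
    refine le_of_subset fun p hp => ?_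
    obtain ⟨j, x, hj, hx, rfl⟩ := (mem_sig hP).1 hp
    obtain ⟨hj1, hj2⟩ := (mem_sep (by fun_prop)).1 hj
    exact (mT i j x).2 ⟨⟨hj1, fun h => hj2 (mem_suc.2 (Or.inl h))⟩, hx⟩
  have h2 := hmin (T (suc i)) ((mem_img hT).2 ⟨_, hlim i hi, rfl⟩) (Le.ls h1)
  have h3 : Le (P i) (T i) := by
    refine le_iff.2 ⟨fun x => op i x, by fun_prop, fun x hx => ?_, fun x _ y _ e =>
      (op_inj.1 e).2⟩
    exact (mT i i x).2 ⟨⟨hi, not_mem_self i⟩, hx⟩
  obtain ⟨g, hg, g1, g2⟩ := le_iff.1 (Le.trans h3 (Eq'.le (Eq'.symm h2)))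
  have hgm : ∀ x ∈ P i, ∃ j y, j ∈ a ∧ i ∈ j ∧ y ∈ P j ∧ g x = op j y := by
    intro x hx
    obtain ⟨j, y, hj, hy, e⟩ := (mem_sig hP).1 (g1 x hx)
    obtain ⟨hj1, hj2⟩ := (mem_sep (by fun_prop)).1 hj
    refine ⟨j, y, hj1, ?_, hy, e⟩
    rcases ha.tri hi hj1 with h | h | h
    · exact h
    · exact absurd (mem_suc.2 (Or.inr h.symm)) hj2
    · exact absurd (mem_suc.2 (Or.inl h)) hj2
  obtain ⟨j, hj, hle⟩ := prime_cover (hPr i hi) ha (A := fun j => Sep (P i) (fun x => fs (g x) = j))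
    (by fun_prop) (by
      intro x hx
      obtain ⟨j, y, hj, hij, hy, e⟩ := hgm x hx
      exact ⟨j, hj, (mem_sep (by fun_prop)).2 ⟨hx, by rw [e, fs_op]⟩⟩)
  have mQ : ∀ x, x ∈ Sep (P i) (fun x => x ∈ Sep (P i) (fun x => fs (g x) = j)) ↔
      x ∈ P i ∧ fs (g x) = j := by
    intro x
    rw [mem_sep (by fun_prop), mem_sep (by fun_prop)]
    exact ⟨fun h => h.2, fun h => ⟨h.1, h⟩⟩
  -- the piece is non-empty
  obtain ⟨x₀, hx₀⟩ := (hPr i hi).1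
  obtain ⟨F, hF, F1, F2⟩ := le_iff.1 hle
  obtain ⟨h4, h5⟩ := (mQ _).1 (F1 x₀ hx₀)
  obtain ⟨j', y, hj', hij, hy, e⟩ := hgm _ h4
  rw [e, fs_op] at h5
  subst h5
  refine ⟨i, hi, j', hj', hij, Le.trans hle ?_⟩
  refine le_iff.2 ⟨fun x => sn (g x), by fun_prop, ?_, ?_⟩
  · intro x hx
    obtain ⟨h6, h7⟩ := (mQ x).1 hx
    obtain ⟨j'', y', _, _, hy', e'⟩ := hgm x h6
    rw [e', fs_op] at h7
    subst h7
    dsimp only
    rw [e', sn_op]; exact hy'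
  · intro x hx x' hx' e1
    obtain ⟨h6, h7⟩ := (mQ x).1 hx
    obtain ⟨h8, h9⟩ := (mQ x').1 hx'
    obtain ⟨u, y', _, _, _, e'⟩ := hgm x h6
    obtain ⟨u', y'', _, _, _, e''⟩ := hgm x' h8
    dsimp only at e1
    rw [e', e''] at e1
    rw [sn_op, sn_op] at e1
    rw [e', fs_op] at h7
    rw [e'', fs_op] at h9
    exact g2 x h6 x' h8 (by rw [e', e'', h7, h9, e1])

end

end Pool.Agent.H83.ZF
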