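import Pool.Agent.H83.ZF.Min

/-! The cumulative hierarchy in a model of ZF, collection, and power sets of ordinals. -/

set_option autoImplicit false

open Set

namespace Pool.Agent.H83.ZF

universe u v

section

variable {V : Type u} [ZFM V]

/-- Every set is contained in a transitive set. -/
theorem exists_trans (x : V) : ∃ t : V, (∀ y ∈ x, y ∈ t) ∧ ∀ y ∈ t, ∀ z ∈ y, z ∈ t := by
  obtain ⟨F, hF, hFe⟩ := recursion (V := V)
    (G := fun f => un x (sUn (Img f (fun p => sUn (sn p))))) (by fun_prop)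
  have mF : ∀ a, Od a → ∀ y, y ∈ F a ↔ y ∈ x ∨ ∃ b ∈ a, ∃ w ∈ F b, y ∈ w := by
    intro a ha y
    rw [hFe a ha, mem_un, mem_sUn]
    refine or_congr Iff.rfl ?_
    constructor
    · rintro ⟨z, hz, hy⟩
      obtain ⟨p, hp, rfl⟩ := (mem_img (by fun_prop)).1 hz
      obtain ⟨b, hb, rfl⟩ := (mem_lam hF).1 hp
      rw [sn_op, mem_sUn] at hy
      exact ⟨b, hb, hy⟩
    · rintro ⟨b, hb, hy⟩
      refine ⟨sUn (F b), (mem_img (by fun_prop)).2 ⟨op b (F b), (mem_lam hF).2 ⟨b, hb, rfl⟩, ?_⟩,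
        mem_sUn.2 hy⟩
      rw [sn_op]
  refine ⟨sUn (Img om F), ?_, ?_⟩
  · intro y hy
    exact mem_sUn.2 ⟨F emp, (mem_img hF).2 ⟨emp, emp_mem_om, rfl⟩,
      (mF emp od_emp y).2 (Or.inl hy)⟩
  · intro y hy z hz
    obtain ⟨w, hw, hyw⟩ := mem_sUn.1 hy
    obtain ⟨n, hn, rfl⟩ := (mem_img hF).1 hw
    exact mem_sUn.2 ⟨F (suc n), (mem_img hF).2 ⟨suc n, suc_mem_om hn, rfl⟩,
      (mF _ (Od.suc (od_of_mem_om hn)) z).2 (Or.inr ⟨n, mem_suc.2 (Or.inr rfl), y, hyw, hz⟩)⟩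

/-- Induction on membership. -/
theorem mem_ind {P : V → Prop} (hP : DF P) (h : ∀ x, (∀ y ∈ x, P y) → P x) (x : V) : P x := by
  by_contra hcon
  obtain ⟨t, h1, h2⟩ := exists_trans (sing x)
  have mS : ∀ y, y ∈ Sep t (fun y => ¬ P y) ↔ y ∈ t ∧ ¬ P y := fun y => mem_sep (by fun_prop)
  obtain ⟨y, hy, hmin⟩ := exists_min (a := Sep t (fun y => ¬ P y))
    ⟨x, (mS x).2 ⟨h1 x (mem_sing.2 rfl), hcon⟩⟩
  obtain ⟨h3, h4⟩ := (mS y).1 hy
  apply h4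
  apply h
  intro z hz
  by_contra h5
  exact hmin z ((mS z).2 ⟨h2 y h3 z hz, h5⟩) hz

/-- The cumulative hierarchy. -/
theorem exists_hier (V : Type u) [ZFM V] : ∃ F : V → V, DF F ∧
    (∀ a, Od a → ∀ y, y ∈ F a ↔ ∃ b ∈ a, ∀ z ∈ y, z ∈ F b) ∧ ∀ x, ∃ a, Od a ∧ x ∈ F a := by
  obtain ⟨F, hF, hFe⟩ := recursion (V := V)
    (G := fun f => sUn (Img f (fun p => pow (sn p)))) (by fun_prop)
  have mF : ∀ a, Od a → ∀ y, y ∈ F a ↔ ∃ b ∈ a, ∀ z ∈ y, z ∈ F b := by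
    intro a ha y
    rw [hFe a ha, mem_sUn]
    constructor
    · rintro ⟨z, hz, hy⟩
      obtain ⟨p, hp, rfl⟩ := (mem_img (by fun_prop)).1 hz
      obtain ⟨b, hb, rfl⟩ := (mem_lam hF).1 hp
      rw [sn_op, mem_pow] at hy
      exact ⟨b, hb, hy⟩
    · rintro ⟨b, hb, hy⟩
      refine ⟨pow (F b), (mem_img (by fun_prop)).2 ⟨op b (F b), (mem_lam hF).2 ⟨b, hb, rfl⟩, ?_⟩,
        mem_pow.2 hy⟩
      rw [sn_op]
  refine ⟨F, hF, mF, fun x => ?_⟩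
  refine mem_ind (P := fun x => ∃ a, Od a ∧ x ∈ F a) (by fun_prop) ?_ x
  intro x hx
  -- least ordinal for each element
  let r : V → V := fun y => The (fun a => Od a ∧ y ∈ F a ∧ ∀ b ∈ a, ¬ y ∈ F b)
  have hr : DF r := by simp only [r]; fun_prop
  have hrs : ∀ y ∈ x, Od (r y) ∧ y ∈ F (r y) := by
    intro y hy
    obtain ⟨a, ha, h1⟩ := hx y hy
    obtain ⟨b, hb, h2, h3⟩ := least_ord (P := fun a => y ∈ F a) (by fun_prop) ha h1
    have h4 := the_spec (Q := fun a => Od a ∧ y ∈ F a ∧ ∀ b ∈ a, ¬ y ∈ F b) ⟨b, ⟨hb, h2, h3⟩, by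
      rintro c ⟨hc, h5, h6⟩
      rcases hc.lin hb with h7 | h7 | h7
      · exact absurd h5 (h3 c h7)
      · exact h7
      · exact absurd h2 (h6 b h7)⟩
    exact ⟨h4.1, h4.2.1⟩
  have hs : Od (sUn (Img x r)) := od_sUn (by
    intro z hz
    obtain ⟨y, hy, rfl⟩ := (mem_img hr).1 hz
    exact (hrs y hy).1)
  refine ⟨suc (sUn (Img x r)), Od.suc hs, ?_⟩
  refine (mF _ (Od.suc hs) x).2 ⟨_, mem_suc.2 (Or.inr rfl), fun y hy => ?_⟩
  obtain ⟨h1, h2⟩ := hrs y hy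
  obtain ⟨b, hb, h3⟩ := (mF _ h1 y).1 h2
  exact (mF _ hs y).2 ⟨b, mem_sUn.2 ⟨r y, (mem_img hr).2 ⟨y, hy, rfl⟩, hb⟩, h3⟩

/-- Collection. -/
theorem collection {R : V → V → Prop} (hR : DF (fun p : V × V => R p.1 p.2)) (a : V)
    (h : ∀ x ∈ a, ∃ y, R x y) : ∃ b : V, ∀ x ∈ a, ∃ y ∈ b, R x y := by
  obtain ⟨F, hF, mF, hall⟩ := exists_hier V
  let r : V → V := fun x => The (fun c => Od c ∧ (∃ y ∈ F c, R x y) ∧ ∀ b ∈ c, ¬ ∃ y ∈ F b, R x y)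
  have h3 : DF (fun p : (V × V) × V => R p.1.1 p.2) :=
    hR.comp (f := fun p : (V × V) × V => (p.1.1, p.2)) (by fun_prop)
  have h4 : DF (fun p : ((V × V) × V) × V => R p.1.1.1 p.2) :=
    hR.comp (f := fun p : ((V × V) × V) × V => (p.1.1.1, p.2)) (by fun_prop)
  have hr : DF r := by simp only [r]; fun_prop
  refine ⟨sUn (Img a (fun x => F (r x))), fun x hx => ?_⟩
  obtain ⟨y, hy⟩ := h x hx
  obtain ⟨c, hc, hyc⟩ := hall y
  have hRx : DF (fun c => ∃ y ∈ F c, R x y) := by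
    have : DF (fun p : V × V => R x p.2) := hR.comp (f := fun p : V × V => (x, p.2)) (by fun_prop)
    fun_prop
  obtain ⟨b, hb, h5, h6⟩ := least_ord hRx hc ⟨y, hyc, hy⟩
  have h7 := the_spec (Q := fun c => Od c ∧ (∃ y ∈ F c, R x y) ∧ ∀ b ∈ c, ¬ ∃ y ∈ F b, R x y)
    ⟨b, ⟨hb, h5, h6⟩, by
      rintro d ⟨hd, h8, h9⟩
      rcases hd.lin hb with h10 | h10 | h10
      · exact absurd h8 (h6 d h10)
      · exact h10
      · exact absurd h5 (h9 b h10)⟩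
  obtain ⟨y', hy', h8⟩ := h7.2.1
  exact ⟨y', mem_sUn.2 ⟨F (r x), (mem_img (by fun_prop)).2 ⟨x, hx, rfl⟩, hy'⟩, h8⟩

theorem pow_le {x y : V} (h : Eq' x y) : Le (pow x) (pow y) := by
  obtain ⟨F, hF, h1, h2, _⟩ := eq_iff.1 h
  refine le_iff.2 ⟨fun s => Img s F, by fun_prop, ?_, ?_⟩
  · intro s hs
    refine mem_pow.2 fun w hw => ?_
    obtain ⟨t, ht, rfl⟩ := (mem_img hF).1 hw
    exact h1 t (mem_pow.1 hs t ht)
  · have aux : ∀ s ∈ pow x, ∀ t ∈ pow x, Img s F = Img t F → ∀ z ∈ s, z ∈ t := by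
      intro s hs t ht e z hz
      have h3 : F z ∈ Img t F := e ▸ (mem_img hF).2 ⟨z, hz, rfl⟩
      obtain ⟨w, hw, e'⟩ := (mem_img hF).1 h3
      rw [h2 z (mem_pow.1 hs z hz) w (mem_pow.1 ht w hw) e']; exact hw
    intro s hs t ht e
    exact ext' fun z => ⟨aux s hs t ht e z, aux t ht s hs e.symm z⟩

/-- If all power sets of ordinals are well-orderable, then every set is. -/
theorem wo_all (h : WFm V) (hpow : ∀ o : V, Od o → WO (pow o)) (x : V) : WO x := by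
  obtain ⟨F, hF, mF, hall⟩ := exists_hier V
  have key : ∀ a, Od a → WO (F a) := by
    intro a ha
    refine ord_ind (P := fun a => WO (F a)) (by fun_prop) ?_ ha
    intro a ha ih
    refine wo_union h ha (A := fun b => pow (F b)) (by fun_prop) ?_ ?_
    · intro b hb
      obtain ⟨o, ho, e⟩ := WO.elim (ih b hb)
      exact wo_of_le (pow_le e) (hpow o ho)
    · intro y hy
      obtain ⟨b, hb, h1⟩ := (mF a ha y).1 hy
      exact ⟨b, hb, mem_pow.2 h1⟩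
  obtain ⟨a, ha, hx⟩ := hall x
  obtain ⟨b, hb, h1⟩ := (mF a ha x).1 hx
  exact wo_of_le (le_of_subset h1) (key b (ha.mem hb))

/-- If some set is not well-orderable, then there is a minimal non-well-orderable set of sets of
ordinals. -/
theorem exists_mn_pow (h : WFm V) {x : V} (hx : ¬ WO x) :
    ∃ o Y : V, Od o ∧ Mn Y ∧ ∀ y ∈ Y, ∀ z ∈ y, z ∈ o := by
  by_contra hcon
  apply hx
  apply wo_all h
  intro o ho
  by_contra h1
  obtain ⟨k, hk, hle⟩ := exists_mn h h1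
  obtain ⟨F, hF, h2, h3⟩ := le_iff.1 hle
  apply hcon
  refine ⟨o, Img k F, ho, mn_of_eq hk (eq_iff.2 ⟨F, hF, fun y hy => (mem_img hF).2 ⟨y, hy, rfl⟩,
    h3, fun z hz => ?_⟩), fun y hy z hz => ?_⟩
  · obtain ⟨y, hy, rfl⟩ := (mem_img hF).1 hz
    exact ⟨y, hy, rfl⟩
  · obtain ⟨w, hw, rfl⟩ := (mem_img hF).1 hy
    exact mem_pow.1 (h2 w hw) z hz

end

end Pool.Agent.H83.ZF
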