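import Pool.Agent.H83.ZF.Defs

/-! Basic set operations in a model of ZF. -/

set_option autoImplicit false

open Set

namespace Pool.Agent.H83.ZF

universe u v

section

variable {V : Type u} [ZFM V] {Γ Δ : Type u} [Ctx V Γ] [Ctx V Δ]

theorem ext' {x y : V} (h : ∀ z, z ∈ x ↔ z ∈ y) : x = y := ZFM.zf.ext x y h

theorem def2_iff {R : V → V → Prop} : Def2 (ZFM.E (V := V)) R ↔ DF (fun p : V × V => R p.1 p.2) := by
  rw [dfProp_iff]
  constructor
  · intro h
    exact Set.Definable.preimage_comp (L := LS) (A := (Set.univ : Set V))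
      (fun i : Fin 2 => if i = 0 then (Sum.inl () : Unit ⊕ Unit) else Sum.inr ()) h
  · intro h
    exact Set.Definable.preimage_comp (L := LS) (A := (Set.univ : Set V))
      (Sum.elim (fun _ => 0) (fun _ => 1) : Unit ⊕ Unit → Fin 2) h

/-- Replacement. -/
theorem replacement {R : V → V → Prop} (h : DF (fun p : V × V => R p.1 p.2)) (a : V)
    (hf : ∀ x ∈ a, ∀ y z, R x y → R x z → y = z) : ∃ b : V, ∀ y, y ∈ b ↔ ∃ x ∈ a, R x y :=
  ZFM.zf.replacement R (def2_iff.2 h) a hf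

theorem exists_sep (a : V) {P : V → Prop} (h : DF P) : ∃ b : V, ∀ x, x ∈ b ↔ x ∈ a ∧ P x := by
  obtain ⟨b, hb⟩ := replacement (R := fun x y => x = y ∧ P x) (by fun_prop) a
    (by rintro x _ y z ⟨rfl, _⟩ ⟨rfl, _⟩; rfl)
  refine ⟨b, fun x => ?_⟩
  rw [hb]
  constructor
  · rintro ⟨y, hy, rfl, h1⟩; exact ⟨hy, h1⟩
  · rintro ⟨h1, h2⟩; exact ⟨x, h1, rfl, h2⟩

theorem DF.sec {β : Type v} [Cod V β] {P : Γ → V → β} (h : DF (fun p : Γ × V => P p.1 p.2)) (a : Γ) :
    DF (P a) := by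
  have : DF (fun x : V => (a, x)) := by fun_prop
  exact h.comp this

/-- Definite description. -/
noncomputable def The (Q : V → Prop) : V := by
  classical
  exact if h : ∃ x, Q x ∧ ∀ y, Q y → y = x then h.choose
    else (ZFM.zf.infinity (V := V)).choose

theorem the_eq {Q : V → Prop} {x : V} (h : Q x) (hu : ∀ y, Q y → y = x) : The Q = x := by
  have h' : ∃ x, Q x ∧ ∀ y, Q y → y = x := ⟨x, h, hu⟩
  unfold The
  rw [dif_pos h']
  exact hu _ h'.choose_spec.1

theorem the_spec {Q : V → Prop} (h : ∃ x, Q x ∧ ∀ y, Q y → y = x) : Q (The Q) := by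
  obtain ⟨x, h1, h2⟩ := h
  rwa [the_eq h1 h2]

@[fun_prop]
theorem DF.the {Q : Γ → V → Prop} (h : DF (fun p : Γ × V => Q p.1 p.2)) :
    DF (fun a => The (fun x => Q a x)) := by
  apply DF.of_graph
  have h2 : DF (fun p : Γ × V => (Q p.1 p.2 ∧ ∀ y, Q p.1 y → y = p.2) ∨
      ((¬ ∃ x, Q p.1 x ∧ ∀ y, Q p.1 y → y = x) ∧ p.2 = (ZFM.zf.infinity (V := V)).choose)) := by
    have h3 : DF (fun p : (Γ × V) × V => Q p.1.1 p.2) :=
      h.comp (f := fun p : (Γ × V) × V => (p.1.1, p.2)) (by fun_prop)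
    have h4 : DF (fun p : ((Γ × V) × V) × V => Q p.1.1.1 p.2) :=
      h.comp (f := fun p : ((Γ × V) × V) × V => (p.1.1.1, p.2)) (by fun_prop)
    fun_prop
  refine h2.congrP fun p => ?_
  by_cases h' : ∃ x, Q p.1 x ∧ ∀ y, Q p.1 y → y = x
  · have e := the_spec h'
    constructor
    · rintro (⟨h5, h6⟩ | h5)
      · exact (h6 _ e).symm
      · exact absurd h' h5.1
    · intro h5
      left
      rw [h5]
      refine ⟨e, fun y hy => ?_⟩
      obtain ⟨x, h6, h7⟩ := h'
      rw [h7 y hy, h7 _ e]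
  · have e : The (fun x => Q p.1 x) = (ZFM.zf.infinity (V := V)).choose := by
      unfold The; rw [dif_neg h']
    rw [e]
    constructor
    · rintro (⟨h5, h6⟩ | h5)
      · exact absurd ⟨_, h5, h6⟩ h'
      · exact h5.2
    · intro h5; right; exact ⟨h', h5⟩

/-- definition by cases -/
noncomputable def Ite (p : Prop) (x y : V) : V := The (fun z => (p ∧ z = x) ∨ (¬ p ∧ z = y))

theorem ite_pos {p : Prop} (h : p) (x y : V) : Ite p x y = x :=
  the_eq (Or.inl ⟨h, rfl⟩) (by rintro z (h' | h'); exacts [h'.2, absurd h h'.1])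

theorem ite_neg {p : Prop} (h : ¬ p) (x y : V) : Ite p x y = y :=
  the_eq (Or.inr ⟨h, rfl⟩) (by rintro z (h' | h'); exacts [absurd h'.1 h, h'.2])

@[fun_prop]
theorem DF.ite {p : Γ → Prop} {f g : Γ → V} (hp : DF p) (hf : DF f) (hg : DF g) :
    DF (fun a => Ite (p a) (f a) (g a)) := by
  unfold Ite; fun_prop

/-- The set of `x` satisfying `P`, when there is one. -/
noncomputable def SetOf (P : V → Prop) : V := The (fun s => ∀ x, x ∈ s ↔ P x)

theorem mem_setOf_of {P : V → Prop} (h : ∃ s : V, ∀ x, x ∈ s ↔ P x) (x : V) : x ∈ SetOf P ↔ P x := by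
  obtain ⟨s, hs⟩ := h
  have : SetOf P = s := the_eq hs fun y hy => ext' fun z => (hy z).trans (hs z).symm
  rw [this]; exact hs x

@[fun_prop]
theorem DF.setOf {P : Γ → V → Prop} (h : DF (fun p : Γ × V => P p.1 p.2)) :
    DF (fun a => SetOf (fun x => P a x)) := by
  unfold SetOf
  have h4 : DF (fun p : (Γ × V) × V => P p.1.1 p.2) :=
    h.comp (f := fun p : (Γ × V) × V => (p.1.1, p.2)) (by fun_prop)
  fun_prop

/-- Separation: `{x ∈ a | P x}`. -/
noncomputable def Sep (a : V) (P : V → Prop) : V := SetOf (fun x => x ∈ a ∧ P x)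

theorem mem_sep {a : V} {P : V → Prop} (h : DF P) {x : V} : x ∈ Sep a P ↔ x ∈ a ∧ P x :=
  mem_setOf_of (exists_sep a h) x

@[fun_prop]
theorem DF.sep {f : Γ → V} {P : Γ → V → Prop} (hf : DF f) (h : DF (fun p : Γ × V => P p.1 p.2)) :
    DF (fun a => Sep (f a) (fun x => P a x)) := by
  unfold Sep; fun_prop

/-- Image: `{F x | x ∈ a}`. -/
noncomputable def Img (a : V) (F : V → V) : V := SetOf (fun y => ∃ x, x ∈ a ∧ y = F x)

theorem mem_img {a : V} {F : V → V} (h : DF F) {y : V} : y ∈ Img a F ↔ ∃ x, x ∈ a ∧ y = F x := by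
  refine mem_setOf_of ?_ y
  exact replacement (R := fun x y => y = F x) (by fun_prop) a
    (by rintro x _ y z rfl rfl; rfl)

@[fun_prop]
theorem DF.img {f : Γ → V} {F : Γ → V → V} (hf : DF f) (h : DF (fun p : Γ × V => F p.1 p.2)) :
    DF (fun a => Img (f a) (fun x => F a x)) := by
  unfold Img
  have h4 : DF (fun p : (Γ × V) × V => F p.1.1 p.2) :=
    h.comp (f := fun p : (Γ × V) × V => (p.1.1, p.2)) (by fun_prop)
  fun_prop

/-- the empty set -/
noncomputable def emp : V := SetOf (fun _ => False)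

theorem not_mem_emp (x : V) : ¬ x ∈ (emp : V) := by
  obtain ⟨w, ⟨e, _, h⟩, _⟩ := (ZFM.zf (V := V)).infinity
  have : ∀ x : V, x ∈ (emp : V) ↔ False :=
    mem_setOf_of ⟨e, fun x => iff_of_false (h x) not_false⟩
  rw [this]; exact not_false

/-- `{x, y}` -/
noncomputable def upair (x y : V) : V := SetOf (fun z => z = x ∨ z = y)

theorem mem_upair {x y z : V} : z ∈ upair x y ↔ z = x ∨ z = y :=
  mem_setOf_of ((ZFM.zf (V := V)).pair x y) z

@[fun_prop]
theorem DF.upair {f g : Γ → V} (hf : DF f) (hg : DF g) : DF (fun a => upair (f a) (g a)) := by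
  unfold Pool.Agent.H83.ZF.upair; fun_prop

/-- `⋃ x` -/
noncomputable def sUn (x : V) : V := SetOf (fun z => ∃ y, y ∈ x ∧ z ∈ y)

theorem mem_sUn {x z : V} : z ∈ sUn x ↔ ∃ y, y ∈ x ∧ z ∈ y :=
  mem_setOf_of ((ZFM.zf (V := V)).union x) z

@[fun_prop]
theorem DF.sUn {f : Γ → V} (hf : DF f) : DF (fun a => sUn (f a)) := by
  unfold Pool.Agent.H83.ZF.sUn; fun_prop

/-- the power set -/
noncomputable def pow (x : V) : V := SetOf (fun z => ∀ w, w ∈ z → w ∈ x)

theorem mem_pow {x z : V} : z ∈ pow x ↔ ∀ w, w ∈ z → w ∈ x :=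
  mem_setOf_of ((ZFM.zf (V := V)).power x) z

@[fun_prop]
theorem DF.pow {f : Γ → V} (hf : DF f) : DF (fun a => pow (f a)) := by
  unfold Pool.Agent.H83.ZF.pow; fun_prop

/-- `x ∪ y` -/
noncomputable def un (x y : V) : V := sUn (upair x y)

theorem mem_un {x y z : V} : z ∈ un x y ↔ z ∈ x ∨ z ∈ y := by
  unfold un
  rw [mem_sUn]
  constructor
  · rintro ⟨w, h1, h2⟩
    rcases mem_upair.1 h1 with rfl | rfl
    · exact Or.inl h2
    · exact Or.inr h2
  · rintro (h | h)
    · exact ⟨x, mem_upair.2 (Or.inl rfl), h⟩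
    · exact ⟨y, mem_upair.2 (Or.inr rfl), h⟩

@[fun_prop]
theorem DF.un {f g : Γ → V} (hf : DF f) (hg : DF g) : DF (fun a => un (f a) (g a)) := by
  unfold Pool.Agent.H83.ZF.un; fun_prop

/-- `{x}` -/
noncomputable def sing (x : V) : V := upair x x

theorem mem_sing {x z : V} : z ∈ sing x ↔ z = x := by
  unfold sing; rw [mem_upair, or_self]

@[fun_prop]
theorem DF.sing {f : Γ → V} (hf : DF f) : DF (fun a => sing (f a)) := by
  unfold Pool.Agent.H83.ZF.sing; fun_prop

/-- the ordered pair -/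
noncomputable def op (x y : V) : V := upair (sing x) (upair x y)

@[fun_prop]
theorem DF.op {f g : Γ → V} (hf : DF f) (hg : DF g) : DF (fun a => op (f a) (g a)) := by
  unfold Pool.Agent.H83.ZF.op; fun_prop

theorem op_inj {x y x' y' : V} : op x y = op x' y' ↔ x = x' ∧ y = y' := by
  constructor
  · intro h
    have h1 : ∀ z, z ∈ op x y ↔ z ∈ op x' y' := fun z => by rw [h]
    have hs : ∀ x y z : V, z ∈ op x y ↔ z = sing x ∨ z = upair x y := fun x y z => mem_upair
    have ex : x = x' := by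
      have h2 : sing x ∈ op x' y' := (h1 _).1 ((hs _ _ _).2 (Or.inl rfl))
      rcases (hs _ _ _).1 h2 with h3 | h3
      · have : x' ∈ sing x := by rw [h3]; exact mem_sing.2 rfl
        exact (mem_sing.1 this).symm
      · have : x' ∈ sing x := by rw [h3]; exact mem_upair.2 (Or.inl rfl)
        exact (mem_sing.1 this).symm
    subst ex
    refine ⟨rfl, ?_⟩
    have h2 : upair x y ∈ op x y' := (h1 _).1 ((hs _ _ _).2 (Or.inr rfl))
    have h3 : upair x y' ∈ op x y := (h1 _).2 ((hs _ _ _).2 (Or.inr rfl))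
    have hy : y ∈ upair x y := mem_upair.2 (Or.inr rfl)
    have hy' : y' ∈ upair x y' := mem_upair.2 (Or.inr rfl)
    rcases (hs _ _ _).1 h2 with h4 | h4
    · have e1 : y = x := mem_sing.1 (h4 ▸ hy)
      rcases (hs _ _ _).1 h3 with h5 | h5
      · have e2 : y' = x := mem_sing.1 (h5 ▸ hy')
        rw [e1, e2]
      · have : y' ∈ upair x y := h5 ▸ hy'
        rcases mem_upair.1 this with h6 | h6
        · rw [e1, h6]
        · exact h6.symm
    · have : y ∈ upair x y' := h4 ▸ hy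
      rcases mem_upair.1 this with h6 | h6
      · have : y' ∈ upair x y := h4 ▸ hy'
        rcases mem_upair.1 this with h7 | h7
        · rw [h6, h7]
        · exact h7.symm
      · exact h6
  · rintro ⟨rfl, rfl⟩; rfl

theorem isPair_iff {z x y : V} : IsPair ZFM.E z x y ↔ z = upair x y := by
  constructor
  · intro h
    exact ext' fun w => (h w).trans mem_upair.symm
  · rintro rfl w
    exact mem_upair

theorem isOPair_iff {p x y : V} : IsOPair ZFM.E p x y ↔ p = op x y := by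
  unfold IsOPair
  simp only [isPair_iff]
  constructor
  · rintro ⟨s, t, rfl, rfl, rfl⟩; rfl
  · rintro rfl; exact ⟨_, _, rfl, rfl, rfl⟩

theorem maps_iff {f x y : V} : Maps ZFM.E f x y ↔ op x y ∈ f := by
  unfold Maps
  simp only [isOPair_iff]
  constructor
  · rintro ⟨p, h, rfl⟩; exact h
  · intro h; exact ⟨_, h, rfl⟩

/-- first and second projection -/
noncomputable def fs (p : V) : V := The (fun x => ∃ y, p = op x y)
noncomputable def sn (p : V) : V := The (fun y => ∃ x, p = op x y)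

@[simp] theorem fs_op (x y : V) : fs (op x y) = x :=
  the_eq ⟨y, rfl⟩ (by rintro z ⟨w, h⟩; exact (op_inj.1 h).1.symm)

@[simp] theorem sn_op (x y : V) : sn (op x y) = y :=
  the_eq ⟨x, rfl⟩ (by rintro z ⟨w, h⟩; exact (op_inj.1 h).2.symm)

@[fun_prop]
theorem DF.fs {f : Γ → V} (hf : DF f) : DF (fun a => fs (f a)) := by
  unfold Pool.Agent.H83.ZF.fs; fun_prop

@[fun_prop]
theorem DF.sn {f : Γ → V} (hf : DF f) : DF (fun a => sn (f a)) := by
  unfold Pool.Agent.H83.ZF.sn; fun_prop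

/-- the disjoint sum of the sets `F i`, `i ∈ a`: the set of the pairs `(i, x)`, `x ∈ F i` -/
noncomputable def Sig (a : V) (F : V → V) : V := sUn (Img a (fun i => Img (F i) (fun x => op i x)))

theorem mem_sig {a : V} {F : V → V} (h : DF F) {p : V} :
    p ∈ Sig a F ↔ ∃ i x, i ∈ a ∧ x ∈ F i ∧ p = op i x := by
  unfold Sig
  rw [mem_sUn]
  constructor
  · rintro ⟨y, h1, h2⟩
    obtain ⟨i, hi, rfl⟩ := (mem_img (by fun_prop)).1 h1
    obtain ⟨x, hx, rfl⟩ := (mem_img (by fun_prop)).1 h2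
    exact ⟨i, x, hi, hx, rfl⟩
  · rintro ⟨i, x, hi, hx, rfl⟩
    exact ⟨_, (mem_img (by fun_prop)).2 ⟨i, hi, rfl⟩, (mem_img (by fun_prop)).2 ⟨x, hx, rfl⟩⟩

theorem op_mem_sig {a : V} {F : V → V} (h : DF F) {i x : V} :
    op i x ∈ Sig a F ↔ i ∈ a ∧ x ∈ F i := by
  rw [mem_sig h]
  constructor
  · rintro ⟨i', x', h1, h2, h3⟩
    obtain ⟨rfl, rfl⟩ := op_inj.1 h3
    exact ⟨h1, h2⟩
  · rintro ⟨h1, h2⟩; exact ⟨i, x, h1, h2, rfl⟩

@[fun_prop]
theorem DF.sig {f : Γ → V} {F : Γ → V → V} (hf : DF f) (h : DF (fun p : Γ × V => F p.1 p.2)) :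
    DF (fun a => Sig (f a) (fun x => F a x)) := by
  unfold Sig; fun_prop

/-- the product `a × b` -/
noncomputable def prod (a b : V) : V := Sig a (fun _ => b)

theorem mem_prod {a b p : V} : p ∈ prod a b ↔ ∃ i x, i ∈ a ∧ x ∈ b ∧ p = op i x :=
  mem_sig (by fun_prop)

theorem op_mem_prod {a b i x : V} : op i x ∈ prod a b ↔ i ∈ a ∧ x ∈ b := op_mem_sig (by fun_prop)

@[fun_prop]
theorem DF.prod {f g : Γ → V} (hf : DF f) (hg : DF g) : DF (fun a => prod (f a) (g a)) := by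
  unfold Pool.Agent.H83.ZF.prod; fun_prop

/-- application -/
noncomputable def app (f x : V) : V := The (fun y => op x y ∈ f)

@[fun_prop]
theorem DF.app {f g : Γ → V} (hf : DF f) (hg : DF g) : DF (fun a => app (f a) (g a)) := by
  unfold Pool.Agent.H83.ZF.app; fun_prop

/-- the function `x ↦ F x` on `a` as a set -/
noncomputable def lam (a : V) (F : V → V) : V := Img a (fun x => op x (F x))

@[fun_prop]
theorem DF.lam {f : Γ → V} {F : Γ → V → V} (hf : DF f) (h : DF (fun p : Γ × V => F p.1 p.2)) :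
    DF (fun a => lam (f a) (fun x => F a x)) := by
  unfold Pool.Agent.H83.ZF.lam; fun_prop

theorem mem_lam {a : V} {F : V → V} (h : DF F) {p : V} :
    p ∈ lam a F ↔ ∃ x, x ∈ a ∧ p = op x (F x) := mem_img (by fun_prop)

theorem op_mem_lam {a : V} {F : V → V} (h : DF F) {x y : V} :
    op x y ∈ lam a F ↔ x ∈ a ∧ y = F x := by
  rw [mem_lam h]
  constructor
  · rintro ⟨z, h1, h2⟩
    obtain ⟨rfl, rfl⟩ := op_inj.1 h2
    exact ⟨h1, rfl⟩
  · rintro ⟨h1, rfl⟩; exact ⟨x, h1, rfl⟩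

theorem app_lam {a : V} {F : V → V} (h : DF F) {x : V} (hx : x ∈ a) : app (lam a F) x = F x :=
  the_eq ((op_mem_lam h).2 ⟨hx, rfl⟩) fun _ hy => ((op_mem_lam h).1 hy).2

end

end Pool.Agent.H83.ZF
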